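import Pool.Agent.N973.P15G.Lines
import Pool.Agent.N871.P15G.C2

/-!
# P15G: the bilinear identities BIL4, BIL42, BIL4G (class `(-;-1,1)`)
-/

set_option autoImplicit false

namespace Pool.Agent.N816.PG15

open Finset
open Pool.Agent.N969.P15 (V3 Ev tw tb)
open Pool.Agent.N877.P21 (ip vec rr)
open Pool.Agent.N973.P15G
open Pool.Agent.N218.P21 (mem_vec cs)

noncomputable section

/-- the linear form -/
def tt (v : V3) : ℤ := v 1 - v 2

theorem mem_V {n : ℤ} {v : V3} : v ∈ V n ↔ ip v v = n ∧ (5 : ℤ) ∣ v 0 + 2 * v 1 + 2 * v 2 := by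
  unfold V
  rw [Finset.mem_filter, mem_vec]

theorem V_ip {n1 n2 : ℤ} {v w : V3} (hv : v ∈ V n1) (hw : w ∈ V n2) :
    (15 : ℤ) ∣ tt v * tt w - ip v w := by
  obtain ⟨-, k, hk⟩ := mem_V.1 hv
  obtain ⟨-, l, hl⟩ := mem_V.1 hw
  have e1 : v 0 = 5 * k - 2 * (v 1 + v 2) := by linarith
  have e2 : w 0 = 5 * l - 2 * (w 1 + w 2) := by linarith
  refine ⟨-(5 * k * l - 2 * k * (w 1 + w 2) - 2 * l * (v 1 + v 2) +
    (v 1 + v 2) * (w 1 + w 2)), ?_⟩
  unfold tt ip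
  rw [e1, e2]
  ring

theorem V_sq {n : ℤ} {v : V3} (hv : v ∈ V n) : (15 : ℤ) ∣ tt v * tt v - n := by
  have h := V_ip hv hv
  rwa [(mem_V.1 hv).1] at h

theorem V_neg {n : ℤ} {v : V3} : -v ∈ V n ↔ v ∈ V n := by
  rw [mem_V, mem_V]
  have e1 : ip (-v) (-v) = ip v v := by
    unfold ip
    simp only [Pi.neg_apply]
    ring
  have e2 : (-v) 0 + 2 * (-v) 1 + 2 * (-v) 2 = -(v 0 + 2 * v 1 + 2 * v 2) := by
    simp only [Pi.neg_apply]
    ring
  rw [e1, e2, dvd_neg]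

theorem sum_neg (n : ℤ) (f : V3 → ℤ) : ∑ v ∈ V n, f (-v) = ∑ v ∈ V n, f v :=
  Finset.sum_nbij' (fun v => -v) (fun v => -v) (fun _ h => V_neg.2 h) (fun _ h => V_neg.2 h)
    (fun _ _ => neg_neg _) (fun _ _ => neg_neg _) (fun _ _ => rfl)

theorem ip_neg (v w : V3) : ip (-v) w = -ip v w := by
  unfold ip
  simp only [Pi.neg_apply]
  ring

theorem ip_par {v w : V3} {n1 n2 : ℤ} (hv : ip v v = n1) (hw : ip w w = n2) :
    (2 : ℤ) ∣ ip v w - n1 * n2 := by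
  have h1 : (2 : ℤ) ∣ v 0 - n1 := by
    rw [← hv]
    have h2 : (2 : ℤ) ∣ v 0 * (v 0 - 1) := by
      rcases Int.even_or_odd (v 0) with h | h
      · exact h.two_dvd.mul_right _
      · exact (h.sub_odd odd_one).two_dvd.mul_left _
    obtain ⟨k, hk⟩ := h2
    refine ⟨-(3 * k + v 0 + 2 * (v 1 * v 1) + 2 * (v 2 * v 2) + 2 * (v 1 * v 2)), ?_⟩
    unfold ip
    linear_combination (-3) * hk
  have h2 : (2 : ℤ) ∣ w 0 - n2 := by
    rw [← hw]
    have h2 : (2 : ℤ) ∣ w 0 * (w 0 - 1) := by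
      rcases Int.even_or_odd (w 0) with h | h
      · exact h.two_dvd.mul_right _
      · exact (h.sub_odd odd_one).two_dvd.mul_left _
    obtain ⟨k, hk⟩ := h2
    refine ⟨-(3 * k + w 0 + 2 * (w 1 * w 1) + 2 * (w 2 * w 2) + 2 * (w 1 * w 2)), ?_⟩
    unfold ip
    linear_combination (-3) * hk
  obtain ⟨k, hk⟩ := h1
  obtain ⟨l, hl⟩ := h2
  refine ⟨(v 0 * w 0) + 2 * (v 1 * w 1) + 2 * (v 2 * w 2) + (v 1 * w 2 + v 2 * w 1) +
    k * w 0 + n1 * l, ?_⟩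
  unfold ip
  linear_combination (w 0) * hk + n1 * hl

theorem cpV_sum (n1 b n2 : ℤ) : (cpV n1 b n2 : ℤ) = ∑ v ∈ V n1, ∑ w ∈ V n2,
    if ip v w = b then 1 else 0 := by
  unfold cpV
  rw [Finset.card_eq_sum_ones, Finset.sum_filter, Finset.sum_product]
  push_cast
  rfl

/-- the sum over `T` as a sum over the pairs -/
theorem sum_T {n1 n2 N : ℕ} (hN : (N : ℤ) ^ 2 = n1 * n2) (hpar : (2 : ℤ) ∣ N - n1 * n2)
    (f : ℤ → ℤ) (C : ℕ → Prop) [DecidablePred C] (R : ℤ → Prop) [DecidablePred R]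
    (hC : ∀ T : ℕ, T < N → (C T ↔ R (2 * T - N))) (hR : ¬ R N ∧ ¬ R (-N)) :
    ∑ T ∈ (range N).filter C, f T * (cpV n1 (2 * T - N) n2 : ℤ) =
      ∑ v ∈ V n1, ∑ w ∈ V n2, if R (ip v w) then f ((N + ip v w) / 2) else 0 := by
  have h1 : ∀ T ∈ (range N).filter C, f T * (cpV n1 (2 * T - N) n2 : ℤ) =
      ∑ v ∈ V n1, ∑ w ∈ V n2, if ip v w = 2 * T - N then f T else 0 := by
    intro T _
    rw [cpV_sum, Finset.mul_sum]
    refine Finset.sum_congr rfl fun v _ => ?_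
    rw [Finset.mul_sum]
    refine Finset.sum_congr rfl fun w _ => ?_
    split_ifs <;> simp
  rw [Finset.sum_congr rfl h1, Finset.sum_comm]
  refine Finset.sum_congr rfl fun v hv => ?_
  rw [Finset.sum_comm]
  refine Finset.sum_congr rfl fun w hw => ?_
  have hv' := (mem_V.1 hv).1
  have hw' := (mem_V.1 hw).1
  by_cases hr : R (ip v w)
  · rw [if_pos hr]
    have hcs := cs v w
    rw [hv', hw', ← hN] at hcs
    have habs := abs_le_of_sq_le_sq' hcs (by positivity)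
    have hne1 : ip v w ≠ N := fun h => hR.1 (h ▸ hr)
    have hne2 : ip v w ≠ -N := fun h => hR.2 (h ▸ hr)
    have hp := ip_par hv' hw'
    obtain ⟨T, hT⟩ : ∃ T : ℕ, (T : ℤ) = (N + ip v w) / 2 := by
      refine ⟨((N + ip v w) / 2).toNat, ?_⟩
      rw [Int.toNat_of_nonneg]
      omega
    have h2 : ip v w = 2 * T - N := by
      rw [hT]
      omega
    rw [Finset.sum_eq_single T]
    · rw [if_pos h2, ← hT]
    · intro T' _ hne
      rw [if_neg]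
      intro h3
      apply hne
      have : (T' : ℤ) = T := by linarith
      exact_mod_cast this
    · intro h3
      exfalso
      apply h3
      have hTN : T < N := by omega
      rw [Finset.mem_filter, Finset.mem_range]
      refine ⟨hTN, (hC T hTN).2 ?_⟩
      rw [← h2]
      exact hr
  · rw [if_neg hr]
    refine Finset.sum_eq_zero fun T hT => if_neg ?_
    intro h3
    rw [Finset.mem_filter, Finset.mem_range] at hT
    apply hr
    rw [h3]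
    exact (hC T hT.1).1 hT.2

/-! ### the orientation -/

/-- the orientation modulo `15` -/
def sz (t : ZMod 15) : ℤ := if t = 1 ∨ t = 2 ∨ t = 13 ∨ t = 14 then 1
  else if t = 4 ∨ t = 7 ∨ t = 8 ∨ t = 11 then -1 else 0

theorem sz_aux : ∀ r ∈ Finset.range 15, s15 ((r : ℕ) : ℤ) = sz ((r : ℕ) : ZMod 15) := by
  decide

theorem s15_eq (t : ℤ) : s15 t = sz (t : ZMod 15) := by
  have h0 : 0 ≤ t % 15 := Int.emod_nonneg _ (by norm_num)
  have h1 : t % 15 < 15 := Int.emod_lt_of_pos _ (by norm_num)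
  obtain ⟨r, hr⟩ : ∃ r : ℕ, (r : ℤ) = t % 15 := ⟨(t % 15).toNat, Int.toNat_of_nonneg h0⟩
  have h2 := sz_aux r (Finset.mem_range.2 (by omega))
  have e1 : s15 t = s15 ((r : ℕ) : ℤ) := by
    unfold s15
    rw [hr, Int.emod_emod]
  have e2 : (t : ZMod 15) = ((r : ℕ) : ZMod 15) := by
    have : ((r : ℕ) : ZMod 15) = ((r : ℤ) : ZMod 15) := by push_cast; rfl
    rw [this, hr]
    exact (ZMod.intCast_mod t 15).symm
  rw [e1, e2, h2]

theorem key1 : ∀ a b : ZMod 15, a * a = 1 → b * b = 1 →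
    2 * ((if a * b = 4 * 1 then (1 : ℤ) else 0) + (if a * b = -(4 * 1) then 1 else 0)) =
      1 - sz a * sz b := by
  decide

theorem key4 : ∀ a b : ZMod 15, a * a = 4 → b * b = 4 →
    2 * ((if a * b = 4 * 4 then (1 : ℤ) else 0) + (if a * b = -(4 * 4) then 1 else 0)) =
      1 - sz a * sz b := by
  decide

theorem key1' : ∀ a b : ZMod 15, a * a = 1 → b * b = 4 * 1 →
    2 * ((if a * b = 8 * 1 then (1 : ℤ) else 0) + (if a * b = -(8 * 1) then 1 else 0)) =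
      1 - 1 * (sz a * sz b) := by
  decide

theorem key4' : ∀ a b : ZMod 15, a * a = 4 → b * b = 4 * 4 →
    2 * ((if a * b = 8 * 4 then (1 : ℤ) else 0) + (if a * b = -(8 * 4) then 1 else 0)) =
      1 - (-1) * (sz a * sz b) := by
  decide

theorem z15 (x y : ℤ) : (15 : ℤ) ∣ x - y ↔ (x : ZMod 15) = (y : ZMod 15) := by
  rw [← sub_eq_zero, ← Int.cast_sub, ZMod.intCast_zmod_eq_zero_iff_dvd]
  rfl

/-- the class of `n` modulo `15` -/
theorem Nis_mod {n : ℕ} (h : Nis n) : n % 15 = 1 ∨ n % 15 = 4 := by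
  obtain ⟨-, h1, h2⟩ := h
  omega

theorem cast15 {n r : ℕ} (h : n % 15 = r) : ((n : ℤ) : ZMod 15) = (r : ZMod 15) := by
  rw [← h]
  push_cast
  exact (ZMod.natCast_mod n 15).symm

/-- the two classes of inner products -/
theorem or1 {n : ℕ} (h : Nis n) {v w : V3} (hv : v ∈ V n) (hw : w ∈ V n) :
    2 * ((if (15 : ℤ) ∣ ip v w - 4 * n then (1 : ℤ) else 0) +
      (if (15 : ℤ) ∣ ip v w + 4 * n then 1 else 0)) = 1 - s15 (v 1 - v 2) * s15 (w 1 - w 2) := by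
  have h1 := (z15 _ _).1 (V_sq hv)
  have h2 := (z15 _ _).1 (V_sq hw)
  have h3 := (z15 _ _).1 (V_ip hv hw)
  have e1 : ((15 : ℤ) ∣ ip v w - 4 * n) ↔ ((tt v : ℤ) : ZMod 15) * (tt w : ℤ) = 4 * ((n : ℤ) : ZMod 15) := by
    rw [z15, ← h3]
    push_cast
    rfl
  have e2 : ((15 : ℤ) ∣ ip v w + 4 * n) ↔
      ((tt v : ℤ) : ZMod 15) * (tt w : ℤ) = -(4 * ((n : ℤ) : ZMod 15)) := by
    have : ip v w + 4 * (n : ℤ) = ip v w - (-(4 * n)) := by ring
    rw [this, z15, ← h3]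
    push_cast
    rfl
  simp only [e1, e2]
  rw [s15_eq, s15_eq]
  push_cast at h1 h2
  change _ = 1 - sz ((tt v : ℤ) : ZMod 15) * sz ((tt w : ℤ) : ZMod 15)
  rcases Nis_mod h with hn | hn
  · have hc := cast15 hn
    push_cast at hc
    push_cast
    rw [hc] at h1 h2 ⊢
    exact key1 _ _ h1 h2
  · have hc := cast15 hn
    push_cast at hc
    push_cast
    rw [hc] at h1 h2 ⊢
    exact key4 _ _ h1 h2

theorem or2 {n : ℕ} (h : Nis n) {v w : V3} (hv : v ∈ V n) (hw : w ∈ V (4 * n)) :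
    2 * ((if (15 : ℤ) ∣ ip v w - 8 * n then (1 : ℤ) else 0) +
      (if (15 : ℤ) ∣ ip v w + 8 * n then 1 else 0)) =
      1 - (if n % 15 = 1 then 1 else -1) * (s15 (v 1 - v 2) * s15 (w 1 - w 2)) := by
  have h1 := (z15 _ _).1 (V_sq hv)
  have h2 := (z15 _ _).1 (V_sq hw)
  have h3 := (z15 _ _).1 (V_ip hv hw)
  have e1 : ((15 : ℤ) ∣ ip v w - 8 * n) ↔ ((tt v : ℤ) : ZMod 15) * (tt w : ℤ) = 8 * ((n : ℤ) : ZMod 15) := by
    rw [z15, ← h3]
    push_cast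
    rfl
  have e2 : ((15 : ℤ) ∣ ip v w + 8 * n) ↔
      ((tt v : ℤ) : ZMod 15) * (tt w : ℤ) = -(8 * ((n : ℤ) : ZMod 15)) := by
    have : ip v w + 8 * (n : ℤ) = ip v w - (-(8 * n)) := by ring
    rw [this, z15, ← h3]
    push_cast
    rfl
  simp only [e1, e2]
  rw [s15_eq, s15_eq]
  push_cast at h1 h2
  change _ = 1 - _ * (sz ((tt v : ℤ) : ZMod 15) * sz ((tt w : ℤ) : ZMod 15))
  rcases Nis_mod h with hn | hn
  · have hc := cast15 hn
    rw [if_pos hn]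
    push_cast at hc
    push_cast
    rw [hc] at h1 h2 ⊢
    exact key1' _ _ h1 h2
  · have hc := cast15 hn
    have hne : ¬ n % 15 = 1 := by omega
    rw [if_neg hne]
    push_cast at hc
    push_cast
    rw [hc] at h1 h2 ⊢
    exact key4' _ _ h1 h2

/-! ### BIL4 and BIL42 -/

theorem flip_sum {n1 n2 : ℤ} (r : ℤ) (g : ℤ → ℤ) :
    ∑ v ∈ V n1, ∑ w ∈ V n2, (if (15 : ℤ) ∣ ip v w - r then g (ip v w) else 0) =
      ∑ v ∈ V n1, ∑ w ∈ V n2, (if (15 : ℤ) ∣ ip v w + r then g (-ip v w) else 0) := by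
  rw [← sum_neg n1 (fun v => ∑ w ∈ V n2, (if (15 : ℤ) ∣ ip v w - r then g (ip v w) else 0))]
  refine Finset.sum_congr rfl fun v _ => Finset.sum_congr rfl fun w _ => ?_
  rw [ip_neg]
  have e : (15 : ℤ) ∣ -ip v w - r ↔ (15 : ℤ) ∣ ip v w + r := by
    have : -ip v w - r = -(ip v w + r) := by ring
    rw [this, dvd_neg]
  simp only [e]

theorem l5_cpV {n k T : ℕ} (h : Nis n) (hk : k = 1 ∨ k = 2) (hT0 : 0 < T) (hT : T < k * n)
    (h5 : 5 ∣ (k * n - T) * T) :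
    (cpV n (2 * T - (k * n : ℕ)) (k ^ 2 * n : ℕ) : ℤ) =
      4 * l5 n (2 * T - (k * n : ℕ)) (4 * (k * n - T) * T) := by
  have hn3 := h.2.1
  have hn5 := h.2.2
  refine t_PCV5 n (k ^ 2 * n) (2 * T - (k * n : ℕ)) (4 * (k * n - T) * T) h ?_ ?_ ?_ ?_ ?_
  · intro h2
    have h4 : 4 ∣ n := by
      rcases h.1 with h1 | ⟨m, rfl, -⟩
      · omega
      · exact dvd_mul_right _ _
    exact h4.mul_left _
  · rcases hk with rfl | rfl
    · omega
    · omega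
  · have : 0 < k * n - T := by omega
    positivity
  · rw [mul_assoc]
    exact h5.mul_left 4
  · have e : ((k * n - T : ℕ) : ℤ) = k * n - T := by
      rw [Nat.cast_sub hT.le]
      push_cast
      rfl
    push_cast [e]
    ring

/-- **BIL4** -/
theorem t_BIL4 : S_BIL4 := by
  intro n h
  have hn3 := h.2.1
  have hn5 := h.2.2
  have key := sum_T (n1 := n) (n2 := n) (N := n) (by ring) (by
      rcases Int.even_or_odd (n : ℤ) with h1 | h1
      · exact dvd_sub h1.two_dvd (h1.two_dvd.mul_right _)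
      · exact (h1.sub_odd (h1.mul h1)).two_dvd) (fun _ => 1) (fun T => 5 ∣ T ∧ 3 ∣ n - T)
      (fun b => (15 : ℤ) ∣ b - 4 * n) (by
        intro T hT
        omega) (by omega)
  have e1 : 4 * ∑ T ∈ (range n).filter (fun T => 5 ∣ T ∧ 3 ∣ n - T),
      l5 n (2 * T - (n : ℕ)) (4 * (n - T) * T) =
      ∑ T ∈ (range n).filter (fun T => 5 ∣ T ∧ 3 ∣ n - T), 1 * (cpV n (2 * T - n) n : ℤ) := by
    rw [Finset.mul_sum]
    refine Finset.sum_congr rfl fun T hT => ?_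
    rw [Finset.mem_filter, Finset.mem_range] at hT
    have hT0 : 0 < T := by
      rcases Nat.eq_zero_or_pos T with h0 | h0
      · subst h0
        omega
      · exact h0
    have := l5_cpV (k := 1) h (Or.inl rfl) hT0 (by omega) (hT.2.1.mul_left _)
    simp only [one_mul, one_pow] at this
    rw [← this, one_mul]
  have e2 := flip_sum (n1 := (n : ℤ)) (n2 := (n : ℤ)) (4 * n) (fun _ => 1)
  have e3 : ∑ v ∈ V (n : ℤ), ∑ w ∈ V (n : ℤ), (2 * ((if (15 : ℤ) ∣ ip v w - 4 * n then (1 : ℤ) else 0) +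
      (if (15 : ℤ) ∣ ip v w + 4 * n then 1 else 0))) = ((V n).card : ℤ) ^ 2 - ce n ^ 2 := by
    have e4 : ∑ v ∈ V (n : ℤ), ∑ w ∈ V (n : ℤ), (2 * ((if (15 : ℤ) ∣ ip v w - 4 * n then (1 : ℤ) else 0) +
      (if (15 : ℤ) ∣ ip v w + 4 * n then 1 else 0))) =
      ∑ v ∈ V (n : ℤ), ∑ w ∈ V (n : ℤ), (1 - s15 (v 1 - v 2) * s15 (w 1 - w 2)) :=
      Finset.sum_congr rfl fun v hv => Finset.sum_congr rfl fun w hw => or1 h hv hw
    rw [e4]
    unfold ce
    rw [sq, sq, Finset.sum_mul_sum]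
    simp only [Finset.sum_sub_distrib, Finset.sum_const, nsmul_eq_mul, mul_one]
  have e5 : ∑ v ∈ V (n : ℤ), ∑ w ∈ V (n : ℤ), (2 * ((if (15 : ℤ) ∣ ip v w - 4 * n then (1 : ℤ) else 0) +
      (if (15 : ℤ) ∣ ip v w + 4 * n then 1 else 0))) =
      2 * (∑ v ∈ V (n : ℤ), ∑ w ∈ V (n : ℤ), (if (15 : ℤ) ∣ ip v w - 4 * n then (1 : ℤ) else 0) +
        ∑ v ∈ V (n : ℤ), ∑ w ∈ V (n : ℤ), (if (15 : ℤ) ∣ ip v w + 4 * n then (1 : ℤ) else 0)) := by
    simp only [Finset.mul_sum, ← Finset.sum_add_distrib]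
  rw [← e3, e5, ← e2, ← key]
  linarith

/-- **BIL42** -/
theorem t_BIL42 : S_BIL42 := by
  intro n h
  have hn3 := h.2.1
  have hn5 := h.2.2
  have key := sum_T (n1 := n) (n2 := 4 * n) (N := 2 * n) (by push_cast; ring) (by
      push_cast
      exact dvd_sub (Dvd.intro _ rfl) ⟨n * (2 * n), by ring⟩) (fun _ => 1)
      (fun T => 5 ∣ T ∧ 3 ∣ 2 * n - T)
      (fun b => (15 : ℤ) ∣ b - 8 * n) (by
        intro T hT
        push_cast
        omega) (by push_cast; omega)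
  have e1 : 4 * ∑ T ∈ (range (2 * n)).filter (fun T => 5 ∣ T ∧ 3 ∣ 2 * n - T),
      l5 n (2 * T - (2 * n : ℕ)) (4 * (2 * n - T) * T) =
      ∑ T ∈ (range (2 * n)).filter (fun T => 5 ∣ T ∧ 3 ∣ 2 * n - T),
        1 * (cpV n (2 * T - (2 * n : ℕ)) (4 * n : ℕ) : ℤ) := by
    rw [Finset.mul_sum]
    refine Finset.sum_congr rfl fun T hT => ?_
    rw [Finset.mem_filter, Finset.mem_range] at hT
    have hT0 : 0 < T := by
      rcases Nat.eq_zero_or_pos T with h0 | h0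
      · subst h0
        omega
      · exact h0
    have := l5_cpV (k := 2) h (Or.inr rfl) hT0 hT.1 (hT.2.1.mul_left _)
    have e : 2 ^ 2 * n = 4 * n := by norm_num
    rw [e] at this
    rw [← this, one_mul]
  have e2 := flip_sum (n1 := (n : ℤ)) (n2 := ((4 * n : ℕ) : ℤ)) (8 * n) (fun _ => 1)
  have e3 : ∑ v ∈ V (n : ℤ), ∑ w ∈ V ((4 * n : ℕ) : ℤ),
      (2 * ((if (15 : ℤ) ∣ ip v w - 8 * n then (1 : ℤ) else 0) +
      (if (15 : ℤ) ∣ ip v w + 8 * n then 1 else 0))) =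
      ((V (4 * n)).card : ℤ) * (V n).card - (if n % 15 = 1 then 1 else -1) * ce (4 * n) * ce n := by
    have e4 : ∑ v ∈ V (n : ℤ), ∑ w ∈ V ((4 * n : ℕ) : ℤ),
      (2 * ((if (15 : ℤ) ∣ ip v w - 8 * n then (1 : ℤ) else 0) +
      (if (15 : ℤ) ∣ ip v w + 8 * n then 1 else 0))) =
      ∑ v ∈ V (n : ℤ), ∑ w ∈ V ((4 * n : ℕ) : ℤ),
        (1 - (if n % 15 = 1 then 1 else -1) * (s15 (v 1 - v 2) * s15 (w 1 - w 2))) :=
      Finset.sum_congr rfl fun v hv => Finset.sum_congr rfl fun w hw => or2 h hv (by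
        push_cast at hw
        exact hw)
    rw [e4]
    unfold ce
    have e6 : (if n % 15 = 1 then (1 : ℤ) else -1) * (∑ v ∈ V (4 * n : ℤ), s15 (v 1 - v 2)) *
        (∑ v ∈ V (n : ℤ), s15 (v 1 - v 2)) = (if n % 15 = 1 then (1 : ℤ) else -1) *
        ((∑ v ∈ V (n : ℤ), s15 (v 1 - v 2)) * ∑ w ∈ V (4 * n : ℤ), s15 (w 1 - w 2)) := by ring
    rw [e6, Finset.sum_mul_sum]
    push_cast
    simp only [Finset.sum_sub_distrib, Finset.sum_const, nsmul_eq_mul, mul_one, Finset.mul_sum]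
    ring
  have e5 : ∑ v ∈ V (n : ℤ), ∑ w ∈ V ((4 * n : ℕ) : ℤ),
      (2 * ((if (15 : ℤ) ∣ ip v w - 8 * n then (1 : ℤ) else 0) +
      (if (15 : ℤ) ∣ ip v w + 8 * n then 1 else 0))) =
      2 * (∑ v ∈ V (n : ℤ), ∑ w ∈ V ((4 * n : ℕ) : ℤ), (if (15 : ℤ) ∣ ip v w - 8 * n then (1 : ℤ) else 0) +
        ∑ v ∈ V (n : ℤ), ∑ w ∈ V ((4 * n : ℕ) : ℤ), (if (15 : ℤ) ∣ ip v w + 8 * n then (1 : ℤ) else 0)) := by
    simp only [Finset.mul_sum, ← Finset.sum_add_distrib]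
  rw [← e3, e5, ← e2, ← key]
  linarith

end

end Pool.Agent.N816.PG15
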