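import Pool.Agent.N816.PG21.Bil4

/-!
# P15G: the bilinear identity BIL4G with the signs of `A`
-/

set_option autoImplicit false

namespace Pool.Agent.N816.PG15

open Finset
open Pool.Agent.N969.P15 (V3 Ev tw tb)
open Pool.Agent.N877.P21 (ip vec rr)
open Pool.Agent.N973.P15G
open Pool.Agent.N218.P21 (mem_vec cs)
open Pool.Agent.N969.P17G (sgnE sgn)
open Pool.Agent.N295.P15.E (eT eS eT_sq eS_sq pf_prime pf_dvd kq cq kq_sq)
open Pool.Agent.N833.P21 (L2 M2)
open Pool.Agent.N871.G21 (FF_of hl Fn_mul Fn_two Fn_odd M2_dt Fn_ne)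
open Pool.Agent.N871.G15 (Fs Fs_eq main_A main_2 nv_or eS_eq l5_val sg_eq Ps_Fd Ng_Fn Ps3_inert
  Ps5_split dl)
open Pool.Agent.N877.P21G (Fn dt)

noncomputable section

theorem eT_flip {n S l : ℕ} : eT n S l = kq n l * eS n S l := by
  unfold eT eS
  ring

/-- the signs of `S` and `T` agree -/
theorem sg_symm {A m : ℕ} (hA : A = 1 ∨ N969.RQ.Fd A) (hm : Fn m) (hcop : Nat.Coprime A m)
    (h3A : ¬ 3 ∣ A) (h5A : ¬ 5 ∣ A) {S T : ℕ} (hS : S ≠ 0) (hT : T ≠ 0)
    (hST : S + T = 1 * (A * m)) (hne : L2 (A * m) S T * Fs (A * m) S T ≠ 0) :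
    sgnE 1 A (A * m) S = sgnE 1 A (A * m) T := by
  obtain ⟨hF, hk⟩ := Fn_mul hA hm hcop
  have hFF := FF_of hF
  have hn0 : A * m ≠ 0 := hFF.n0
  have hsub : A.primeFactors ⊆ (A * m).primeFactors :=
    Nat.primeFactors_mono (Dvd.intro m rfl) hn0
  have hL2 : L2 (A * m) S T ≠ 0 := left_ne_zero_of_mul hne
  have hF' : ∀ l ∈ Pool.Agent.N871.G15.Q' (A * m) S T, Pool.Agent.N295.P15.Ff (A * m) S T l ≠ 0 := by
    rcases nv_or (A * m) S T with h | h
    · exact h.1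
    · exact absurd h.1 hne
  have hd2 : 2 ∈ (A * m).primeFactors → (2 ∣ S ↔ 2 ∣ T) := fun h2 =>
    Pool.Agent.N295.P15.dvd_iff' hST h2
  -- the signs agree
  have hsig : ∀ l ∈ (A * m).primeFactors, l ≠ 3 → l ≠ 5 → eS (A * m) S l = eT (A * m) T l := by
    intro l hl l3 l5
    by_cases h2 : l = 2
    · subst h2
      by_cases hT2 : 2 ∣ T
      · have h6 := hL2
        unfold L2 at h6
        rw [if_pos hl, if_pos hT2] at h6
        have c1 := eT_sq (n := A * m) Nat.prime_two hT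
        have c3 := eS_sq (n := A * m) Nat.prime_two hS
        rcases mul_self_eq_one_iff.1 c1 with h7 | h7 <;>
          rcases mul_self_eq_one_iff.1 c3 with h8 | h8 <;>
          rw [h7, h8] at h6 ⊢ <;> norm_num at h6
      · exact Pool.Agent.N833.P21.e2_eq ⟨Fn_two hF (pf_dvd hl)⟩ hST hT2
    · exact eS_eq hFF hS hT hST hF' (Finset.mem_erase.2 ⟨h2, hl⟩) l3 l5
  -- the exchanged data
  have hTS : T + S = 1 * (A * m) := by omega
  have eFs : Fs (A * m) T S = Fs (A * m) S T := by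
    rw [Fs_eq, Fs_eq, mul_comm T S]
  have eL2 : L2 (A * m) T S = L2 (A * m) S T := by
    unfold L2
    by_cases h2 : 2 ∈ (A * m).primeFactors
    · rw [if_pos h2, if_pos h2]
      have h3 := hd2 h2
      by_cases hT2 : 2 ∣ T
      · rw [if_pos (h3.2 hT2), if_pos hT2]
        have k := kq_sq (n := A * m) Nat.prime_two
        have e1 : eT (A * m) S 2 = kq (A * m) 2 * eS (A * m) S 2 := eT_flip
        have e2 : eT (A * m) T 2 = kq (A * m) 2 * eS (A * m) T 2 := eT_flip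
        rw [e1, e2]
        ring
      · rw [if_neg (fun h => hT2 (h3.1 h)), if_neg hT2]
    · rw [if_neg h2, if_neg h2]
      ring
  have m1 := main_A hA hm hcop (Or.inl rfl) hS hT hST (fun h => absurd h h3A) (fun h => absurd h h5A)
  have m2 := main_A hA hm hcop (Or.inl rfl) hT hS hTS (fun h => absurd h h3A) (fun h => absurd h h5A)
  rw [eFs, eL2] at m2
  have k1 := mul_right_cancel₀ hne m1
  have k2 := mul_right_cancel₀ hne m2
  rw [← k1, ← k2]
  have e : ∏ l ∈ A.primeFactors, eT (A * m) S l =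
      (∏ l ∈ A.primeFactors, kq (A * m) l) * ∏ l ∈ A.primeFactors, eT (A * m) T l := by
    rw [← Finset.prod_mul_distrib]
    refine Finset.prod_congr rfl fun l hl => ?_
    rw [eT_flip, hsig l (hsub hl)]
    · rintro rfl
      exact h3A (pf_dvd hl)
    · rintro rfl
      exact h5A (pf_dvd hl)
  rw [e, hk, one_mul]

theorem cpV_pos {n1 n2 : ℤ} {v w : V3} (hv : v ∈ V n1) (hw : w ∈ V n2) :
    0 < cpV n1 (ip v w) n2 := by
  unfold cpV
  rw [Finset.card_pos]
  exact ⟨(v, w), Finset.mem_filter.2 ⟨Finset.mem_product.2 ⟨hv, hw⟩, rfl⟩⟩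

/-- the signs at `T` and `n - T` agree if there is a pair of vectors -/
theorem sg_pair {n A : ℕ} (h : Nis n) (hA : A ∈ pA n) {v w : V3} (hv : v ∈ V n) (hw : w ∈ V n)
    (hr : (15 : ℤ) ∣ ip v w + 4 * n) :
    sg A n ((n + -ip v w) / 2) = sg A n ((n + ip v w) / 2) := by
  obtain ⟨hNg, hn3, hn5⟩ := id h
  simp only [pA, Finset.mem_filter] at hA
  obtain ⟨hdiv, hcop, hA1, hm⟩ := hA
  have hAn := Nat.dvd_of_mem_divisors hdiv
  obtain ⟨m, rfl⟩ := hAn
  have hn0 : A * m ≠ 0 := (Nat.mem_divisors.1 hdiv).2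
  have hA0 : 0 < A := Nat.pos_of_ne_zero (left_ne_zero_of_mul hn0)
  rw [Nat.mul_div_cancel_left _ hA0] at hcop hm
  have hA' : A = 1 ∨ N969.RQ.Fd A := by
    rcases hA1 with h1 | h1
    · exact Or.inl h1
    · exact Ps_Fd h1
  have hm' : Fn m := Ng_Fn hm
  obtain ⟨hF, -⟩ := Fn_mul hA' hm' hcop
  have hFF := FF_of hF
  have hcs := cs v w
  have hv' := (mem_V.1 hv).1
  have hw' := (mem_V.1 hw).1
  rw [hv', hw'] at hcs
  have hcs2 : ip v w ^ 2 ≤ ((A * m : ℕ) : ℤ) ^ 2 := by rw [sq ((A * m : ℕ) : ℤ)]; exact hcs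
  have habs := abs_le_of_sq_le_sq' hcs2 (by positivity)
  have hp := ip_par hv' hw'
  have hpar : (2 : ℤ) ∣ ((A * m : ℕ) : ℤ) + ip v w := by
    have h2 : (2 : ℤ) ∣ ((A * m : ℕ) : ℤ) * ((A * m : ℕ) : ℤ) + ((A * m : ℕ) : ℤ) := by
      rcases Int.even_or_odd ((A * m : ℕ) : ℤ) with h | h
      · exact dvd_add (h.two_dvd.mul_right _) h.two_dvd
      · exact ((h.mul h).add_odd h).two_dvd
    have := dvd_add hp h2
    have e : ip v w - ((A * m : ℕ) : ℤ) * ((A * m : ℕ) : ℤ) +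
      (((A * m : ℕ) : ℤ) * ((A * m : ℕ) : ℤ) + ((A * m : ℕ) : ℤ)) = ((A * m : ℕ) : ℤ) + ip v w := by
      ring
    rwa [e] at this
  have hne1 : ip v w ≠ ((A * m : ℕ) : ℤ) := by omega
  have hne2 : ip v w ≠ -((A * m : ℕ) : ℤ) := by omega
  obtain ⟨T, hT⟩ : ∃ T : ℕ, (T : ℤ) = (((A * m : ℕ) : ℤ) + ip v w) / 2 := by
    refine ⟨((((A * m : ℕ) : ℤ) + ip v w) / 2).toNat, ?_⟩
    rw [Int.toNat_of_nonneg]
    omega
  have hT0 : 0 < T := by omega
  have hTn : T < A * m := by omega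
  obtain ⟨S, hS⟩ : ∃ S : ℕ, S = A * m - T := ⟨_, rfl⟩
  have hST : S + T = 1 * (A * m) := by omega
  have hS0 : S ≠ 0 := by omega
  have e1 : (((A * m : ℕ) : ℤ) + -ip v w) / 2 = (S : ℤ) := by omega
  have e2 : (((A * m : ℕ) : ℤ) + ip v w) / 2 = (T : ℤ) := hT.symm
  have eb : ip v w = 2 * (T : ℤ) - ((1 * (A * m) : ℕ) : ℤ) := by
    rw [one_mul]
    omega
  have hT3 : 3 ∣ T := by omega
  have hS5 : 5 ∣ S := by omega
  have hT5 : ¬ 5 ∣ T := by omega
  have hS3 : ¬ 3 ∣ S := by omega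
  have h3A : ¬ 3 ∣ A := fun h => by have := h.mul_right m; omega
  have h5A : ¬ 5 ∣ A := fun h => by have := h.mul_right m; omega
  rw [e1, e2, sg_eq (Dvd.intro m rfl) hn0, sg_eq (Dvd.intro m rfl) hn0]
  refine sg_symm hA' hm' hcop h3A h5A hS0 (by omega) hST ?_
  -- the density does not vanish
  have hcp := l5_cpV (k := 1) h (Or.inl rfl) hT0 (by omega) (by
    rw [one_mul, ← hS]
    exact hS5.mul_right T)
  have hpos := cpV_pos hv hw
  rw [eb] at hpos
  simp only [one_pow, one_mul] at hcp hpos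
  rw [← hS] at hcp
  have hl5 : l5 (A * m) (2 * T - (A * m : ℕ)) (4 * S * T) ≠ 0 := by
    intro h0
    rw [h0, mul_zero] at hcp
    have : (0 : ℤ) < (cpV ((A * m : ℕ) : ℤ) (2 * (T : ℤ) - ((A * m : ℕ) : ℤ)) ((A * m : ℕ) : ℤ) : ℕ) := by
      exact_mod_cast hpos
    omega
  rw [l5_val hFF hS0 (by omega), ← M2_dt hF hS0 (by omega) hST] at hl5
  have ho : Odd (S.factorization 3 + T.factorization 3) := by
    by_contra h0
    rw [if_neg h0] at hl5
    exact hl5 rfl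
  rw [if_pos ho] at hl5
  have hM := right_ne_zero_of_mul hl5
  obtain ⟨n3, P3⟩ := Ps3_inert hFF hn3
  obtain ⟨n5, P5⟩ := Ps5_split hFF hn5
  have m2 := main_2 hF (Or.inl rfl) hS0 (by omega : T ≠ 0) hST
  rw [Nat.factorization_eq_zero_of_not_dvd hS3, zero_add] at ho
  have d1 : dl (A * m) T = -1 := by
    unfold dl
    rw [if_neg n3, if_neg n5]
    have P3' : Pool.Agent.N295.P15.E.Ps (A * m) 3 = -1 := P3
    have P5' : Pool.Agent.N295.P15.E.Ps (A * m) 5 = 1 := P5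
    rw [P3', P5', one_pow, mul_one, ho.neg_one_pow]
  have d2 : dl (A * m) S = 1 := by
    unfold dl
    rw [if_neg n3, if_neg n5]
    have P5' : Pool.Agent.N295.P15.E.Ps (A * m) 5 = 1 := P5
    rw [P5', one_pow, mul_one, Nat.factorization_eq_zero_of_not_dvd hS3, pow_zero]
  have d3 : hl (A * m) S T 3 = 1 := if_neg n3
  have d5 : hl (A * m) S T 5 = 1 := if_neg n5
  rw [d1, d2, d3, d5] at m2
  intro h0
  rw [h0] at m2
  apply hM
  linarith

/-- **BIL4G** -/
theorem t_BIL4G : S_BIL4G := by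
  intro n A h hA
  have hn3 := h.2.1
  have hn5 := h.2.2
  have key := sum_T (n1 := n) (n2 := n) (N := n) (by ring) (by
      rcases Int.even_or_odd (n : ℤ) with h1 | h1
      · exact dvd_sub h1.two_dvd (h1.two_dvd.mul_right _)
      · exact (h1.sub_odd (h1.mul h1)).two_dvd) (fun T => sg A n T) (fun T => 3 ∣ T ∧ 5 ∣ n - T)
      (fun b => (15 : ℤ) ∣ b + 4 * n) (by
        intro T hT
        omega) (by omega)
  have e1 : 4 * ∑ T ∈ (range n).filter (fun T => 3 ∣ T ∧ 5 ∣ n - T),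
      sg A n T * l5 n (2 * T - (n : ℕ)) (4 * (n - T) * T) =
      ∑ T ∈ (range n).filter (fun T => 3 ∣ T ∧ 5 ∣ n - T),
        sg A n T * (cpV n (2 * T - n) n : ℤ) := by
    rw [Finset.mul_sum]
    refine Finset.sum_congr rfl fun T hT => ?_
    rw [Finset.mem_filter, Finset.mem_range] at hT
    have hT0 : 0 < T := by
      rcases Nat.eq_zero_or_pos T with h0 | h0
      · subst h0
        omega
      · exact h0
    have := l5_cpV (k := 1) h (Or.inl rfl) hT0 (by omega) (by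
      rw [one_mul]
      exact hT.2.2.mul_right T)
    simp only [one_mul, one_pow] at this
    rw [this]
    ring
  have e2 := flip_sum (n1 := (n : ℤ)) (n2 := (n : ℤ)) (4 * n) (fun b => sg A n ((n + b) / 2))
  have e2' : ∑ v ∈ V (n : ℤ), ∑ w ∈ V (n : ℤ), (if (15 : ℤ) ∣ ip v w - 4 * n then
      sg A n ((n + ip v w) / 2) else 0) = ∑ v ∈ V (n : ℤ), ∑ w ∈ V (n : ℤ),
      (if (15 : ℤ) ∣ ip v w + 4 * n then sg A n ((n + ip v w) / 2) else 0) := by
    rw [e2]
    refine Finset.sum_congr rfl fun v hv => Finset.sum_congr rfl fun w hw => ?_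
    by_cases hr : (15 : ℤ) ∣ ip v w + 4 * n
    · rw [if_pos hr, if_pos hr, sg_pair h hA hv hw hr]
    · rw [if_neg hr, if_neg hr]
  have e3 : ∑ v ∈ V (n : ℤ), ∑ w ∈ V (n : ℤ), (2 * ((if (15 : ℤ) ∣ ip v w - 4 * n then
      sg A n ((n + ip v w) / 2) else 0) + (if (15 : ℤ) ∣ ip v w + 4 * n then
      sg A n ((n + ip v w) / 2) else 0))) = P A n - Q A n := by
    unfold P Q
    simp only [← Finset.sum_sub_distrib]
    refine Finset.sum_congr rfl fun v hv => Finset.sum_congr rfl fun w hw => ?_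
    have := or1 h hv hw
    have e4 : 2 * ((if (15 : ℤ) ∣ ip v w - 4 * n then
      sg A n ((n + ip v w) / 2) else 0) + (if (15 : ℤ) ∣ ip v w + 4 * n then
      sg A n ((n + ip v w) / 2) else 0)) = (2 * ((if (15 : ℤ) ∣ ip v w - 4 * n then (1 : ℤ) else 0) +
      (if (15 : ℤ) ∣ ip v w + 4 * n then 1 else 0))) * sg A n ((n + ip v w) / 2) := by
      split_ifs <;> ring
    rw [e4, this]
    ring
  have e5 : ∑ v ∈ V (n : ℤ), ∑ w ∈ V (n : ℤ), (2 * ((if (15 : ℤ) ∣ ip v w - 4 * n then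
      sg A n ((n + ip v w) / 2) else 0) + (if (15 : ℤ) ∣ ip v w + 4 * n then
      sg A n ((n + ip v w) / 2) else 0))) =
      2 * (∑ v ∈ V (n : ℤ), ∑ w ∈ V (n : ℤ), (if (15 : ℤ) ∣ ip v w - 4 * n then
      sg A n ((n + ip v w) / 2) else 0) +
        ∑ v ∈ V (n : ℤ), ∑ w ∈ V (n : ℤ), (if (15 : ℤ) ∣ ip v w + 4 * n then
      sg A n ((n + ip v w) / 2) else 0)) := by
    simp only [Finset.mul_sum, ← Finset.sum_add_distrib]
  rw [← e3, e5, e2', ← key, ← e1]
  ring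

end

end Pool.Agent.N816.PG15
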