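import Pool.Agent.N816.PG21.G1

/-!
# P21G: C1I and C1B (character sums of the odd symbols `OM`, `OB`)
-/

set_option autoImplicit false

namespace Pool.Agent.N816.PG21

open Finset
open Pool.Agent.N969.P15 (un psp psp2 Ev c2 chE)
open Pool.Agent.N969.P17G (psl psl2 gen gnE chM chP)
open Pool.Agent.N969.RQ (Fd)
open Pool.Agent.N973.P15.C (fo)
open Pool.Agent.N816.G1 (GG KL KR FF Om RU Cnd Fc)
open Pool.Agent.N971.PG (Ae c2_cg c2_An c2_odd)
open Pool.Agent.N877.P21G (Fn Ai WM WB Wd cM cB OM OB S_C1I S_C1B)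

noncomputable section

/-! ### the two-parts -/

theorem Fd_pos {A : ℕ} (h : Fd A) : 0 < A := by
  have := h.1
  omega

theorem Fd_even {A : ℕ} (h : Fd A) (h2 : 2 ∣ A) : Ae A := by
  rcases h.2 with h1 | ⟨M, rfl, -, h3⟩
  · omega
  · unfold Ae
    omega

theorem Fd_odd {A : ℕ} (h : Fd A) (h2 : ¬ 2 ∣ A) : A % 4 = 1 := by
  rcases h.2 with h1 | ⟨M, rfl, -, h3⟩
  · exact h1.2
  · omega

theorem Fd_cnd {A : ℕ} (h : Fd A) (h2 : 2 ∣ A) : Cnd (3 * A) A := fun _ _ _ h1 h3 =>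
  c2_cg (Fd_even h h2) h3 h1

theorem Fn_two {m : ℕ} (h : Fn m) (h2 : ¬ 2 ∣ m) : m % 4 = 3 := by
  rcases h with h1 | ⟨M, rfl, -, h3⟩
  · exact h1.2
  · omega

theorem Fn_ev {m : ℕ} (h : Fn m) (h2 : 2 ∣ m) : Ev m := by
  rcases h with h1 | h1
  · omega
  · exact h1

theorem psl2_congr {b b' : ℕ} (h : ∀ u : ℤ, c2 b u = c2 b' u) (a a' Y X : ℕ) :
    psl2 b a a' Y X = psl2 b' a a' Y X := by
  unfold psl2
  rw [h, h]

theorem psp2_congr {b b' : ℕ} (h : ∀ u : ℤ, c2 b u = c2 b' u) (a a' Y X : ℕ) :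
    psp2 b a a' Y X = psp2 b' a a' Y X := by
  unfold psp2
  rw [h, h]

theorem KL_eq {A m : ℕ} (hA : Fd A) (hm : Fn m) (hcop : Nat.Coprime A m) (a a' Y X : ℕ) :
    KL (A * m) A a a' Y X = KL (3 * A) A a a' Y X := by
  unfold KL
  refine Finset.prod_congr rfl fun p hp => ?_
  by_cases h2 : p = 2
  · rw [if_pos h2, if_pos h2]
    subst h2
    have h3 := Nat.dvd_of_mem_primeFactors hp
    have h4 : ¬ 2 ∣ m := by
      intro h4
      have h5 := Nat.dvd_gcd h3 h4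
      rw [hcop] at h5
      omega
    exact psl2_congr (fun u => c2_An (Fd_even hA h3) (Fn_two hm h4) u) _ _ _ _
  · rw [if_neg h2, if_neg h2]

theorem KR_eq {A m : ℕ} (hA : A = 1 ∨ Fd A) (hm : Fn m) (hcop : Nat.Coprime A m) (a a' Y X : ℕ) :
    KR (A * m) m a a' Y X = KR m m a a' Y X := by
  unfold KR
  refine Finset.prod_congr rfl fun p hp => ?_
  by_cases h2 : p = 2
  · rw [if_pos h2, if_pos h2]
    subst h2
    have h3 := Nat.dvd_of_mem_primeFactors hp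
    have h4 : ¬ 2 ∣ A := by
      intro h4
      have h5 := Nat.dvd_gcd h4 h3
      rw [hcop] at h5
      omega
    have h5 : A % 4 = 1 := by
      rcases hA with rfl | hA
      · rfl
      · exact Fd_odd hA h4
    exact psp2_congr (fun u => c2_odd h5 (Fn_ev hm h3) u) _ _ _ _
  · rw [if_neg h2, if_neg h2]

/-- the divisor sum as a sum over the data -/
theorem Wd_data {A m : ℕ} (hA : Fd A) (hm : Fn m) (hcop : Nat.Coprime A m) (f g : ℕ → Prop)
    [DecidablePred f] [DecidablePred g] :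
    ∑ T ∈ range (A * m), Wd f g A m (A * m - T) T =
      ∑ w ∈ Om (A * m), (if f w.2.1 ∧ g w.2.2 then 1 else 0) *
        KL (3 * A) A w.2.1 w.2.2 ((A * m - w.1) / w.2.1) (w.1 / w.2.2) *
        KR m m w.2.1 w.2.2 ((A * m - w.1) / w.2.1) (w.1 / w.2.2) := by
  unfold Om Wd
  rw [Finset.sum_sigma]
  refine Finset.sum_congr rfl fun T _ => ?_
  rw [Finset.sum_product, Finset.sum_filter]
  refine Finset.sum_congr rfl fun a _ => ?_
  simp only
  by_cases h1 : f a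
  · rw [if_pos h1, Finset.sum_filter]
    refine Finset.sum_congr rfl fun a' _ => ?_
    by_cases h2 : g a'
    · rw [if_pos h2, if_pos ⟨h1, h2⟩, one_mul, ← KL_eq hA hm hcop, ← KR_eq (Or.inr hA) hm hcop]
      rfl
    · rw [if_neg h2, if_neg (fun h => h2 h.2), zero_mul, zero_mul]
  · rw [if_neg h1]
    symm
    refine Finset.sum_eq_zero fun a' _ => ?_
    rw [if_neg (fun h => h1 h.1), zero_mul, zero_mul]

open Classical in
/-- **C1 for an antisymmetric weight** -/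
theorem c1_anti {A m : ℕ} (hA : Fd A) (hm : Fn m) (hcop : Nat.Coprime A m) (f g : ℕ → Prop)
    [DecidablePred f] [DecidablePred g] (W : ℤ × ℤ × ℤ → ℤ)
    (hW : ∀ (a a' : ℕ) (c c' : ℤ), (a : ℤ) * c' - a' * c = A → 0 < a → 0 < a' →
      W (fo ((a : ℤ), (a' : ℤ), c, c')) = (if f a ∧ g a' then 1 else 0) -
        (if f a' ∧ g a then 1 else 0)) :
    ∑ u ∈ un m, chM m u * (∑ᶠ q : ℤ × ℤ × ℤ, if q.2.1 ^ 2 - 4 * q.1 * q.2.2 = (A : ℤ) ^ 2 ∧
      0 < q.1 ∧ q.1 * (u : ℤ) ^ 2 + q.2.1 * u * m + q.2.2 * (m : ℤ) ^ 2 < 0 then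
        W q * gnE A q else 0) =
    2 * ∑ T ∈ range (A * m), Wd f g A m (A * m - T) T := by
  have hA0 := Fd_pos hA
  have hm1 := Pool.Agent.N816.G1.Fn_one_lt hm
  have key := Pool.Agent.N816.G1.main hA0 (by omega : 0 < m) hcop (b := 3 * A) (Fd_cnd hA) (chM m)
    (fun a a' => (if f a ∧ g a' then 1 else 0) - (if f a' ∧ g a then 1 else 0)) W hW
  have key2 := Pool.Agent.N816.G1.sum_anti (b := 3 * A) (D := A) hm1
    (fun u => Pool.Agent.N816.G1.chM_refl hm u) (fun a a' => if f a ∧ g a' then (1 : ℤ) else 0)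
  rw [Wd_data hA hm hcop f g]
  refine key.trans (key2.trans ?_)
  congr 1
  refine Finset.sum_congr rfl fun w hw => ?_
  rw [Pool.Agent.N816.G1.RU_eq hm hcop hw]

/-! ### the orientations -/

/-- the factor divisible by the prime `p` -/
theorem ori {A : ℕ} {p : ℕ} (hp : p.Prime) (hp2 : p ≠ 2) (hpA : ¬ p ∣ A) {a a' : ℕ} {c c' : ℤ}
    (hd : (a : ℤ) * c' - a' * c = A) :
    ¬ (p ∣ a ∧ p ∣ a') ∧ ((p : ℤ) ∣ (a : ℤ) * a' ↔ (p ∣ a ∨ p ∣ a')) ∧
    (p ∣ a' → (p : ℤ) ∣ (a : ℤ) * c' + a' * c - A) ∧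
    (p ∣ a → (p : ℤ) ∣ (a : ℤ) * c' + a' * c + A) ∧
    (p ∣ a → ¬ (p : ℤ) ∣ (a : ℤ) * c' + a' * c - A) ∧
    (p ∣ a' → ¬ (p : ℤ) ∣ (a : ℤ) * c' + a' * c + A) := by
  have hpP : Prime (p : ℤ) := Nat.prime_iff_prime_int.1 hp
  have h2 : ¬ (p : ℤ) ∣ 2 := by
    intro h
    have h1 : p ∣ 2 := by exact_mod_cast h
    exact hp2 ((Nat.prime_dvd_prime_iff_eq hp Nat.prime_two).1 h1)
  have hpA' : ¬ (p : ℤ) ∣ (A : ℤ) := by
    intro h
    exact hpA (by exact_mod_cast h)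
  have e1 : (a : ℤ) * c' + a' * c - A = a' * (2 * c) := by rw [← hd]; ring
  have e2 : (a : ℤ) * c' + a' * c + A = a * (2 * c') := by rw [← hd]; ring
  rw [e1, e2]
  have ca : ∀ {x : ℕ}, (p ∣ x) → (p : ℤ) ∣ (x : ℤ) := fun h => by exact_mod_cast h
  refine ⟨?_, ?_, fun h => (ca h).mul_right _, fun h => (ca h).mul_right _, ?_, ?_⟩
  · rintro ⟨h3, h4⟩
    apply hpA'
    rw [← hd]
    exact dvd_sub ((ca h3).mul_right _) ((ca h4).mul_right _)
  · constructor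
    · intro h
      rcases hpP.dvd_or_dvd h with h | h
      · exact Or.inl (by exact_mod_cast h)
      · exact Or.inr (by exact_mod_cast h)
    · rintro (h | h)
      · exact (ca h).mul_right _
      · exact (ca h).mul_left _
  · intro h3 h
    have h4 : (p : ℤ) ∣ (a' : ℤ) * c := by
      rcases hpP.dvd_or_dvd h with h | h
      · exact h.mul_right _
      · exact ((hpP.dvd_or_dvd h).resolve_left h2).mul_left _
    apply hpA'
    rw [← hd]
    exact dvd_sub ((ca h3).mul_right _) h4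
  · intro h3 h
    have h4 : (p : ℤ) ∣ (a : ℤ) * c' := by
      rcases hpP.dvd_or_dvd h with h | h
      · exact h.mul_right _
      · exact ((hpP.dvd_or_dvd h).resolve_left h2).mul_left _
    apply hpA'
    rw [← hd]
    exact dvd_sub h4 ((ca h3).mul_right _)

theorem dvd21 (x : ℤ) : (21 : ℤ) ∣ x ↔ (3 : ℤ) ∣ x ∧ (7 : ℤ) ∣ x := by omega

/-- **C1I** -/
theorem t_C1I : S_C1I := by
  classical
  intro A m _ hA hm hcop h21
  have h3 : ¬ 3 ∣ A := by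
    intro h
    have h1 : 3 ∣ Nat.gcd (A * m) 21 := Nat.dvd_gcd (h.mul_right _) (by norm_num)
    rw [h21] at h1
    omega
  have h7 : ¬ 7 ∣ A := by
    intro h
    have h1 : 7 ∣ Nat.gcd (A * m) 21 := Nat.dvd_gcd (h.mul_right _) (by norm_num)
    rw [h21] at h1
    omega
  have key := c1_anti hA hm hcop (7 ∣ ·) (3 ∣ ·) (fun q => if (21 : ℤ) ∣ q.1 ∧
    (((3 : ℤ) ∣ q.2.1 - A ∧ (7 : ℤ) ∣ q.2.1 + A) ∨ ((3 : ℤ) ∣ q.2.1 + A ∧ (7 : ℤ) ∣ q.2.1 - A)) then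
      (if (3 : ℤ) ∣ q.2.1 - A then 1 else -1) else 0) (by
    intro a a' c c' hd _ _
    obtain ⟨p1, p2, p3, p4, p5, p6⟩ := ori Nat.prime_three (by norm_num) h3 hd
    obtain ⟨q1, q2, q3, q4, q5, q6⟩ := ori (by norm_num : Nat.Prime 7) (by norm_num) h7 hd
    push_cast at p1 p2 p3 p4 p5 p6 q1 q2 q3 q4 q5 q6
    simp only [fo, dvd21, p2, q2]
    by_cases r1 : 3 ∣ a
    · have s1 : ¬ 3 ∣ a' := fun h => p1 ⟨r1, h⟩
      by_cases r2 : 7 ∣ a
      · have s2 : ¬ 7 ∣ a' := fun h => q1 ⟨r2, h⟩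
        have t1 := p5 r1
        have t2 := q5 r2
        simp [r1, r2, s1, s2, t1, t2]
      · by_cases s2 : 7 ∣ a'
        · have t1 := p5 r1
          have t2 := q3 s2
          have t3 := p4 r1
          simp [r1, r2, s1, s2, t1, t2, t3]
        · simp [r1, r2, s1, s2]
    · by_cases s1 : 3 ∣ a'
      · by_cases r2 : 7 ∣ a
        · have s2 : ¬ 7 ∣ a' := fun h => q1 ⟨r2, h⟩
          have t1 := p3 s1
          have t2 := q4 r2
          simp [r1, r2, s1, s2, t1, t2]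
        · by_cases s2 : 7 ∣ a'
          · have t1 := p6 s1
            have t2 := q6 s2
            simp [r1, r2, s1, s2, t1, t2]
          · simp [r1, r2, s1, s2]
      · simp [r1, s1])
  unfold WM
  rw [← key]
  refine Finset.sum_congr rfl fun u _ => ?_
  congr 1
  unfold OM cM
  refine finsum_congr fun q => ?_
  by_cases hq : q.2.1 ^ 2 - 4 * q.1 * q.2.2 = (A : ℤ) ^ 2
  · by_cases hq2 : 0 < q.1 ∧ q.1 * (u : ℤ) ^ 2 + q.2.1 * u * m + q.2.2 * (m : ℤ) ^ 2 < 0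
    · rw [if_pos (⟨hq, hq2⟩ : _ ∧ _ ∧ _)]
      by_cases hq3 : (21 : ℤ) ∣ q.1 ∧ (((3 : ℤ) ∣ q.2.1 - A ∧ (7 : ℤ) ∣ q.2.1 + A) ∨
          ((3 : ℤ) ∣ q.2.1 + A ∧ (7 : ℤ) ∣ q.2.1 - A))
      · rw [if_pos ⟨⟨hq, hq3⟩, hq2⟩, if_pos hq3]
      · rw [if_neg (fun h => hq3 h.1.2), if_neg hq3, zero_mul]
    · rw [if_neg (fun h => hq2 h.2), if_neg (fun h => hq2 h.2)]
  · rw [if_neg (fun h => hq h.1.1), if_neg (fun h => hq h.1)]

/-- **C1B** -/
theorem t_C1B : S_C1B := by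
  classical
  intro A m hAi hm h3m hcop
  obtain ⟨hA, hA3, hA7⟩ := hAi
  have h3 : ¬ 3 ∣ A := by omega
  have h7 : ¬ 7 ∣ A := by
    intro h
    have h3 : jacobiSym A 7 = 0 := by
      rw [jacobiSym.eq_zero_iff_not_coprime, Int.gcd_natCast_natCast]
      intro h4
      have h5 := Nat.dvd_gcd h (dvd_refl 7)
      rw [h4] at h5
      norm_num at h5
    rw [h3] at hA7
    norm_num at hA7
  have key := c1_anti hA hm hcop (¬ 3 ∣ ·) (fun a => 7 ∣ a ∧ ¬ 3 ∣ a) (fun q => if (7 : ℤ) ∣ q.1 ∧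
    ¬ (3 : ℤ) ∣ q.1 then (if (7 : ℤ) ∣ q.2.1 - A then 1 else -1) else 0) (by
    intro a a' c c' hd _ _
    obtain ⟨p1, p2, p3, p4, p5, p6⟩ := ori Nat.prime_three (by norm_num) h3 hd
    obtain ⟨q1, q2, q3, q4, q5, q6⟩ := ori (by norm_num : Nat.Prime 7) (by norm_num) h7 hd
    push_cast at p1 p2 p3 p4 p5 p6 q1 q2 q3 q4 q5 q6
    simp only [fo, p2, q2]
    by_cases r1 : 3 ∣ a
    · simp [r1]
    · by_cases s1 : 3 ∣ a'
      · simp [s1]
      · by_cases r2 : 7 ∣ a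
        · have s2 : ¬ 7 ∣ a' := fun h => q1 ⟨r2, h⟩
          have t2 := q5 r2
          simp [r1, r2, s1, s2, t2]
        · by_cases s2 : 7 ∣ a'
          · have t2 := q3 s2
            simp [r1, r2, s1, s2, t2]
          · simp [r2, s2])
  unfold WB
  rw [← key]
  refine Finset.sum_congr rfl fun u _ => ?_
  congr 1
  unfold OB cB
  refine finsum_congr fun q => ?_
  by_cases hq : q.2.1 ^ 2 - 4 * q.1 * q.2.2 = (A : ℤ) ^ 2
  · by_cases hq2 : 0 < q.1 ∧ q.1 * (u : ℤ) ^ 2 + q.2.1 * u * m + q.2.2 * (m : ℤ) ^ 2 < 0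
    · rw [if_pos (⟨hq, hq2⟩ : _ ∧ _ ∧ _)]
      by_cases hq3 : (7 : ℤ) ∣ q.1 ∧ ¬ (3 : ℤ) ∣ q.1
      · rw [if_pos ⟨⟨hq, hq3⟩, hq2⟩, if_pos hq3]
      · rw [if_neg (fun h => hq3 h.1.2), if_neg hq3, zero_mul]
    · rw [if_neg (fun h => hq2 h.2), if_neg (fun h => hq2 h.2)]
  · rw [if_neg (fun h => hq h.1.1), if_neg (fun h => hq h.1)]

end

end Pool.Agent.N816.PG21
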