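import Pool.Agent.N816.PG21.C1
import Pool.Agent.N973.P15G.Defs2

/-!
# P15G: C1M and C1L4 (character sums of the odd symbols of level 15 and of level 3)
-/

set_option autoImplicit false

namespace Pool.Agent.N816.PG15

open Finset
open Pool.Agent.N969.P15 (un psp psp2 Ev c2 chE)
open Pool.Agent.N969.P17G (psl psl2 gen gnE chM chP)
open Pool.Agent.N969.RQ (Fd)
open Pool.Agent.N973.P15.C (fo)
open Pool.Agent.N816.G1 (GG KL KR FF Om RU Cnd Fc)
open Pool.Agent.N816.PG21 (Fd_pos Fd_cnd KL_eq KR_eq ori)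
open Pool.Agent.N877.P21G (Fn)
open Pool.Agent.N973.P15G

noncomputable section

theorem Ps_Fd {A : ℕ} (h : Ps A) : Fd A := by
  rcases h with ⟨h1, h2, h3⟩ | ⟨M, rfl, h2, h3⟩
  · exact ⟨h3, Or.inl ⟨h1, h2⟩⟩
  · refine ⟨?_, Or.inr ⟨M, rfl, h2, h3⟩⟩
    omega

theorem Ng_Fn {m : ℕ} (h : Ng m) : Fn m := h

/-- the divisor sum as a sum over the data -/
theorem kr_data {A m : ℕ} (hA : Fd A) (hm : Fn m) (hcop : Nat.Coprime A m) (F : ℕ → ℕ → Prop)
    [∀ a a', Decidable (F a a')] :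
    ∑ T ∈ range (A * m), ∑ a ∈ (A * m - T).divisors, ∑ a' ∈ T.divisors,
      (if F a a' then kr A m a a' ((A * m - T) / a) (T / a') else 0) =
      ∑ w ∈ Om (A * m), (if F w.2.1 w.2.2 then 1 else 0) *
        KL (3 * A) A w.2.1 w.2.2 ((A * m - w.1) / w.2.1) (w.1 / w.2.2) *
        KR m m w.2.1 w.2.2 ((A * m - w.1) / w.2.1) (w.1 / w.2.2) := by
  unfold Om
  rw [Finset.sum_sigma]
  refine Finset.sum_congr rfl fun T _ => ?_
  rw [Finset.sum_product]
  refine Finset.sum_congr rfl fun a _ => Finset.sum_congr rfl fun a' _ => ?_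
  simp only
  by_cases h1 : F a a'
  · rw [if_pos h1, if_pos h1, one_mul, ← KL_eq hA hm hcop, ← KR_eq (Or.inr hA) hm hcop]
    rfl
  · rw [if_neg h1, if_neg h1, zero_mul, zero_mul]

open Classical in
/-- **C1 for an antisymmetric weight** -/
theorem c1_anti {A m : ℕ} (hA : Fd A) (hm : Fn m) (hcop : Nat.Coprime A m) (F : ℕ → ℕ → Prop)
    [∀ a a', Decidable (F a a')] (W : ℕ → ℤ × ℤ × ℤ → ℤ)
    (hW : ∀ (a a' : ℕ) (c c' : ℤ), (a : ℤ) * c' - a' * c = A → 0 < a → 0 < a' →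
      W A (fo ((a : ℤ), (a' : ℤ), c, c')) = (if F a a' then 1 else 0) -
        (if F a' a then 1 else 0)) :
    ∑ u ∈ un m, chM m u * Fx W A u m =
    2 * ∑ T ∈ range (A * m), ∑ a ∈ (A * m - T).divisors, ∑ a' ∈ T.divisors,
      (if F a a' then kr A m a a' ((A * m - T) / a) (T / a') else 0) := by
  have hA0 := Fd_pos hA
  have hm1 := Pool.Agent.N816.G1.Fn_one_lt hm
  have key := Pool.Agent.N816.G1.main hA0 (by omega : 0 < m) hcop (b := 3 * A) (Fd_cnd hA) (chM m)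
    (fun a a' => (if F a a' then 1 else 0) - (if F a' a then 1 else 0)) (W A) hW
  have key2 := Pool.Agent.N816.G1.sum_anti (b := 3 * A) (D := A) hm1
    (fun u => Pool.Agent.N816.G1.chM_refl hm u) (fun a a' => if F a a' then (1 : ℤ) else 0)
  rw [kr_data hA hm hcop F]
  refine Eq.trans ?_ (key.trans (key2.trans ?_))
  · refine Finset.sum_congr rfl fun u _ => ?_
    congr 1
  · congr 1
    refine Finset.sum_congr rfl fun w hw => ?_
    rw [Pool.Agent.N816.G1.RU_eq hm hcop hw]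

theorem dvd15 (x : ℤ) : (15 : ℤ) ∣ x ↔ (3 : ℤ) ∣ x ∧ (5 : ℤ) ∣ x := by omega

/-- the weight of mixed orientation -/
theorem w2_fo {A : ℕ} (h3 : ¬ 3 ∣ A) (h5 : ¬ 5 ∣ A) {a a' : ℕ} {c c' : ℤ}
    (hd : (a : ℤ) * c' - a' * c = A) : w2 A (fo ((a : ℤ), (a' : ℤ), c, c')) =
      (if 5 ∣ a ∧ 3 ∣ a' then 1 else 0) - (if 5 ∣ a' ∧ 3 ∣ a then 1 else 0) := by
  obtain ⟨p1, p2, p3, p4, p5, p6⟩ := ori Nat.prime_three (by norm_num) h3 hd
  obtain ⟨q1, q2, q3, q4, q5, q6⟩ := ori Nat.prime_five (by norm_num) h5 hd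
  push_cast at p1 p2 p3 p4 p5 p6 q1 q2 q3 q4 q5 q6
  unfold w2 w3
  simp only [fo, dvd15, p2, q2]
  by_cases r1 : 3 ∣ a
  · have s1 : ¬ 3 ∣ a' := fun h => p1 ⟨r1, h⟩
    have t1 := p5 r1
    have t3 := p4 r1
    by_cases r2 : 5 ∣ a
    · have s2 : ¬ 5 ∣ a' := fun h => q1 ⟨r2, h⟩
      have t2 := q5 r2
      have t4 := q4 r2
      simp [r1, r2, s1, s2, t1, t2, t3, t4]
    · by_cases s2 : 5 ∣ a'
      · have t2 := q3 s2
        have t4 := q6 s2
        simp [r1, r2, s1, s2, t1, t2, t3, t4]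
      · simp [r1, r2, s1, s2]
  · by_cases s1 : 3 ∣ a'
    · have t1 := p3 s1
      have t3 := p6 s1
      by_cases r2 : 5 ∣ a
      · have s2 : ¬ 5 ∣ a' := fun h => q1 ⟨r2, h⟩
        have t2 := q5 r2
        have t4 := q4 r2
        simp [r1, r2, s1, s2, t1, t2, t3, t4]
      · by_cases s2 : 5 ∣ a'
        · have t2 := q3 s2
          have t4 := q6 s2
          simp [r1, r2, s1, s2, t1, t2, t3, t4]
        · simp [r1, r2, s1, s2]
    · simp [r1, s1]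

/-- the weight of level `3` -/
theorem w3_fo {A : ℕ} (h3 : ¬ 3 ∣ A) {a a' : ℕ} {c c' : ℤ}
    (hd : (a : ℤ) * c' - a' * c = A) : w3 A (fo ((a : ℤ), (a' : ℤ), c, c')) =
      (if 3 ∣ a' then 1 else 0) - (if 3 ∣ a then 1 else 0) := by
  obtain ⟨p1, p2, p3, p4, p5, p6⟩ := ori Nat.prime_three (by norm_num) h3 hd
  push_cast at p1 p2 p3 p4 p5 p6
  unfold w3
  simp only [fo, p2]
  by_cases r1 : 3 ∣ a
  · have s1 : ¬ 3 ∣ a' := fun h => p1 ⟨r1, h⟩
    have t1 := p5 r1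
    simp [r1, s1, t1]
  · by_cases s1 : 3 ∣ a'
    · have t1 := p3 s1
      simp [r1, s1, t1]
    · simp [r1, s1]

/-- the terms with `p ∣ a`, `a ∣ S` -/
theorem nd_of {p a S : ℕ} (h : a ∣ S) (hS : ¬ p ∣ S) : ¬ p ∣ a := fun h1 => hS (h1.trans h)

/-- **C1M** -/
theorem t_C1M : S_C1M := by
  classical
  intro A m hA hm hcop h15
  have h3 : ¬ 3 ∣ A := by
    intro h
    have h1 : 3 ∣ Nat.gcd (A * m) 15 := Nat.dvd_gcd (h.mul_right _) (by norm_num)
    rw [h15] at h1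
    omega
  have h5 : ¬ 5 ∣ A := by
    intro h
    have h1 : 5 ∣ Nat.gcd (A * m) 15 := Nat.dvd_gcd (h.mul_right _) (by norm_num)
    rw [h15] at h1
    omega
  rw [c1_anti (Ps_Fd hA) (Ng_Fn hm) hcop (fun a a' => 5 ∣ a ∧ 3 ∣ a') w2
    (fun a a' c c' hd _ _ => w2_fo h3 h5 hd), Finset.sum_filter]
  congr 1
  refine Finset.sum_congr rfl fun T _ => ?_
  unfold W2
  by_cases hT : 3 ∣ T ∧ 5 ∣ A * m - T
  · rw [if_pos hT, Finset.sum_filter]
    refine Finset.sum_congr rfl fun a _ => ?_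
    by_cases h1 : 5 ∣ a
    · rw [if_pos h1, Finset.sum_filter]
      refine Finset.sum_congr rfl fun a' _ => ?_
      simp only [h1, true_and]
    · rw [if_neg h1]
      exact Finset.sum_eq_zero fun a' _ => if_neg (fun h => h1 h.1)
  · rw [if_neg hT]
    refine Finset.sum_eq_zero fun a ha => Finset.sum_eq_zero fun a' ha' => if_neg ?_
    rintro ⟨h1, h2⟩
    exact hT ⟨h2.trans (Nat.dvd_of_mem_divisors ha'), h1.trans (Nat.dvd_of_mem_divisors ha)⟩

/-- the character sum for the level `3` -/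
theorem c1_w3 {A m : ℕ} (hA : Ps A) (hm : Ng m) (hcop : Nat.Coprime A m) (h3 : ¬ 3 ∣ A) :
    ∑ u ∈ un m, chM m u * Fx w3 A u m =
      2 * ∑ T ∈ (range (A * m)).filter (fun T => 3 ∣ T), W3 A m (A * m - T) T := by
  classical
  rw [c1_anti (Ps_Fd hA) (Ng_Fn hm) hcop (fun _ a' => 3 ∣ a') w3
    (fun a a' c c' hd _ _ => w3_fo h3 hd), Finset.sum_filter]
  congr 1
  refine Finset.sum_congr rfl fun T _ => ?_
  unfold W3
  by_cases hT : 3 ∣ T
  · rw [if_pos hT]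
    refine Finset.sum_congr rfl fun a _ => ?_
    rw [Finset.sum_filter]
  · rw [if_neg hT]
    refine Finset.sum_eq_zero fun a ha => Finset.sum_eq_zero fun a' ha' => if_neg ?_
    intro h2
    exact hT (h2.trans (Nat.dvd_of_mem_divisors ha'))

/-- **C1L4** -/
theorem t_C1L4 : S_C1L4 := by
  intro A m hA hm hcop h3
  refine c1_w3 hA hm hcop fun h => ?_
  have h1 : 3 ∣ Nat.gcd (A * m) 3 := Nat.dvd_gcd (h.mul_right _) (by norm_num)
  rw [h3] at h1
  omega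

end

end Pool.Agent.N816.PG15
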