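import Pool.Agent.N971.P15G.Cnf
import Pool.Agent.N970.RQ.PC7
import Pool.Agent.N970.P21G.PC

/-!
# The class number formula for the lattice ramified at `7` (`7` inert)

Adapted from `N971.P15G.Cnf`.
-/

set_option autoImplicit false

namespace Pool.Agent.N816.Cn7

open Finset
open Pool.Agent.Z700 (hh fac)
open Pool.Agent.N969.P15 (V3 tw tb ep2 Ev un chE c2)
open Pool.Agent.N969.P17G (chP chM bdE)
open Pool.Agent.N969.RQ (ip7 vec7 c7 lcp)
open Pool.Agent.N609.CNF (Gc locq locqE final finalE cp_zero total totalE cpE ev_ne)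
open Pool.Agent.N809.PG (HS CG ShP ShM)
open Pool.Agent.N973.P15G (Ps Ng)
open Pool.Agent.N971.P15G (bd_CG CG_odd CG_even prod_odd prod_even)
open Pool.Agent.N877.P21G (L7 I7 Fn)

/-- the lattice -/
def gl : Gc := ⟨7, 4, 8, 0, 0, -2⟩

lemma doml : gl.Dom := by unfold Gc.Dom gl; norm_num

lemma ip_eq (v w : V3) : ip7 v w = Pool.Agent.N609.CNF.ip gl v w := by
  simp only [ip7, Pool.Agent.N609.CNF.ip, gl]; ring

lemma vec_eq (n : ℤ) : vec7 n = Pool.Agent.N609.CNF.vec gl n := by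
  ext v
  simp only [vec7, Pool.Agent.N609.CNF.vec, mem_filter, ip_eq]

lemma cp_eq (n b m : ℤ) : c7 n b m = Pool.Agent.N609.CNF.cp gl n b m := by
  simp only [c7, Pool.Agent.N609.CNF.cp, vec_eq, ip_eq]

lemma tot (n : ℕ) (hn : 0 < n) : ∃ κ K' : ℝ, ∀ t : ℝ, 0 < t → t ≤ 1 →
    ∃ s : ℝ, HasSum (fun k : ℕ => ((c7 n 0 k : ℤ) : ℝ) * Real.exp (-(t * k))) s ∧
      |s - κ / t| ≤ K' * t := by
  obtain ⟨κ1, K1, h1⟩ := total doml n hn
  refine ⟨κ1, K1, fun t ht ht1 => ?_⟩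
  obtain ⟨s1, hs1, hb1⟩ := h1 t ht ht1
  refine ⟨s1, ?_, hb1⟩
  refine hs1.congr_fun fun k => ?_
  rw [cp_eq]
  push_cast
  ring

lemma c_zero (n : ℕ) : (c7 n 0 (0 : ℕ) : ℤ) = (vec7 n).card := by
  have c1 := cp_zero doml n
  simp only [Nat.cast_zero, cp_eq, c1, vec_eq]

/-- the sublattice of the vectors with norm divisible by `4` -/
def El : Submodule ℤ V3 where
  carrier := {w | (2 : ℤ) ∣ w 0}
  add_mem' := by
    intro a b ha hb
    have := dvd_add ha hb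
    simp only [Set.mem_ofPred_eq, Pi.add_apply]
    exact this
  zero_mem' := by simp
  smul_mem' := by
    intro c a ha
    simp only [Set.mem_ofPred_eq, Pi.smul_apply, smul_eq_mul] at ha ⊢
    exact ha.mul_left c

lemma mem_El (w : V3) : w ∈ El ↔ (2 : ℤ) ∣ w 0 := Iff.rfl

lemma two_El (w : V3) : (2 : ℤ) • w ∈ El := by
  rw [mem_El]
  simp only [Pi.smul_apply, smul_eq_mul]
  exact ⟨w 0, by ring⟩

lemma four_El {w : V3} {k : ℤ} (h : Pool.Agent.N609.CNF.ip gl w w = k) : w ∈ El ↔ (4 : ℤ) ∣ k := by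
  rw [mem_El, Pool.Agent.N609.P17.four_sq (k := k) (x := w 0)
    (z := 2 * w 0 ^ 2 + w 1 ^ 2 + 2 * w 2 ^ 2 + w 1 * w 2)]
  rw [← h]
  simp only [Pool.Agent.N609.CNF.ip, gl]
  ring

lemma totE (n : ℕ) (hn : 0 < n) : ∃ κ K' : ℝ, ∀ t : ℝ, 0 < t → t ≤ 1 →
    ∃ s : ℝ, HasSum (fun k : ℕ =>
      ((if 4 ∣ k then (c7 n 0 k : ℤ) else 0 : ℤ) : ℝ) * Real.exp (-(t * k))) s ∧
      |s - κ / t| ≤ K' * t := by
  obtain ⟨κ1, K1, h1⟩ := totalE doml two_El n hn
  refine ⟨κ1, K1, fun t ht ht1 => ?_⟩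
  obtain ⟨s1, hs1, hb1⟩ := h1 t ht ht1
  refine ⟨s1, ?_, hb1⟩
  refine hs1.congr_fun fun k => ?_
  rw [Pool.Agent.N609.P17.cpE_ite (fun w k h => four_El h), cp_eq]
  split_ifs <;> push_cast <;> ring

/-! ### the class number formula for the number of vectors -/

lemma jac_inert {n : ℕ} (h7 : I7 n) : jacobiSym (-(n : ℤ)) 7 = -1 := by
  rw [jacobiSym.mod_left]
  unfold I7 at h7
  have : (-(n : ℤ)) % ((7 : ℕ) : ℤ) = 6 ∨ (-(n : ℤ)) % ((7 : ℕ) : ℤ) = 5 ∨
      (-(n : ℤ)) % ((7 : ℕ) : ℤ) = 3 := by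
    push_cast
    omega
  rcases this with h | h | h <;> rw [h] <;> decide +kernel

/-- odd, `7` inert -/
theorem cn_odd {n : ℕ} (hn : Squarefree n) (h4 : n % 4 = 3) (h7 : I7 n) :
    4 * HS n = (2 - ep2 n) * (vec7 n).card := by
  have hn0 : 0 < n := by omega
  have h7' : ¬ 7 ∣ n := by unfold I7 at h7; omega
  have hj : jacobiSym ((7 : ℕ) : ℤ) n = -1 := by
    rw [jacobiSym.quadratic_reciprocity_three_mod_four (by norm_num) h4]
    have : jacobiSym (n : ℤ) 7 = 1 := by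
      rw [jacobiSym.mod_left]
      unfold I7 at h7
      have : (n : ℤ) % ((7 : ℕ) : ℤ) = 1 ∨ (n : ℤ) % ((7 : ℕ) : ℤ) = 2 ∨
          (n : ℤ) % ((7 : ℕ) : ℤ) = 4 := by
        push_cast
        omega
      rcases this with h | h | h <;> rw [h] <;> decide +kernel
    rw [this]
  have key := final (q := 7) (n := n) 4 (by norm_num) (by norm_num) hn h4 hj
    (fun k : ℕ => ((c7 n 0 k : ℤ) : ℝ)) (vec7 n).card ?_ ?_ (tot n hn0)
  · unfold ep2 HS
    exact_mod_cast key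
  · simp only [c_zero]
  · intro k hk
    have h := Pool.Agent.N970.RQ.t_PC7 n k 0 (n * k) hn h4 h7'
      (Nat.mul_pos hn0 (Nat.pos_of_ne_zero hk)) (by push_cast; ring) (jac_inert h7)
    simp only [h]
    push_cast
    rfl

/-- even, `7` inert -/
theorem cn_even {n : ℕ} (hn : Ev n) (h7 : I7 n) :
    2 * ∑ u ∈ (range n).filter (fun u => 2 * u < n), chE n u = (vec7 n).card := by
  have hn0 : 0 < n := Nat.pos_of_ne_zero (ev_ne hn)
  have hn2 : 2 ∣ n := by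
    obtain ⟨M, rfl, -, -⟩ := hn
    exact ⟨2 * M, by ring⟩
  have key := finalE (q := 7) (n := n) 4 (by norm_num) (by norm_num) hn (jac_inert h7)
    (by unfold I7 at h7; omega)
    (fun k : ℕ => ((if 4 ∣ k then (c7 n 0 k : ℤ) else 0 : ℤ) : ℝ)) (vec7 n).card ?_ ?_ ?_ (totE n hn0)
  · have h2 : (4 : ℤ) * ∑ u ∈ (range n).filter (fun u => 2 * u < n), chE n u
        = 2 * (vec7 n).card := by
      exact_mod_cast key
    linarith
  · simp only [dvd_zero, if_true, c_zero]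
  · intro k hk h4
    have h := Pool.Agent.N970.P21G.t_PC7E n k 0 (n * k) hn h7 h4
      (Nat.mul_pos hn0 (Nat.pos_of_ne_zero hk)) (by push_cast; ring)
    have hL : L7 n 0 (n * k) = locqE 7 n 0 (n * k) := by
      unfold L7 locqE Pool.Agent.N877.P21G.dt
      rw [if_pos hn2]
    simp only [h4, if_true, h, hL]
    push_cast
    rfl
  · intro k h4
    simp only [h4, if_false, Int.cast_zero]

/-- the boundary terms at level `7` -/
theorem cnf7 {A m : ℕ} (hA : Ps A) (hm : Ng m) (hc : Nat.Coprime A m) (h7 : I7 (A * m)) :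
    2 * ∑ u ∈ un m, chM m u * bdE A u m = (vec7 (A * m : ℕ)).card := by
  rw [bd_CG hA hm hc]
  by_cases he : 2 ∣ A ∨ 2 ∣ m
  · rw [← cn_even (prod_even hA hm hc he) h7, ← CG_even hA hm hc he]
  · push Not at he
    have h1 := CG_odd hA hm hc he.1 he.2
    obtain ⟨h2, h4⟩ := prod_odd hA hm hc he.1 he.2
    have h5 := cn_odd h2 h4 h7
    have h6 : 2 - ep2 (A * m) ≠ 0 := by
      unfold ep2
      split_ifs <;> norm_num
    apply mul_left_cancel₀ h6
    rw [← h5, ← h1]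
    ring

end Pool.Agent.N816.Cn7
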