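import Pool.Agent.N877.P21G.Defs
import Pool.Agent.N971.PG.C1F

/-!
# The character sums of weighted crossing numbers of forms of square discriminant: generic C1

Forms of discriminant `D²` with an arbitrary weight (level and orientation) times the genus
character, tested at the cusps `u / n`; odd and even `D`, `n` together.
-/

set_option autoImplicit false

namespace Pool.Agent.N816.G1

open Finset
open Pool.Agent.N969.P15 (un psp psp2 Ev c2 chE)
open Pool.Agent.N969.P17G (psl psl2 gen gnE chM chP)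
open Pool.Agent.N816.P17.CA (Cd fw)
open Pool.Agent.N973.P15.C (inj_gen exists_fac sign_of fo jac_odd chE_odd)
open Pool.Agent.N402.P15 (gen_C1B)
open Pool.Agent.N975.ChE (c2_mul c2_pm c2_even)
open Pool.Agent.N971.PG (par_mul pe pdvd gen_dvd jac_zero_of_dvd jac_congr jac_sq_mul gen_C1BE
  chM_odd chM_even un_refl)

noncomputable section

/-! ### the genus character and its kernel symbols -/

/-- the genus character of the forms of discriminant `D²`, two-part `c2 b` -/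
def GG (b D : ℕ) (q : ℤ × ℤ × ℤ) : ℤ :=
  (if 2 ∣ D then (if (2 : ℤ) ∣ q.1 then c2 b q.2.2 else c2 b q.1) else 1) *
    ∏ p ∈ D.primeFactors.erase 2, gen p q

theorem gnE_GG (A : ℕ) (q : ℤ × ℤ × ℤ) : gnE A q = GG (3 * A) A q := rfl

theorem gnM_GG (m : ℕ) (q : ℤ × ℤ × ℤ) : Pool.Agent.N877.P21G.gnM m q = GG m m q := rfl

/-- the left kernel symbols -/
def KL (b D a a' Y X : ℕ) : ℤ := ∏ p ∈ D.primeFactors,
  if p = 2 then psl2 b a a' Y X else psl p a a' Y X

/-- the right kernel symbols -/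
def KR (b n a a' Y X : ℕ) : ℤ := ∏ p ∈ n.primeFactors,
  if p = 2 then psp2 b a a' Y X else psp p a a' Y X

theorem psl_flip (p a a' Y X : ℕ) : psl p a' a X Y = psl p a a' Y X := by
  unfold psl
  rw [mul_comm Y X, mul_comm a' a]
  exact if_congr and_comm rfl rfl

theorem psl2_flip (b a a' Y X : ℕ) : psl2 b a' a X Y = psl2 b a a' Y X := by
  unfold psl2
  rw [mul_comm Y X, mul_comm a' a]
  exact if_congr and_comm rfl (if_congr and_comm rfl rfl)

theorem KL_flip (b D a a' Y X : ℕ) : KL b D a' a X Y = KL b D a a' Y X := by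
  unfold KL
  refine Finset.prod_congr rfl fun p _ => ?_
  rw [psl_flip, psl2_flip]

/-! ### the factorizations -/

/-- the factorizations `(a x + c y) (a' x + c' y)` of determinant `d` -/
def FF (d x n : ℤ) : Set (ℤ × ℤ × ℤ × ℤ) :=
  {t | 0 < t.1 ∧ 0 < t.2.1 ∧ t.1 * t.2.2.2 - t.2.1 * t.2.2.1 = d ∧
    0 < -(t.1 * x + t.2.2.1 * n) ∧ 0 < t.2.1 * x + t.2.2.2 * n}

/-- the set of factorization data -/
def Om (N : ℕ) : Finset (Σ _ : ℕ, ℕ × ℕ) :=
  (range N).sigma fun T => (N - T).divisors ×ˢ T.divisors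

/-- the facts about the data -/
structure Fc (n N : ℕ) (x : ℤ) (T a a' : ℕ) (X Y : ℕ) (c c' : ℤ) : Prop where
  hX : T / a' = X
  hY : (N - T) / a = Y
  hT : T = a' * X
  hS : N - T = a * Y
  h3 : (a : ℤ) * Y + a' * X = N
  pa : 0 < a
  pa' : 0 < a'
  pX : 0 < X
  pY : 0 < Y
  hc : -(X : ℤ) - a * x = n * c
  hc' : (Y : ℤ) - a' * x = n * c'

theorem facts (n N : ℕ) (hn : 0 < n) (x : ℤ) (T a a' : ℕ) (h : (⟨T, (a, a')⟩ : Σ _ : ℕ, ℕ × ℕ) ∈ Om N)
    (hC : Cd n N x ⟨T, (a, a')⟩) : ∃ X Y : ℕ, ∃ c c' : ℤ, Fc n N x T a a' X Y c c' ∧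
      fw n N x ⟨T, (a, a')⟩ = ((a : ℤ), (a' : ℤ), c, c') := by
  unfold Om at h
  simp only [Finset.mem_sigma, Finset.mem_range, Finset.mem_product, Nat.mem_divisors] at h
  obtain ⟨hT, ⟨h1, h2⟩, h4, h5⟩ := h
  obtain ⟨Y, hY⟩ := h1
  obtain ⟨X, hX⟩ := h4
  have pa : 0 < a := by
    rcases Nat.eq_zero_or_pos a with h | h
    · subst h; simp at hY; omega
    · exact h
  have pa' : 0 < a' := by
    rcases Nat.eq_zero_or_pos a' with h | h
    · subst h; simp at hX; exact absurd hX h5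
    · exact h
  have eX : T / a' = X := by rw [hX]; exact Nat.mul_div_cancel_left _ pa'
  have eY : (N - T) / a = Y := by rw [hY]; exact Nat.mul_div_cancel_left _ pa
  have pX : 0 < X := by
    rcases Nat.eq_zero_or_pos X with h | h
    · subst h; simp at hX; exact absurd hX h5
    · exact h
  have pY : 0 < Y := by
    rcases Nat.eq_zero_or_pos Y with h | h
    · subst h; simp at hY; omega
    · exact h
  have e3 : (a : ℤ) * Y + a' * X = N := by
    have : a * Y + a' * X = N := by omega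
    exact_mod_cast this
  unfold Cd at hC
  simp only at hC
  rw [eX, eY] at hC
  obtain ⟨⟨k, hk⟩, ⟨k', hk'⟩⟩ := hC
  have hc : -(X : ℤ) - a * x = n * (-k) := by linear_combination -hk
  have hc' : (Y : ℤ) - a' * x = n * (-k') := by linear_combination -hk'
  have hm' : (n : ℤ) ≠ 0 := by exact_mod_cast hn.ne'
  refine ⟨X, Y, -k, -k', ⟨eX, eY, hX, hY, e3, pa, pa', pX, pY, hc, hc'⟩, ?_⟩
  unfold fw
  simp only
  rw [eX, eY, hc, hc', Int.mul_ediv_cancel_left _ hm', Int.mul_ediv_cancel_left _ hm']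

/-- the data and the factorizations -/
theorem bijOn (n d : ℕ) (hn : 0 < n) (x : ℤ) :
    Set.BijOn (fw n (d * n) x) ((Om (d * n)).filter (Cd n (d * n) x)) (FF d x n) := by
  have hm' : (n : ℤ) ≠ 0 := by exact_mod_cast hn.ne'
  refine ⟨?_, ?_, ?_⟩
  · rintro ⟨T, a, a'⟩ hw
    rw [Finset.mem_coe, Finset.mem_filter] at hw
    obtain ⟨X, Y, c, c', f, hf⟩ := facts n (d * n) hn x T a a' hw.1 hw.2
    rw [hf]
    have e1 : (n : ℤ) * (a * c' - a' * c) = n * d := by
      have := f.h3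
      push_cast at this
      linear_combination this - a * f.hc' + a' * f.hc
    have k1 : (0 : ℤ) < a := by exact_mod_cast f.pa
    have k2 : (0 : ℤ) < a' := by exact_mod_cast f.pa'
    refine ⟨k1, k2, mul_left_cancel₀ hm' e1, ?_, ?_⟩
    · have : -((a : ℤ) * x + c * n) = X := by linear_combination f.hc
      show 0 < -((a : ℤ) * x + c * n)
      rw [this]
      exact_mod_cast f.pX
    · have : (a' : ℤ) * x + c' * n = Y := by linear_combination -f.hc'
      show 0 < (a' : ℤ) * x + c' * n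
      rw [this]
      exact_mod_cast f.pY
  · rintro ⟨T, a, a'⟩ hw ⟨T1, a1, a1'⟩ hw1 e
    rw [Finset.mem_coe, Finset.mem_filter] at hw hw1
    obtain ⟨X, Y, c, c', f, hf⟩ := facts n (d * n) hn x T a a' hw.1 hw.2
    obtain ⟨X1, Y1, c1, c1', f1, hf1⟩ := facts n (d * n) hn x T1 a1 a1' hw1.1 hw1.2
    rw [hf, hf1] at e
    simp only [Prod.mk.injEq] at e
    obtain ⟨e1, e2, e3, e4⟩ := e
    have k1 : a = a1 := by exact_mod_cast e1
    have k2 : a' = a1' := by exact_mod_cast e2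
    subst k1 k2 e3 e4
    have k7 : X = X1 := by
      have h1 := f.hc
      have h2 := f1.hc
      have : (X : ℤ) = X1 := by linarith
      exact_mod_cast this
    have k8 : T = T1 := by rw [f.hT, f1.hT, k7]
    subst k8
    rfl
  · rintro ⟨a, a', c, c'⟩ ⟨pa, pa', hdt, pX, pY⟩
    simp only at pa pa' hdt pX pY
    lift a to ℕ using pa.le with a
    lift a' to ℕ using pa'.le with a'
    obtain ⟨X, hX⟩ : ∃ X : ℤ, X = -((a : ℤ) * x + c * n) := ⟨_, rfl⟩
    obtain ⟨Y, hY⟩ : ∃ Y : ℤ, Y = (a' : ℤ) * x + c' * n := ⟨_, rfl⟩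
    rw [← hX] at pX
    rw [← hY] at pY
    lift X to ℕ using pX.le with X
    lift Y to ℕ using pY.le with Y
    have e0 : (a : ℤ) * Y + a' * X = d * n := by
      rw [hX, hY]
      linear_combination (n : ℤ) * hdt
    have e0' : a * Y + a' * X = d * n := by exact_mod_cast e0
    have na : 0 < a := by exact_mod_cast pa
    have na' : 0 < a' := by exact_mod_cast pa'
    have nX : 0 < X := by exact_mod_cast pX
    have nY : 0 < Y := by exact_mod_cast pY
    have eS : d * n - a' * X = a * Y := by omega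
    have pXa : 0 < a' * X := Nat.mul_pos na' nX
    have pYa : 0 < a * Y := Nat.mul_pos na nY
    have e1 : (d * n - a' * X) / a = Y := by rw [eS]; exact Nat.mul_div_cancel_left _ na
    have e2 : a' * X / a' = X := Nat.mul_div_cancel_left _ na'
    have e3 : -(X : ℤ) - a * x = n * c := by rw [hX]; ring
    have e4 : (Y : ℤ) - a' * x = n * c' := by rw [hY]; ring
    refine ⟨⟨a' * X, (a, a')⟩, ?_, ?_⟩
    · rw [Finset.mem_coe, Finset.mem_filter]
      refine ⟨?_, ?_⟩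
      · unfold Om
        simp only [Finset.mem_sigma, Finset.mem_range, Finset.mem_product, Nat.mem_divisors]
        rw [eS]
        exact ⟨by omega, ⟨Dvd.intro _ rfl, by omega⟩, ⟨Dvd.intro _ rfl, by omega⟩⟩
      · unfold Cd
        simp only
        rw [e1, e2]
        exact ⟨⟨-c, by linear_combination -e3⟩, ⟨-c', by linear_combination -e4⟩⟩
    · unfold fw
      simp only
      rw [e1, e2, e3, e4, Int.mul_ediv_cancel_left _ hm', Int.mul_ediv_cancel_left _ hm']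

/-! ### the forms and the factorizations -/

/-- the forms of discriminant `D²` changing sign between `∞` and `x / M` -/
def SA (D : ℕ) (x M : ℤ) : Set (ℤ × ℤ × ℤ) :=
  {q | q.2.1 ^ 2 - 4 * q.1 * q.2.2 = (D : ℤ) ^ 2 ∧ 0 < q.1 ∧
    q.1 * x ^ 2 + q.2.1 * x * M + q.2.2 * M ^ 2 < 0}

theorem cop_of {b D : ℕ} {a a' c c' : ℤ} (hd : a * c' - a' * c = D)
    (h : GG b D (fo (a, a', c, c')) ≠ 0) (hA : D ≠ 0) : IsCoprime a c := by
  rw [Int.isCoprime_iff_gcd_eq_one]
  by_contra hg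
  obtain ⟨p, hp, hpg⟩ := Nat.exists_prime_and_dvd hg
  have h1 : (p : ℤ) ∣ a := (by exact_mod_cast hpg : (p : ℤ) ∣ (Int.gcd a c : ℤ)).trans
    (Int.gcd_dvd_left ..)
  have h2 : (p : ℤ) ∣ c := (by exact_mod_cast hpg : (p : ℤ) ∣ (Int.gcd a c : ℤ)).trans
    (Int.gcd_dvd_right ..)
  have h3 : (p : ℤ) ∣ (D : ℤ) := by
    rw [← hd]
    exact dvd_sub (h1.mul_right _) (h2.mul_left _)
  have h4 : p ∈ D.primeFactors := Nat.mem_primeFactors.2 ⟨hp, by exact_mod_cast h3, hA⟩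
  apply h
  unfold GG
  by_cases hp2 : p = 2
  · subst hp2
    have e1 : (2 : ℤ) ∣ (fo (a, a', c, c')).1 := h1.mul_right _
    have e2 : (fo (a, a', c, c')).2.2 % 2 = 0 := Int.emod_eq_zero_of_dvd (h2.mul_right _)
    have e3 : 2 ∣ D := by exact_mod_cast h3
    rw [if_pos e3, if_pos e1, c2_even _ e2, zero_mul]
  · rw [Finset.prod_eq_zero (Finset.mem_erase.2 ⟨hp2, h4⟩)
      (gen_dvd hp (h1.mul_right _) (h2.mul_right _)), mul_zero]

theorem bijF {b D : ℕ} (hD : 0 < D) (x n : ℤ) (hn : 0 < n) :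
    Set.BijOn fo (FF D x n ∩ Function.support fun t => GG b D (fo t))
    (SA D x n ∩ Function.support fun q => GG b D q) := by
  have hA0' : (0 : ℤ) < D := by exact_mod_cast hD
  refine ⟨?_, ?_, ?_⟩
  · rintro ⟨a, a', c, c'⟩ ⟨⟨pa, pa', hdt, pX, pY⟩, hs⟩
    simp only at pa pa' hdt pX pY
    have hform : a * a' * x ^ 2 + (a * c' + a' * c) * x * n + c * c' * n ^ 2 < 0 := by
      have e : a * a' * x ^ 2 + (a * c' + a' * c) * x * n + c * c' * n ^ 2 =
        -(-(a * x + c * n) * (a' * x + c' * n)) := by ring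
      rw [e]
      have := mul_pos pX pY
      linarith
    refine ⟨⟨?_, mul_pos pa pa', hform⟩, hs⟩
    show (a * c' + a' * c) ^ 2 - 4 * (a * a') * (c * c') = (D : ℤ) ^ 2
    linear_combination (a * c' - a' * c + D) * hdt
  · rintro ⟨a, a', c, c'⟩ ⟨⟨pa, pa', hdt, pX, pY⟩, hs⟩ ⟨a1, a1', c1, c1'⟩
      ⟨⟨pa1, pa1', hdt1, pX1, pY1⟩, hs1⟩ e
    simp only at pa pa' hdt pX pY pa1 pa1' hdt1 pX1 pY1
    have hc : IsCoprime a c := cop_of hdt hs hD.ne'
    have hc1 : IsCoprime a1 c1 := cop_of hdt1 hs1 hD.ne'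
    simp only [fo, Prod.mk.injEq] at e
    obtain ⟨e1, e2, e3⟩ := e
    obtain ⟨k1, k2, k3, k4⟩ := inj_gen pa' pa1' hc hc1 hdt hdt1 pa e1 e2
    rw [k1, k2, k3, k4]
  · rintro ⟨a0, B, C⟩ ⟨⟨hd, ha0, hN⟩, hs⟩
    simp only at hd ha0 hN
    have hpar : (2 : ℤ) ∣ B - D := by
      have h1 : (2 : ℤ) ∣ (B - D) * (B + D) := ⟨2 * (a0 * C), by linear_combination hd⟩
      rcases Int.prime_two.dvd_or_dvd h1 with h2 | h2
      · exact h2
      · have e : B - D = B + D - 2 * D := by ring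
        rw [e]
        exact dvd_sub h2 ⟨D, rfl⟩
    obtain ⟨γ, hγ⟩ := hpar
    have hB : B = 2 * γ + D := by linarith
    subst hB
    have hAC : a0 * C = γ * (γ + D) := by linarith
    obtain ⟨a, a', c, c', pa, pa', ha, hc, hc', hC, hcop⟩ := exists_fac ha0 hAC
    have hdt : a * c' - a' * c = D := by rw [← hc', ← hc]; ring
    have hs' : 0 < -(a * x + c * n) ∧ 0 < a' * x + c' * n := by
      refine sign_of pa pa' hA0' hn hdt ?_
      have e : a * a' * x ^ 2 + (a * c' + a' * c) * x * n + c * c' * n ^ 2 =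
        a0 * x ^ 2 + (2 * γ + D) * x * n + C * n ^ 2 := by
        rw [ha, hC, ← hc', ← hc]
        ring
      rw [e]
      exact hN
    have hfo : fo (a, a', c, c') = (a0, 2 * γ + D, C) := by
      simp only [fo, Prod.mk.injEq]
      exact ⟨ha.symm, by rw [← hc', ← hc]; ring, hC.symm⟩
    refine ⟨(a, a', c, c'), ⟨⟨pa, pa', hdt, hs'.1, hs'.2⟩, ?_⟩, hfo⟩
    rw [Function.mem_support, hfo]
    exact hs

/-- the sum over the forms as a sum over the factorizations, arbitrary weight -/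
theorem forms_eq {b D : ℕ} (hD : 0 < D) (x n : ℤ) (hn : 0 < n) (W : ℤ × ℤ × ℤ → ℤ) :
    ∑ᶠ q ∈ SA D x n, W q * GG b D q = ∑ᶠ t ∈ FF D x n, W (fo t) * GG b D (fo t) := by
  have e1 : ∑ᶠ q ∈ SA D x n, W q * GG b D q =
      ∑ᶠ q ∈ SA D x n ∩ Function.support (fun q => GG b D q), W q * GG b D q := by
    rw [← finsum_mem_inter_support, ← finsum_mem_inter_support (fun q => W q * GG b D q)
      (SA D x n ∩ Function.support (fun q => GG b D q))]
    refine finsum_mem_congr ?_ fun _ _ => rfl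
    ext q
    simp only [Set.mem_inter_iff, Function.mem_support]
    constructor
    · rintro ⟨h1, h2⟩
      exact ⟨⟨h1, right_ne_zero_of_mul h2⟩, h2⟩
    · rintro ⟨⟨h1, _⟩, h2⟩
      exact ⟨h1, h2⟩
  have e2 : ∑ᶠ t ∈ FF D x n, W (fo t) * GG b D (fo t) =
      ∑ᶠ t ∈ FF D x n ∩ Function.support (fun t => GG b D (fo t)), W (fo t) * GG b D (fo t) := by
    rw [← finsum_mem_inter_support, ← finsum_mem_inter_support (fun t => W (fo t) * GG b D (fo t))
      (FF D x n ∩ Function.support (fun t => GG b D (fo t)))]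
    refine finsum_mem_congr ?_ fun _ _ => rfl
    ext t
    simp only [Set.mem_inter_iff, Function.mem_support]
    constructor
    · rintro ⟨h1, h2⟩
      exact ⟨⟨h1, right_ne_zero_of_mul h2⟩, h2⟩
    · rintro ⟨⟨h1, _⟩, h2⟩
      exact ⟨h1, h2⟩
  rw [e1, e2]
  exact (finsum_mem_eq_of_bijOn fo (bijF hD x n hn) fun t _ => rfl).symm

/-! ### the genus character on the data -/

theorem gen_psl {n N : ℕ} {x : ℤ} {T a a' X Y : ℕ} {c c' : ℤ} (f : Fc n N x T a a' X Y c c')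
    {p : ℕ} (hpp : p.Prime) {d : ℤ} (hdet : (a : ℤ) * c' - a' * c = d) (hpd : (p : ℤ) ∣ d)
    (hpn : IsCoprime (n : ℤ) (p : ℤ)) : gen p (fo ((a : ℤ), (a' : ℤ), c, c')) = psl p a a' Y X := by
  have hpP : Prime (p : ℤ) := Nat.prime_iff_prime_int.1 hpp
  unfold gen psl fo
  simp only
  by_cases h1 : p ∣ a ∧ p ∣ a'
  · have h2 : (p : ℤ) ∣ (a : ℤ) * a' := Dvd.dvd.mul_right (by exact_mod_cast h1.1) _
    rw [if_pos h2, if_pos h1, ← jac_sq_mul (y := c * c') hpn]
    refine jac_congr ?_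
    have ha : (p : ℤ) ∣ (a : ℤ) := by exact_mod_cast h1.1
    have ha' : (p : ℤ) ∣ (a' : ℤ) := by exact_mod_cast h1.2
    have e : (n : ℤ) ^ 2 * (c * c') - (-((X * Y : ℕ) : ℤ)) = a' * (x * X + a * x ^ 2) - a * (x * Y) := by
      push_cast
      have e1 := f.hc
      have e2 := f.hc'
      linear_combination (-(n : ℤ) * c') * e1 + ((X : ℤ) + a * x) * e2
    rw [e]
    exact dvd_sub (ha'.mul_right _) (ha.mul_right _)
  · rw [if_neg h1]
    by_cases h2 : (p : ℤ) ∣ (a : ℤ) * a'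
    · rw [if_pos h2]
      have h3 : jacobiSym ((a * a' : ℕ) : ℤ) p = 0 := by
        refine jac_zero_of_dvd hpp ?_
        push_cast
        exact h2
      rw [h3]
      refine jac_zero_of_dvd hpp ?_
      obtain ⟨q1, q2⟩ := pdvd hpp hdet hpd h2
      rcases hpP.dvd_or_dvd h2 with h4 | h4
      · rcases hpP.dvd_or_dvd q2 with h6 | h6
        · exact absurd ⟨by exact_mod_cast h4, by exact_mod_cast h6⟩ h1
        · exact h6.mul_right _
      · rcases hpP.dvd_or_dvd q1 with h6 | h6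
        · exact absurd ⟨by exact_mod_cast h6, by exact_mod_cast h4⟩ h1
        · exact h6.mul_left _
    · rw [if_neg h2]
      push_cast
      rfl

/-- the conductor of `c2 b` divides `D` -/
def Cnd (b D : ℕ) : Prop := ∀ x y k : ℤ, x % 2 = 1 → x - y = D * k → c2 b x = c2 b y

theorem c2_eq_of {b D : ℕ} (hA : Cnd b D) {y z s k : ℤ} (hs : s % 2 = 1) (hy : y % 2 = 1)
    (hz : z % 2 = 1) (h : y * z = s * (s + D * k)) : c2 b y = c2 b z := by
  have hsq : c2 b (s * s) = 1 := by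
    rw [c2_mul]
    rcases c2_pm b hs with h1 | h1 <;> rw [h1] <;> norm_num
  have h1 : c2 b (s * s) = c2 b (y * z) :=
    hA _ _ (-(s * k)) (by rw [Int.mul_emod, hs]; norm_num) (by rw [h]; ring)
  rw [hsq, c2_mul] at h1
  rcases c2_pm b hy with h2 | h2 <;> rcases c2_pm b hz with h3 | h3 <;>
    rw [h2, h3] at h1 ⊢ <;> norm_num at h1

theorem k2_psl {n N : ℕ} {x : ℤ} {T a a' X Y : ℕ} {c c' : ℤ} (f : Fc n N x T a a' X Y c c')
    {b D : ℕ} (hA : Cnd b D) (h2 : 2 ∣ D) (hn : n % 2 = 1) (hdet : (a : ℤ) * c' - a' * c = D) :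
    (if (2 : ℤ) ∣ (a : ℤ) * a' then c2 b (c * c') else c2 b ((a : ℤ) * a')) = psl2 b a a' Y X := by
  unfold psl2
  have hA2 : (D : ℤ) % 2 = 0 := by omega
  have hdet2 : ((a : ℤ) * c' - a' * c) % 2 = 0 := by rw [hdet, hA2]
  have p1 := pe a a'
  have p2 := pe a c'
  have p3 := pe a' c
  have p4 := pe c c'
  by_cases h1 : a % 2 = 1 ∧ a' % 2 = 1
  · have h2 : ¬ (2 : ℤ) ∣ (a : ℤ) * a' := by omega
    rw [if_neg h2, if_pos h1]
    push_cast
    rfl
  · have h2 : (2 : ℤ) ∣ (a : ℤ) * a' := by omega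
    rw [if_pos h2, if_neg h1]
    by_cases h3 : a % 2 = 0 ∧ a' % 2 = 0
    · rw [if_pos h3]
      have eX : -(X : ℤ) = a * x + n * c := by linear_combination f.hc
      have eY : (Y : ℤ) = a' * x + n * c' := by linear_combination f.hc'
      have eXY : -((X * Y : ℕ) : ℤ) = (a * x + n * c) * (a' * x + n * c') := by
        push_cast
        rw [← eX, ← eY]
        ring
      have q1 := pe a x
      have q2 := pe a' x
      have q3 := pe n c
      have q4 := pe n c'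
      rw [eXY]
      by_cases hcc : (c * c') % 2 = 1
      · obtain ⟨hc, hc'⟩ := par_mul.1 hcc
        refine (c2_eq_of hA (s := a' * c * x + n * (c * c')) (k := x) ?_ ?_ hcc ?_).symm
        · have q5 := pe a' (c * x)
          have q6 := pe n (c * c')
          have e5 : (a' : ℤ) * c * x = a' * (c * x) := by ring
          rw [e5]
          omega
        · rw [par_mul]
          omega
        · linear_combination ((a' * c * x + n * (c * c')) * x) * hdet
      · have hcc0 : (c * c') % 2 = 0 := by omega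
        rw [c2_even _ hcc0]
        symm
        apply c2_even
        by_contra h5
        have h6 : (((a : ℤ) * x + n * c) * (a' * x + n * c')) % 2 = 1 := by omega
        obtain ⟨h7, h8⟩ := par_mul.1 h6
        omega
    · rw [if_neg h3]
      apply c2_even
      omega

theorem GG_data {b D n : ℕ} (hD : 0 < D) (hn : 0 < n) (hcop : Nat.Coprime D n)
    (hA : 2 ∣ D → Cnd b D) (x : ℤ) {T a a' X Y : ℕ} {c c' : ℤ}
    (f : Fc n (D * n) x T a a' X Y c c') :
    GG b D (fo ((a : ℤ), (a' : ℤ), c, c')) = KL b D a a' Y X := by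
  have hm' : (n : ℤ) ≠ 0 := by exact_mod_cast hn.ne'
  have hdet : (a : ℤ) * c' - a' * c = D := by
    have e1 : (n : ℤ) * (a * c' - a' * c) = n * D := by
      have := f.h3
      push_cast at this
      linear_combination this - a * f.hc' + a' * f.hc
    exact mul_left_cancel₀ hm' e1
  have hodd : ∀ p ∈ D.primeFactors.erase 2,
      gen p (fo ((a : ℤ), (a' : ℤ), c, c')) = psl p a a' Y X := by
    intro p hp
    rw [Finset.mem_erase] at hp
    have hpp := Nat.prime_of_mem_primeFactors hp.2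
    have hpA := Nat.dvd_of_mem_primeFactors hp.2
    refine gen_psl f hpp hdet (by exact_mod_cast hpA) ?_
    refine Nat.isCoprime_iff_coprime.2 ?_
    exact (Nat.Coprime.coprime_dvd_left hpA hcop).symm
  have ho : ∏ p ∈ D.primeFactors.erase 2, gen p (fo ((a : ℤ), (a' : ℤ), c, c')) =
      ∏ p ∈ D.primeFactors.erase 2, (if p = 2 then psl2 b a a' Y X else psl p a a' Y X) := by
    refine Finset.prod_congr rfl fun p hp => ?_
    rw [hodd p hp, if_neg (Finset.mem_erase.1 hp).1]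
  unfold GG KL
  by_cases h2 : 2 ∣ D
  · have h2mem : 2 ∈ D.primeFactors := Nat.mem_primeFactors.2 ⟨Nat.prime_two, h2, hD.ne'⟩
    rw [if_pos h2, ← Finset.mul_prod_erase _ _ h2mem, if_pos rfl, ho]
    congr 1
    have hn2 : n % 2 = 1 := by
      by_contra h
      have h3 : 2 ∣ Nat.gcd D n := Nat.dvd_gcd h2 (by omega)
      rw [hcop] at h3
      omega
    exact k2_psl f (hA h2) h2 hn2 hdet
  · have h2mem : 2 ∉ D.primeFactors := fun h => h2 (Nat.dvd_of_mem_primeFactors h)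
    rw [if_neg h2, one_mul, ho, Finset.erase_eq_of_notMem h2mem]

/-! ### the main theorem -/

/-- the character sum over the cusps of one datum -/
def RU (χ : ℤ → ℤ) (n N : ℕ) (w : Σ _ : ℕ, ℕ × ℕ) : ℤ :=
  ∑ u ∈ (un n).filter (fun u : ℕ => Cd n N u w), χ u

open Classical in
theorem main' {b D n : ℕ} (hD : 0 < D) (hn : 0 < n) (hcop : Nat.Coprime D n)
    (hA : 2 ∣ D → Cnd b D) (χ : ℤ → ℤ) (I : ℕ → ℕ → ℤ) (W : ℤ × ℤ × ℤ → ℤ)
    (hW : ∀ (a a' : ℕ) (c c' : ℤ), (a : ℤ) * c' - a' * c = D → 0 < a → 0 < a' →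
      GG b D (fo ((a : ℤ), (a' : ℤ), c, c')) ≠ 0 → W (fo ((a : ℤ), (a' : ℤ), c, c')) = I a a') :
    ∑ u ∈ un n, χ u * (∑ᶠ q : ℤ × ℤ × ℤ, if q.2.1 ^ 2 - 4 * q.1 * q.2.2 = (D : ℤ) ^ 2 ∧ 0 < q.1 ∧
      q.1 * (u : ℤ) ^ 2 + q.2.1 * u * n + q.2.2 * (n : ℤ) ^ 2 < 0 then W q * GG b D q else 0) =
    ∑ w ∈ Om (D * n), I w.2.1 w.2.2 *
      KL b D w.2.1 w.2.2 ((D * n - w.1) / w.2.1) (w.1 / w.2.2) * RU χ n (D * n) w := by
  have hn' : (0 : ℤ) < n := by exact_mod_cast hn
  have key : ∀ u : ℤ, (∑ᶠ q : ℤ × ℤ × ℤ, if q.2.1 ^ 2 - 4 * q.1 * q.2.2 = (D : ℤ) ^ 2 ∧ 0 < q.1 ∧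
      q.1 * (u : ℤ) ^ 2 + q.2.1 * u * n + q.2.2 * (n : ℤ) ^ 2 < 0 then W q * GG b D q else 0) =
      ∑ w ∈ (Om (D * n)).filter (Cd n (D * n) u), I w.2.1 w.2.2 *
        KL b D w.2.1 w.2.2 ((D * n - w.1) / w.2.1) (w.1 / w.2.2) := by
    intro u
    have e1 : (∑ᶠ q : ℤ × ℤ × ℤ, if q.2.1 ^ 2 - 4 * q.1 * q.2.2 = (D : ℤ) ^ 2 ∧ 0 < q.1 ∧
      q.1 * (u : ℤ) ^ 2 + q.2.1 * u * n + q.2.2 * (n : ℤ) ^ 2 < 0 then W q * GG b D q else 0) =
        ∑ᶠ q ∈ SA D u n, W q * GG b D q := by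
      refine finsum_congr fun q => ?_
      rw [finsum_eq_if]
      by_cases h : q ∈ SA D u n
      · rw [if_pos h]
        exact if_pos h
      · rw [if_neg h]
        exact if_neg h
    rw [e1, forms_eq hD u n hn' W, ← finsum_mem_eq_of_bijOn (fw n (D * n) u) (bijOn n D hn u)
      (f := fun w => I w.2.1 w.2.2 *
        KL b D w.2.1 w.2.2 ((D * n - w.1) / w.2.1) (w.1 / w.2.2)), finsum_mem_coe_finset]
    rintro ⟨T, a, a'⟩ hw
    rw [Finset.mem_coe, Finset.mem_filter] at hw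
    obtain ⟨X, Y, c, c', f, hf⟩ := facts n (D * n) hn u T a a' hw.1 hw.2
    have hm' : (n : ℤ) ≠ 0 := by exact_mod_cast hn.ne'
    have hdet : (a : ℤ) * c' - a' * c = D := by
      have e1 : (n : ℤ) * (a * c' - a' * c) = n * D := by
        have := f.h3
        push_cast at this
        linear_combination this - a * f.hc' + a' * f.hc
      exact mul_left_cancel₀ hm' e1
    rw [hf]
    simp only [f.hX, f.hY]
    have hG := GG_data hD hn hcop hA u f
    by_cases h0 : GG b D (fo ((a : ℤ), (a' : ℤ), c, c')) = 0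
    · rw [← hG, h0, mul_zero, mul_zero]
    · rw [hG, hW a a' c c' hdet f.pa f.pa' h0]
  calc _ = ∑ u ∈ un n, ∑ w ∈ Om (D * n), (if Cd n (D * n) u w then
        I w.2.1 w.2.2 * KL b D w.2.1 w.2.2 ((D * n - w.1) / w.2.1) (w.1 / w.2.2) * χ u else 0) := by
        refine Finset.sum_congr rfl fun u _ => ?_
        rw [key, Finset.mul_sum, Finset.sum_filter]
        refine Finset.sum_congr rfl fun w _ => ?_
        split_ifs <;> ring
    _ = _ := by
        rw [Finset.sum_comm]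
        refine Finset.sum_congr rfl fun w _ => ?_
        unfold RU
        rw [Finset.mul_sum, Finset.sum_filter]

open Classical in
theorem main {b D n : ℕ} (hD : 0 < D) (hn : 0 < n) (hcop : Nat.Coprime D n)
    (hA : 2 ∣ D → Cnd b D) (χ : ℤ → ℤ) (I : ℕ → ℕ → ℤ) (W : ℤ × ℤ × ℤ → ℤ)
    (hW : ∀ (a a' : ℕ) (c c' : ℤ), (a : ℤ) * c' - a' * c = D → 0 < a → 0 < a' →
      W (fo ((a : ℤ), (a' : ℤ), c, c')) = I a a') :
    ∑ u ∈ un n, χ u * (∑ᶠ q : ℤ × ℤ × ℤ, if q.2.1 ^ 2 - 4 * q.1 * q.2.2 = (D : ℤ) ^ 2 ∧ 0 < q.1 ∧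
      q.1 * (u : ℤ) ^ 2 + q.2.1 * u * n + q.2.2 * (n : ℤ) ^ 2 < 0 then W q * GG b D q else 0) =
    ∑ w ∈ Om (D * n), I w.2.1 w.2.2 *
      KL b D w.2.1 w.2.2 ((D * n - w.1) / w.2.1) (w.1 / w.2.2) * RU χ n (D * n) w :=
  main' hD hn hcop hA χ I W fun a a' c c' h1 h2 h3 _ => hW a a' c c' h1 h2 h3

/-! ### the reflection -/

/-- the reflection of the data -/
def fl (N : ℕ) (w : Σ _ : ℕ, ℕ × ℕ) : Σ _ : ℕ, ℕ × ℕ := ⟨N - w.1, (w.2.2, w.2.1)⟩

theorem fl_mem {N : ℕ} {w : Σ _ : ℕ, ℕ × ℕ} (h : w ∈ Om N) : fl N w ∈ Om N := by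
  obtain ⟨T, a, a'⟩ := w
  unfold Om at h ⊢
  unfold fl
  simp only [Finset.mem_sigma, Finset.mem_range, Finset.mem_product, Nat.mem_divisors] at h ⊢
  obtain ⟨hT, ⟨h1, h2⟩, h4, h5⟩ := h
  have e : N - (N - T) = T := by omega
  rw [e]
  exact ⟨by omega, ⟨h4, h5⟩, ⟨h1, h2⟩⟩

theorem fl_fl {N : ℕ} {w : Σ _ : ℕ, ℕ × ℕ} (h : w ∈ Om N) : fl N (fl N w) = w := by
  obtain ⟨T, a, a'⟩ := w
  unfold Om at h
  simp only [Finset.mem_sigma, Finset.mem_range] at h
  unfold fl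
  simp only
  have e : N - (N - T) = T := by omega
  rw [e]

theorem sum_fl {N : ℕ} (f : (Σ _ : ℕ, ℕ × ℕ) → ℤ) : ∑ w ∈ Om N, f (fl N w) = ∑ w ∈ Om N, f w :=
  Finset.sum_nbij' (fl N) (fl N) (fun _ h => fl_mem h) (fun _ h => fl_mem h)
    (fun _ h => fl_fl h) (fun _ h => fl_fl h) (fun _ _ => rfl)

theorem Cd_fl {n N : ℕ} {w : Σ _ : ℕ, ℕ × ℕ} (h : w ∈ Om N) (u : ℤ) :
    Cd n N ((n : ℤ) - u) (fl N w) ↔ Cd n N u w := by
  obtain ⟨T, a, a'⟩ := w
  unfold Om at h
  simp only [Finset.mem_sigma, Finset.mem_range] at h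
  unfold Cd fl
  simp only
  have e : N - (N - T) = T := by omega
  rw [e]
  have e1 : (a' : ℤ) * (n - u) + (((N - T) / a : ℕ) : ℤ) =
      n * a' - (a' * u - (((N - T) / a : ℕ) : ℤ)) := by ring
  have e2 : (a : ℤ) * (n - u) - ((T / a' : ℕ) : ℤ) = n * a - (a * u + ((T / a' : ℕ) : ℤ)) := by ring
  rw [e1, e2, dvd_sub_right (Dvd.intro _ rfl), dvd_sub_right (Dvd.intro _ rfl), and_comm]

/-- the reflection on the cusps: `χ (n - u) = e χ u` -/
theorem RU_fl {n N : ℕ} (hn : 1 < n) {χ : ℤ → ℤ} {e : ℤ} (hχ : ∀ u : ℤ, χ ((n : ℤ) - u) = e * χ u)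
    {w : Σ _ : ℕ, ℕ × ℕ} (h : w ∈ Om N) : RU χ n N (fl N w) = e * RU χ n N w := by
  classical
  unfold RU
  rw [Finset.sum_filter, Finset.sum_filter, Finset.mul_sum,
    ← un_refl hn (fun u => if Cd n N u (fl N w) then χ u else 0)]
  refine Finset.sum_congr rfl fun u _ => ?_
  simp only [Cd_fl h, hχ]
  split_ifs <;> simp

/-- a weight `i (a, a') - i (a', a)` and an odd character -/
theorem sum_anti {b D n : ℕ} (hn : 1 < n) {χ : ℤ → ℤ} (hχ : ∀ u : ℤ, χ ((n : ℤ) - u) = -χ u)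
    (i : ℕ → ℕ → ℤ) :
    ∑ w ∈ Om (D * n), (i w.2.1 w.2.2 - i w.2.2 w.2.1) *
      KL b D w.2.1 w.2.2 ((D * n - w.1) / w.2.1) (w.1 / w.2.2) * RU χ n (D * n) w =
    2 * ∑ w ∈ Om (D * n), i w.2.1 w.2.2 *
      KL b D w.2.1 w.2.2 ((D * n - w.1) / w.2.1) (w.1 / w.2.2) * RU χ n (D * n) w := by
  have h1 := sum_fl (N := D * n) (fun w => i w.2.1 w.2.2 *
      KL b D w.2.1 w.2.2 ((D * n - w.1) / w.2.1) (w.1 / w.2.2) * RU χ n (D * n) w)
  have h2 : ∑ w ∈ Om (D * n), i w.2.2 w.2.1 *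
      KL b D w.2.1 w.2.2 ((D * n - w.1) / w.2.1) (w.1 / w.2.2) * RU χ n (D * n) w =
      - ∑ w ∈ Om (D * n), i w.2.1 w.2.2 *
      KL b D w.2.1 w.2.2 ((D * n - w.1) / w.2.1) (w.1 / w.2.2) * RU χ n (D * n) w := by
    rw [← h1, ← Finset.sum_neg_distrib]
    refine Finset.sum_congr rfl fun w hw => ?_
    have h3 := RU_fl hn (χ := χ) (e := -1) (fun u => by rw [hχ]; ring) hw
    simp only [h3]
    have hT : w.1 < D * n := by
      unfold Om at hw
      rw [Finset.mem_sigma, Finset.mem_range] at hw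
      exact hw.1
    have e : D * n - (fl (D * n) w).1 = w.1 := by
      show D * n - (D * n - w.1) = w.1
      omega
    rw [e]
    show _ = -(i w.2.2 w.2.1 * KL b D w.2.2 w.2.1 (w.1 / w.2.2) ((D * n - w.1) / w.2.1) * _)
    rw [KL_flip]
    ring
  have h4 : ∑ w ∈ Om (D * n), (i w.2.1 w.2.2 - i w.2.2 w.2.1) *
      KL b D w.2.1 w.2.2 ((D * n - w.1) / w.2.1) (w.1 / w.2.2) * RU χ n (D * n) w =
      ∑ w ∈ Om (D * n), i w.2.1 w.2.2 *
      KL b D w.2.1 w.2.2 ((D * n - w.1) / w.2.1) (w.1 / w.2.2) * RU χ n (D * n) w -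
      ∑ w ∈ Om (D * n), i w.2.2 w.2.1 *
      KL b D w.2.1 w.2.2 ((D * n - w.1) / w.2.1) (w.1 / w.2.2) * RU χ n (D * n) w := by
    rw [← Finset.sum_sub_distrib]
    refine Finset.sum_congr rfl fun w _ => ?_
    ring
  rw [h4, h2]
  ring

/-- a weight `i (a, a') + i (a', a)` and an even character -/
theorem sum_symm {b D n : ℕ} (hn : 1 < n) {χ : ℤ → ℤ} (hχ : ∀ u : ℤ, χ ((n : ℤ) - u) = χ u)
    (i : ℕ → ℕ → ℤ) :
    ∑ w ∈ Om (D * n), (i w.2.1 w.2.2 + i w.2.2 w.2.1) *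
      KL b D w.2.1 w.2.2 ((D * n - w.1) / w.2.1) (w.1 / w.2.2) * RU χ n (D * n) w =
    2 * ∑ w ∈ Om (D * n), i w.2.1 w.2.2 *
      KL b D w.2.1 w.2.2 ((D * n - w.1) / w.2.1) (w.1 / w.2.2) * RU χ n (D * n) w := by
  have h1 := sum_fl (N := D * n) (fun w => i w.2.1 w.2.2 *
      KL b D w.2.1 w.2.2 ((D * n - w.1) / w.2.1) (w.1 / w.2.2) * RU χ n (D * n) w)
  have h2 : ∑ w ∈ Om (D * n), i w.2.2 w.2.1 *
      KL b D w.2.1 w.2.2 ((D * n - w.1) / w.2.1) (w.1 / w.2.2) * RU χ n (D * n) w =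
      ∑ w ∈ Om (D * n), i w.2.1 w.2.2 *
      KL b D w.2.1 w.2.2 ((D * n - w.1) / w.2.1) (w.1 / w.2.2) * RU χ n (D * n) w := by
    rw [← h1]
    refine Finset.sum_congr rfl fun w hw => ?_
    have h3 := RU_fl hn (χ := χ) (e := 1) (fun u => by rw [hχ]; ring) hw
    simp only [h3]
    have hT : w.1 < D * n := by
      unfold Om at hw
      rw [Finset.mem_sigma, Finset.mem_range] at hw
      exact hw.1
    have e : D * n - (fl (D * n) w).1 = w.1 := by
      show D * n - (D * n - w.1) = w.1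
      omega
    rw [e]
    show _ = (i w.2.2 w.2.1 * KL b D w.2.2 w.2.1 (w.1 / w.2.2) ((D * n - w.1) / w.2.1) * _)
    rw [KL_flip]
    ring
  have h4 : ∑ w ∈ Om (D * n), (i w.2.1 w.2.2 + i w.2.2 w.2.1) *
      KL b D w.2.1 w.2.2 ((D * n - w.1) / w.2.1) (w.1 / w.2.2) * RU χ n (D * n) w =
      ∑ w ∈ Om (D * n), i w.2.1 w.2.2 *
      KL b D w.2.1 w.2.2 ((D * n - w.1) / w.2.1) (w.1 / w.2.2) * RU χ n (D * n) w +
      ∑ w ∈ Om (D * n), i w.2.2 w.2.1 *
      KL b D w.2.1 w.2.2 ((D * n - w.1) / w.2.1) (w.1 / w.2.2) * RU χ n (D * n) w := by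
    rw [← Finset.sum_add_distrib]
    refine Finset.sum_congr rfl fun w _ => ?_
    ring
  rw [h4, h2]
  ring

/-! ### the right kernel symbols for a negative discriminant -/

/-- `-n` is a fundamental discriminant -/
def Fn (n : ℕ) : Prop := (Squarefree n ∧ n % 4 = 3) ∨ Ev n

theorem Fn_one_lt {n : ℕ} (h : Fn n) : 1 < n := by
  rcases h with h | ⟨m, rfl, h1, h2⟩
  · omega
  · have : 0 < m := Nat.pos_of_ne_zero h1.ne_zero
    omega

theorem chM_refl {m : ℕ} (h : Fn m) (u : ℤ) : chM m ((m : ℤ) - u) = -chM m u := by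
  rcases h with h | h
  · rw [chM_odd h.1 h.2, chM_odd h.1 h.2, jac_odd h.2]
  · rw [chM_even h, chM_even h, chE_odd h]

theorem RU_eq {m d : ℕ} (h : Fn m) (hcop : Nat.Coprime d m)
    {w : Σ _ : ℕ, ℕ × ℕ} (hw : w ∈ Om (d * m)) :
    RU (chM m) m (d * m) w = KR m m w.2.1 w.2.2 ((d * m - w.1) / w.2.1) (w.1 / w.2.2) := by
  obtain ⟨T, a, a'⟩ := w
  have hw' := hw
  unfold Om at hw'
  simp only [Finset.mem_sigma, Finset.mem_range, Finset.mem_product, Nat.mem_divisors] at hw'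
  obtain ⟨hT, ⟨h3, h4⟩, h5, h6⟩ := hw'
  have hdet : a * ((d * m - T) / a) + a' * (T / a') = d * m := by
    rw [Nat.mul_div_cancel' h3, Nat.mul_div_cancel' h5]
    omega
  unfold RU KR Cd
  simp only
  rcases h with ⟨hm, hm4⟩ | hm
  · have hP : ∀ p ∈ m.primeFactors, p.Prime := fun p hp => Nat.prime_of_mem_primeFactors hp
    have hprod : ∏ p ∈ m.primeFactors, p = m := Nat.prod_primeFactors_of_squarefree hm
    have key := gen_C1B m.primeFactors hP a a' (T / a') ((d * m - T) / a) (d * m) hdet (by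
      intro p hp
      have hpp := hP p hp
      have hpm : p ∣ m := Nat.dvd_of_mem_primeFactors hp
      refine ⟨hpm.mul_left d, fun h => ?_⟩
      have hc : Nat.Coprime (p ^ 2) d :=
        Nat.Coprime.pow_left 2 (Nat.Coprime.coprime_dvd_left hpm hcop.symm)
      have h8 := hc.dvd_of_dvd_mul_left h
      rw [pow_two] at h8
      exact hpp.one_lt.ne' (Nat.isUnit_iff.1 (hm p h8)))
    rw [hprod] at key
    have e9 : ∏ p ∈ m.primeFactors, (if p = 2 then
        psp2 m a a' ((d * m - T) / a) (T / a')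
        else psp p a a' ((d * m - T) / a) (T / a')) =
        ∏ p ∈ m.primeFactors, psp p a a' ((d * m - T) / a) (T / a') := by
      refine Finset.prod_congr rfl fun p hp => ?_
      have hp2 : p ≠ 2 := by
        rintro rfl
        have := Nat.dvd_of_mem_primeFactors hp
        omega
      rw [if_neg hp2]
    rw [e9, ← key]
    refine Finset.sum_congr rfl fun u _ => ?_
    rw [chM_odd hm hm4]
  · obtain ⟨m', hm', hms, hm4⟩ := id hm
    have hm0' : 0 < m' := Nat.pos_of_ne_zero hms.ne_zero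
    have hm0 : 0 < m := by omega
    have h2m : 2 ∈ m.primeFactors := Nat.mem_primeFactors.2 ⟨Nat.prime_two, by omega, hm0.ne'⟩
    have key := gen_C1BE hm (N := d * m) (Dvd.intro_left d rfl) (by
      intro p hp h
      have hp' := hp
      rw [Finset.mem_erase] at hp'
      have hpp := Nat.prime_of_mem_primeFactors hp'.2
      have hpm : p ∣ m := Nat.dvd_of_mem_primeFactors hp'.2
      have hc : Nat.Coprime (p ^ 2) d :=
        Nat.Coprime.pow_left 2 (Nat.Coprime.coprime_dvd_left hpm hcop.symm)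
      have h8 := hc.dvd_of_dvd_mul_left h
      have h9 : Nat.Coprime (p ^ 2) 4 := by
        have h10 : Nat.Coprime p 2 := (Nat.coprime_primes hpp Nat.prime_two).2 hp'.1
        have h11 := Nat.Coprime.pow 2 2 h10
        exact h11
      rw [hm'] at h8
      have h12 := h9.dvd_of_dvd_mul_left h8
      rw [pow_two] at h12
      exact hpp.one_lt.ne' (Nat.isUnit_iff.1 (hms p h12))) a a' (T / a') ((d * m - T) / a) hdet
    rw [← Finset.mul_prod_erase _ _ h2m, if_pos rfl]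
    have e9 : ∏ p ∈ m.primeFactors.erase 2, (if p = 2 then
        psp2 m a a' ((d * m - T) / a) (T / a')
        else psp p a a' ((d * m - T) / a) (T / a')) =
        ∏ p ∈ m.primeFactors.erase 2, psp p a a' ((d * m - T) / a) (T / a') := by
      refine Finset.prod_congr rfl fun p hp => ?_
      rw [if_neg (Finset.mem_erase.1 hp).1]
    rw [e9, ← key]
    refine Finset.sum_congr rfl fun u _ => ?_
    rw [chM_even hm]

end

end Pool.Agent.N816.G1
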