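import Pool.Agent.N816.PG21.Bil4
import Pool.Agent.N712.P21.HE

/-!
# P15G: the Hecke operator at `2` on the lattice of the Eichler order of level `5` (`S_HE4`)
-/

set_option autoImplicit false

namespace Pool.Agent.N816.He4

open Finset
open Pool.Agent.N969.P15 (V3 Ev ep2)
open Pool.Agent.N877.P21 (ip vec)
open Pool.Agent.N973.P15G (V Nis e2 ce s15 Ng S_HE4)
open Pool.Agent.N816.PG15 (tt mem_V V_sq sz s15_eq z15 Nis_mod cast15)
open Pool.Agent.N712.P21 (ext3 ri A0 E count1 count2 count2E half ri_0 ri_1 ri_2)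

/-- the three similitudes which preserve the lattice -/
def g0 (v : V3) : V3 := ![2 * (v 1 + v 2), -v 0 + v 1 - v 2, -v 0 - v 1 + v 2]
def g1 (v : V3) : V3 := ![2 * v 1, 2 * v 0, -v 0 + v 1 + 2 * v 2]
def g2 (v : V3) : V3 := ![2 * v 2, -v 0 + 2 * v 1 + v 2, 2 * v 0]

@[simp] theorem g0_0 (v : V3) : g0 v 0 = 2 * (v 1 + v 2) := rfl
@[simp] theorem g0_1 (v : V3) : g0 v 1 = -v 0 + v 1 - v 2 := rfl
@[simp] theorem g0_2 (v : V3) : g0 v 2 = -v 0 - v 1 + v 2 := rfl
@[simp] theorem g1_0 (v : V3) : g1 v 0 = 2 * v 1 := rfl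
@[simp] theorem g1_1 (v : V3) : g1 v 1 = 2 * v 0 := rfl
@[simp] theorem g1_2 (v : V3) : g1 v 2 = -v 0 + v 1 + 2 * v 2 := rfl
@[simp] theorem g2_0 (v : V3) : g2 v 0 = 2 * v 2 := rfl
@[simp] theorem g2_1 (v : V3) : g2 v 1 = -v 0 + 2 * v 1 + v 2 := rfl
@[simp] theorem g2_2 (v : V3) : g2 v 2 = 2 * v 0 := rfl

theorem ip_g0 (v : V3) : ip (g0 v) (g0 v) = 4 * ip v v := by
  simp only [ip, g0_0, g0_1, g0_2]; ring
theorem ip_g1 (v : V3) : ip (g1 v) (g1 v) = 4 * ip v v := by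
  simp only [ip, g1_0, g1_1, g1_2]; ring
theorem ip_g2 (v : V3) : ip (g2 v) (g2 v) = 4 * ip v v := by
  simp only [ip, g2_0, g2_1, g2_2]; ring

theorem sum_img {n : ℤ} (f : V3 → ℤ) (g : V3 → V3) (Q : V3 → Prop) [DecidablePred Q]
    (hip : ∀ v, ip (g v) (g v) = 4 * ip v v)
    (hV : ∀ v : V3, (5 : ℤ) ∣ g v 0 + 2 * g v 1 + 2 * g v 2 ↔ (5 : ℤ) ∣ v 0 + 2 * v 1 + 2 * v 2)
    (hQ : ∀ v, Q (g v)) (hinj : ∀ v w, g v = g w → v = w) (hsur : ∀ w, Q w → ∃ v, g v = w) :
    ∑ v ∈ V n, f (g v) = ∑ w ∈ V (4 * n), if Q w then f w else 0 := by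
  rw [← Finset.sum_filter]
  refine Finset.sum_bij (fun v _ => g v) ?_ ?_ ?_ ?_
  · intro v hv
    rw [mem_V] at hv
    rw [Finset.mem_filter, mem_V]
    exact ⟨⟨by rw [hip, hv.1], (hV v).2 hv.2⟩, hQ v⟩
  · intro v _ w _ h
    exact hinj v w h
  · intro w hw
    rw [Finset.mem_filter, mem_V] at hw
    obtain ⟨v, rfl⟩ := hsur w hw.2
    refine ⟨v, ?_, rfl⟩
    rw [mem_V]
    refine ⟨?_, (hV v).1 hw.1.2⟩
    have := hw.1.1
    rw [hip] at this
    linarith
  · intro v _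
    rfl

theorem sum_g0 {n : ℤ} (f : V3 → ℤ) :
    ∑ v ∈ V n, f (g0 v) = ∑ w ∈ V (4 * n), if A0 w then f w else 0 := by
  refine sum_img f g0 A0 ip_g0 ?_ ?_ ?_ ?_
  · intro v
    simp only [g0_0, g0_1, g0_2]
    omega
  · intro v
    unfold A0
    simp only [g0_0, g0_1, g0_2]
    omega
  · intro v w h
    have h0 := congrFun h 0
    have h1 := congrFun h 1
    have h2 := congrFun h 2
    simp only [g0_0, g0_1, g0_2] at h0 h1 h2
    exact ext3 (by omega) (by omega) (by omega)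
  · intro w hw
    obtain ⟨⟨a, ha⟩, b, hb⟩ := hw
    refine ⟨![-(w 2 + 2 * b - a), b, a - b], ext3 ?_ ?_ ?_⟩
    · simp; omega
    · simp; omega
    · simp; omega

theorem sum_g1 {n : ℤ} (f : V3 → ℤ) :
    ∑ v ∈ V n, f (g1 v) = ∑ w ∈ V (4 * n), if A0 (ri w) then f w else 0 := by
  refine sum_img f g1 (fun w => A0 (ri w)) ip_g1 ?_ ?_ ?_ ?_
  · intro v
    simp only [g1_0, g1_1, g1_2]
    omega
  · intro v
    unfold A0
    simp only [ri_0, ri_1, ri_2, g1_0, g1_1, g1_2]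
    omega
  · intro v w h
    have h0 := congrFun h 0
    have h1 := congrFun h 1
    have h2 := congrFun h 2
    simp only [g1_0, g1_1, g1_2] at h0 h1 h2
    exact ext3 (by omega) (by omega) (by omega)
  · intro w hw
    unfold A0 at hw
    simp only [ri_0, ri_1, ri_2] at hw
    obtain ⟨⟨a, ha⟩, b, hb⟩ := hw
    -- w 1 = 2 x, w 0 = 2 y, w 2 = -x + y + 2 z
    refine ⟨![2 * b - a - w 2, a, b - a], ext3 ?_ ?_ ?_⟩
    · simp; omega
    · simp; omega
    · simp; omega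

theorem sum_g2 {n : ℤ} (f : V3 → ℤ) :
    ∑ v ∈ V n, f (g2 v) = ∑ w ∈ V (4 * n), if A0 (ri (ri w)) then f w else 0 := by
  refine sum_img f g2 (fun w => A0 (ri (ri w))) ip_g2 ?_ ?_ ?_ ?_
  · intro v
    simp only [g2_0, g2_1, g2_2]
    omega
  · intro v
    unfold A0
    simp only [ri_0, ri_1, ri_2, g2_0, g2_1, g2_2]
    omega
  · intro v w h
    have h0 := congrFun h 0
    have h1 := congrFun h 1
    have h2 := congrFun h 2
    simp only [g2_0, g2_1, g2_2] at h0 h1 h2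
    exact ext3 (by omega) (by omega) (by omega)
  · intro w hw
    unfold A0 at hw
    simp only [ri_0, ri_1, ri_2] at hw
    obtain ⟨⟨a, ha⟩, b, hb⟩ := hw
    obtain ⟨x, hx⟩ : ∃ x : ℤ, w 2 = 2 * x := ⟨w 2 / 2, by omega⟩
    obtain ⟨y, hy⟩ : ∃ y : ℤ, w 1 = -x + 2 * y + a := ⟨(w 1 + x - a) / 2, by omega⟩
    refine ⟨![x, y, a], ext3 ?_ ?_ ?_⟩
    · simp; omega
    · simp; omega
    · simp; omega

theorem sum_E {n : ℤ} (f : V3 → ℤ) :
    ∑ v ∈ V n, f (fun i => 2 * v i) = ∑ w ∈ V (4 * n), if E w then f w else 0 := by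
  refine sum_img f (fun v => fun i => 2 * v i) E ?_ ?_ ?_ ?_ ?_
  · intro v
    unfold ip
    ring
  · intro v
    omega
  · intro v
    exact ⟨⟨_, rfl⟩, ⟨_, rfl⟩, ⟨_, rfl⟩⟩
  · intro v w h
    funext i
    have := congrFun h i
    linarith
  · intro w hw
    obtain ⟨⟨a, ha⟩, ⟨b, hb⟩, ⟨c, hc⟩⟩ := hw
    refine ⟨![a, b, c], ext3 ?_ ?_ ?_⟩
    · simp; omega
    · simp; omega
    · simp; omega

/-- the number of similitudes with a given vector in the image -/
theorem count {n : ℕ} (h : Nis n) {w : V3} (hw : ip w w = 4 * n) :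
    (if A0 w then (1 : ℤ) else 0) + (if A0 (ri w) then 1 else 0) +
      (if A0 (ri (ri w)) then 1 else 0) = 1 + e2 n * (if E w then 1 else 0) := by
  rcases h.1 with ⟨-, h4⟩ | ⟨M, hM, -, h4⟩
  · have e : e2 n = ep2 n := by
      unfold e2
      rw [if_neg (by omega)]
    by_cases hE : E w
    · obtain ⟨v, hm, h2⟩ := half hw hE
      have h3 := count2 h4 h2
      rw [hm] at h3
      rw [h3, if_pos hE, e]
      ring
    · rw [if_neg hE, count1 (n := 4 * n) (by omega) hw hE]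
      ring
  · have e : e2 n = 0 := by
      unfold e2
      rw [if_pos (by omega)]
    rw [e, zero_mul, add_zero]
    by_cases hE : E w
    · obtain ⟨v, hm, h2⟩ := half hw hE
      have h3 := count2E (n := n) (by omega) h2
      rw [hm] at h3
      exact h3
    · exact count1 (n := 4 * n) (by omega) hw hE

/-- the Hecke identity -/
theorem hecke {n : ℕ} (h : Nis n) (f : V3 → ℤ) :
    ∑ v ∈ V n, (f (g0 v) + f (g1 v) + f (g2 v)) =
      ∑ w ∈ V (4 * n), f w + e2 n * ∑ v ∈ V n, f (fun i => 2 * v i) := by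
  rw [Finset.sum_add_distrib, Finset.sum_add_distrib, sum_g0, sum_g1, sum_g2, sum_E,
    Finset.mul_sum, ← Finset.sum_add_distrib, ← Finset.sum_add_distrib, ← Finset.sum_add_distrib]
  refine Finset.sum_congr rfl fun w hw => ?_
  have hc := count h (mem_V.1 hw).1
  have e : (if A0 w then f w else 0) + (if A0 (ri w) then f w else 0) +
      (if A0 (ri (ri w)) then f w else 0) = ((if A0 w then (1 : ℤ) else 0) +
      (if A0 (ri w) then 1 else 0) + (if A0 (ri (ri w)) then 1 else 0)) * f w := by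
    split_ifs <;> ring
  rw [e, hc]
  split_ifs <;> ring

/-! ### the orientation -/

theorem tt_g0 (v : V3) : tt (g0 v) = 2 * tt v := by
  unfold tt
  simp only [g0_1, g0_2]
  ring

theorem tt_g1 {n : ℤ} {v : V3} (hv : v ∈ V n) : (15 : ℤ) ∣ tt (g1 v) - 8 * tt v := by
  obtain ⟨k, hk⟩ := (mem_V.1 hv).2
  unfold tt
  simp only [g1_1, g1_2]
  omega

theorem tt_g2 {n : ℤ} {v : V3} (hv : v ∈ V n) : (15 : ℤ) ∣ tt (g2 v) - 8 * tt v := by
  obtain ⟨k, hk⟩ := (mem_V.1 hv).2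
  unfold tt
  simp only [g2_1, g2_2]
  omega

theorem o1 : ∀ t : ZMod 15, t * t = 1 → sz (2 * t) = sz t ∧ sz (8 * t) = -sz t := by
  decide

theorem o4 : ∀ t : ZMod 15, t * t = 4 → sz (2 * t) = -sz t ∧ sz (8 * t) = sz t := by
  decide

/-- the sign -/
def sr (n : ℕ) : ℤ := if n % 15 = 1 then 1 else -1

theorem orient {n : ℕ} (h : Nis n) {v : V3} (hv : v ∈ V n) :
    s15 (2 * tt v) = sr n * s15 (tt v) ∧ s15 (8 * tt v) = -(sr n * s15 (tt v)) := by
  have h1 := (z15 _ _).1 (V_sq hv)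
  rw [s15_eq, s15_eq, s15_eq]
  push_cast at h1 ⊢
  unfold sr
  rcases Nis_mod h with hn | hn
  · have hc := cast15 hn
    push_cast at hc
    rw [hc] at h1
    obtain ⟨a, b⟩ := o1 _ h1
    rw [a, b, if_pos hn]
    constructor <;> ring
  · have hc := cast15 hn
    push_cast at hc
    rw [hc] at h1
    obtain ⟨a, b⟩ := o4 _ h1
    have hne : ¬ n % 15 = 1 := by omega
    rw [a, b, if_neg hne]
    constructor <;> ring

theorem s15_congr {s t : ℤ} (h : (15 : ℤ) ∣ s - t) : s15 s = s15 t := by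
  rw [s15_eq, s15_eq, (z15 _ _).1 h]

/-- **HE4** -/
theorem t_HE4 : S_HE4 := by
  intro n h
  constructor
  · have key := hecke h (fun _ => 1)
    simp only [Finset.sum_const, nsmul_eq_mul, mul_one] at key
    push_cast at key ⊢
    linarith
  · have key := hecke h (fun v => s15 (tt v))
    have e1 : ∑ v ∈ V (n : ℤ), (s15 (tt (g0 v)) + s15 (tt (g1 v)) + s15 (tt (g2 v))) =
        -(sr n * ce n) := by
      unfold ce
      rw [Finset.mul_sum, ← Finset.sum_neg_distrib]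
      refine Finset.sum_congr rfl fun v hv => ?_
      obtain ⟨a, b⟩ := orient h hv
      rw [tt_g0, s15_congr (tt_g1 hv), s15_congr (tt_g2 hv), a, b]
      unfold tt
      ring
    have e2' : ∑ v ∈ V (n : ℤ), s15 (tt (fun i => 2 * v i)) = sr n * ce n := by
      unfold ce
      rw [Finset.mul_sum]
      refine Finset.sum_congr rfl fun v hv => ?_
      obtain ⟨a, b⟩ := orient h hv
      have e : tt (fun i => 2 * v i) = 2 * tt v := by
        unfold tt
        ring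
      rw [e, a]
      unfold tt
      ring
    rw [e1, e2'] at key
    have e3 : ∑ w ∈ V (4 * n : ℤ), s15 (tt w) = ce (4 * n) := rfl
    rw [e3] at key
    have hsr : sr n * sr n = 1 := by
      unfold sr
      split_ifs <;> norm_num
    change sr n * ce (4 * n) = _
    linear_combination (-(sr n)) * key - (ce n + e2 n * ce n) * hsr

end Pool.Agent.N816.He4
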