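import Pool.Agent.N816.PG21.Cn7
import Pool.Agent.N816.PG21.C15
import Pool.Agent.N871.P21G.C2
import Pool.Agent.N877.P21G.Defs2
import Pool.Agent.N970.P21G.CP3
import Pool.Agent.N975.ChE2
import Pool.Agent.N975.Ph.Low

/-!
# P21G: the unweighted signed pair sum of the lattice ramified at `7` vanishes (`S_XN`), from the
statement that there is no symbol of level `7`
-/

set_option autoImplicit false

namespace Pool.Agent.N816.Xn

open Finset
open Pool.Agent.Z700 (hh fac)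
open Pool.Agent.Y574.Z7 (chp dvd_fac)
open Pool.Agent.N969.P15 (V3 un psp psp2 Ev c2 chE tb)
open Pool.Agent.N969.P17G (psl psl2 gen gnE chM chP sgnE bdE sgp sg2)
open Pool.Agent.N969.RQ (Fd ip7 vec7 c7)
open Pool.Agent.N973.P15.C (fo)
open Pool.Agent.N816.PG21 (ori)
open Pool.Agent.N816.PG15 (c1_anti Ps_Fd)
open Pool.Agent.N973.P15G (Ps Ng Fx kr)
open Pool.Agent.N295.P15 (Ff dvd_cn fac_ST fac4 pf_four)
open Pool.Agent.N295.P15.E (eT eS eT_sq eS_sq pf_prime pf_dvd kq cq kq_sq)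
open Pool.Agent.N833.P21 (p7 Q' L2 M2 R1)
open Pool.Agent.N871.G21
open Pool.Agent.N877.P21G (Fn As Kn I7 L7 dt Wd X7 S_XN)

noncomputable section

/-- the weight of level `7` -/
def w7 (A : ℕ) (q : ℤ × ℤ × ℤ) : ℤ :=
  if (7 : ℤ) ∣ q.1 then (if (7 : ℤ) ∣ q.2.1 - A then 1 else -1) else 0

/-- LOW at level `7` -/
def S_LOW7 : Prop := ∀ A : ℕ, Ps A → ¬ 7 ∣ A → ∀ x c M : ℤ, 0 < M → M ∣ 7 * x * c + 1 →
  2 * Fx w7 A x M = bdE A x M + jacobiSym A 7 * bdE A c M

theorem w7_fo {A : ℕ} (h7 : ¬ 7 ∣ A) {a a' : ℕ} {c c' : ℤ}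
    (hd : (a : ℤ) * c' - a' * c = A) : w7 A (fo ((a : ℤ), (a' : ℤ), c, c')) =
      (if 7 ∣ a' then 1 else 0) - (if 7 ∣ a then 1 else 0) := by
  obtain ⟨p1, p2, p3, p4, p5, p6⟩ := ori (by norm_num : Nat.Prime 7) (by norm_num) h7 hd
  push_cast at p1 p2 p3 p4 p5 p6
  unfold w7
  simp only [fo, p2]
  by_cases r1 : 7 ∣ a
  · have s1 : ¬ 7 ∣ a' := fun h => p1 ⟨r1, h⟩
    have t1 := p5 r1
    simp [r1, s1, t1]
  · by_cases s1 : 7 ∣ a'
    · have t1 := p3 s1
      simp [r1, s1, t1]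
    · simp [r1, s1]

/-- the classes -/
theorem Fd_Ps {A : ℕ} (h : Fd A) : Ps A := by
  rcases h with ⟨h1, ⟨h2, h3⟩ | ⟨M, rfl, h2, h3⟩⟩
  · exact Or.inl ⟨h2, h3, h1⟩
  · exact Or.inr ⟨M, rfl, h2, h3⟩

theorem jac7_one {A : ℕ} (h : jacobiSym A 7 = 1) : A % 7 = 1 ∨ A % 7 = 2 ∨ A % 7 = 4 := by
  rw [jacobiSym.mod_left] at h
  have h1 : A % 7 < 7 := Nat.mod_lt _ (by norm_num)
  have h2 : ((A : ℤ) % ((7 : ℕ) : ℤ)) = ((A % 7 : ℕ) : ℤ) := by push_cast; rfl
  rw [h2] at h
  generalize A % 7 = r at h h1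
  interval_cases r <;> first
    | omega
    | (exfalso; revert h; decide +kernel)

theorem I7_mul {A m : ℕ} (hA : jacobiSym A 7 = 1) (hm : I7 m) : I7 (A * m) := by
  have h1 := jac7_one hA
  unfold I7 at hm ⊢
  rcases h1 with h1 | h1 | h1 <;> rcases hm with h2 | h2 | h2 <;> rw [Nat.mul_mod, h1, h2] <;>
    norm_num

open Classical in
/-- C1 at level `7` -/
theorem c1_7 {A m : ℕ} (hA : Fd A) (hm : Fn m) (hcop : Nat.Coprime A m) (h7 : ¬ 7 ∣ A) :
    ∑ u ∈ un m, chM m u * Fx w7 A u m =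
      2 * ∑ T ∈ range (A * m), Wd (fun _ => True) (7 ∣ ·) A m (A * m - T) T := by
  rw [c1_anti hA hm hcop (fun _ a' => 7 ∣ a') w7 (fun a a' c c' hd _ _ => w7_fo h7 hd)]
  congr 1
  refine Finset.sum_congr rfl fun T _ => ?_
  unfold Wd
  rw [Finset.filter_true_of_mem fun _ _ => trivial]
  refine Finset.sum_congr rfl fun a _ => ?_
  rw [Finset.sum_filter]
  refine Finset.sum_congr rfl fun a' _ => ?_
  rfl

/-! ### C2 at level `7` -/

/-- no condition at `3`, condition `7 ∣ a'` -/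
theorem lev_7 : Lev (fun _ => True) (7 ∣ ·) (fun _ _ => 1) v01 := by
  intro a a' ha ha'
  unfold v01
  simp only [← dvd_fac p7 ha', if_true, mul_one]

variable {n : ℕ} {B : Finset ℕ}

/-- split, no condition -/
theorem Lc_S {S T p : ℕ} (hp : p ∉ n.primeFactors) (hP : N295.P15.E.Ps n p = 1)
    (h0 : S.factorization p = 0 ∨ T.factorization p = 0) :
    Lc (fun _ _ => 1) n B S T p =
      ((S.factorization p + T.factorization p + 1 : ℕ) : ℤ) * sT n B T p := by
  rw [Lc_out hp, sT_out hp]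
  simp only [hP, one_pow, mul_one, Finset.sum_const, Finset.card_range, nsmul_eq_mul]
  rcases h0 with h | h <;> rw [h] <;> push_cast <;> ring

theorem Ps3_split (h : FF n) (h3 : n % 3 = 2) : 3 ∉ n.primeFactors ∧ N295.P15.E.Ps n 3 = 1 := by
  have h5 : 3 ∉ n.primeFactors := fun h1 => by have := pf_dvd h1; omega
  refine ⟨h5, ?_⟩
  rw [h.Ps_l 3 p3 (by norm_num) h5, jacobiSym.mod_left]
  have h1 : (-(n : ℤ)) % ((3 : ℕ) : ℤ) = 1 := by omega
  rw [h1]; norm_num

theorem Ps7_inert (h : FF n) (h0 : I7 n) : 7 ∉ n.primeFactors ∧ N295.P15.E.Ps n 7 = -1 := by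
  have h5 : 7 ∉ n.primeFactors := fun h1 => by
    have := pf_dvd h1
    unfold I7 at h0
    omega
  refine ⟨h5, ?_⟩
  rw [h.Ps_l 7 p7 (by norm_num) h5]
  exact Pool.Agent.N816.Cn7.jac_inert h0

/-- the density -/
theorem L7_val {S T : ℕ} (h : Fn n) (hS : S ≠ 0) (hT : T ≠ 0) (hST : S + T = 1 * n)
    (h3 : n % 3 = 2) :
    L7 n (2 * T - (n : ℕ)) (4 * S * T) = if Odd (S.factorization 7 + T.factorization 7) then
      ((S.factorization 3 + T.factorization 3 + 1 : ℕ) : ℤ) * (M2 n S T * Fs n S T) else 0 := by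
  have hF := FF_of h
  have hST0 := mul_ne_zero hS hT
  have hD : 4 * S * T ≠ 0 := mul_ne_zero (mul_ne_zero (by norm_num) hS) hT
  obtain ⟨n3, P3⟩ := Ps3_split hF h3
  unfold L7
  have r7 : (4 * S * T).factorization 7 = S.factorization 7 + T.factorization 7 := by
    rw [mul_assoc, fac4 hST0 p7 (by norm_num), fac_ST hS hT]
  have e3 : (if 3 ∣ 4 * S * T then fac n (4 * S * T) 3 else 1) =
      ((S.factorization 3 + T.factorization 3 + 1 : ℕ) : ℤ) := by
    have e4 : (4 * S * T).factorization 3 = S.factorization 3 + T.factorization 3 := by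
      rw [mul_assoc, fac4 hST0 p3 (by norm_num), fac_ST hS hT]
    split_ifs with h5
    · rw [mul_assoc, fac_four hF hST0 p3 (by norm_num), facg_eq hF hS hT p3 (by norm_num) n3, P3]
      simp only [one_pow, Finset.sum_const, Finset.card_range, nsmul_eq_mul, mul_one]
    · have := Nat.factorization_eq_zero_of_not_dvd h5
      rw [e4] at this
      rw [this]
      norm_num
  rw [r7, prod7 hD, e3, ← M2_dt h hS hT hST, mul_assoc 4 S T, R1_four hF hST0, ← Fs_eq]
  split_ifs <;> ring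

/-- C2 at level `7` -/
theorem c2_7 {A m : ℕ} (hA : A = 1 ∨ Fd A) (hm : Fn m) (hcop : Nat.Coprime A m)
    (h3 : (A * m) % 3 = 2) (h7 : I7 (A * m)) {T : ℕ} (hT0 : 0 < T) (hTn : T < A * m) (hT7 : 7 ∣ T) :
    Wd (fun _ => True) (7 ∣ ·) A m (A * m - T) T = -(sgnE 1 A (A * m) T *
      L7 (A * m) (2 * T - (A * m : ℕ)) (4 * (A * m - T) * T)) := by
  obtain ⟨hF, _⟩ := Fn_mul hA hm hcop
  have hFF := FF_of hF
  have hA0 : A ≠ 0 := by rintro rfl; exact hFF.n0 (by rw [zero_mul])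
  have hm0 : m ≠ 0 := Fn_ne hm
  obtain ⟨n3, P3⟩ := Ps3_split hFF h3
  obtain ⟨n7, P7⟩ := Ps7_inert hFF h7
  have hA3 : ¬ 3 ∣ A := fun h => n3 ((hFF.mem p3).2 (h.mul_right m))
  have hA7 : ¬ 7 ∣ A := fun h => n7 ((hFF.mem p7).2 (h.mul_right m))
  obtain ⟨S, hSdef⟩ : ∃ S, S = A * m - T := ⟨_, rfl⟩
  rw [← hSdef]
  have hST : S + T = 1 * (A * m) := by omega
  have hS : S ≠ 0 := by omega
  have hT : T ≠ 0 := by omega
  have hS7 : ¬ 7 ∣ S := by
    intro h
    have h6 : 7 ∣ 1 * (A * m) := hST ▸ dvd_add h hT7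
    rw [one_mul] at h6
    exact n7 ((hFF.mem p7).2 h6)
  have e1 : Wd (fun _ => True) (7 ∣ ·) A m S T = _ := Wd_DS (fun _ => True) (7 ∣ ·) hA0 hm0 hcop S T
  rw [e1, DS_val lev_7 hFF (Or.inl rfl) hS hT hST
    (Lc_S n3 P3 (one_zero hFF (Or.inl rfl) hS hT hST p3 (by norm_num) n3))
    (Lc_I01 n7 P7 (Or.inl hS7)), sdiff_m hA0 hm0 hcop, L7_val hF hS hT hST h3,
    Nat.factorization_eq_zero_of_not_dvd hS7, zero_add]
  have m1 := main_m hA hm hcop (Or.inl rfl) hS hT hST (fun h => absurd h hA3)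
    (fun h => absurd h hA7)
  have m2 := main_2 hF (Or.inl rfl) hS hT hST
  by_cases ho : Odd (T.factorization 7)
  · have k3 : ∀ k : ℕ, (1 : ℤ) ^ k = 1 := fun k => one_pow k
    have d1 : dl (A * m) T = -1 := by
      unfold dl
      rw [if_neg n3, if_neg n7, P3, P7, k3, ho.neg_one_pow]
      norm_num
    have d2 : dl (A * m) S = 1 := by
      unfold dl
      rw [if_neg n3, if_neg n7, P3, P7, k3, Nat.factorization_eq_zero_of_not_dvd hS7]
      norm_num
    have d3 : hl (A * m) S T 3 = 1 := if_neg n3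
    have d7 : hl (A * m) S T 7 = 1 := if_neg n7
    rw [d1] at m1
    rw [d1, d2, d3, d7] at m2
    rw [if_pos ho, if_pos ho]
    unfold Fs at *
    generalize ∏ l ∈ m.primeFactors, eT (A * m) T l = a at *
    generalize ∏ l ∈ Q' (A * m) S T, Ff (A * m) S T l = F at *
    generalize ((S.factorization 3 + T.factorization 3 + 1 : ℕ) : ℤ) = k at *
    have m3 : L2 (A * m) S T * F = M2 (A * m) S T * F := by linarith
    linear_combination (-k) * m1 - (k * sgnE 1 A (A * m) T) * m3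
  · rw [if_neg ho, if_neg ho]
    ring

/-! ### the pairs -/

/-- the signs of `S` and `T` agree -/
theorem sg_symm7 {A m : ℕ} (hA : A = 1 ∨ Fd A) (hm : Fn m) (hcop : Nat.Coprime A m)
    (h3A : ¬ 3 ∣ A) (h7A : ¬ 7 ∣ A) {S T : ℕ} (hS : S ≠ 0) (hT : T ≠ 0)
    (hST : S + T = 1 * (A * m)) (hne : L2 (A * m) S T * Fs (A * m) S T ≠ 0) :
    sgnE 1 A (A * m) S = sgnE 1 A (A * m) T := by
  obtain ⟨hF, hk⟩ := Fn_mul hA hm hcop
  have hFF := FF_of hF
  have hn0 : A * m ≠ 0 := hFF.n0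
  have hsub : A.primeFactors ⊆ (A * m).primeFactors :=
    Nat.primeFactors_mono (Dvd.intro m rfl) hn0
  have hL2 : L2 (A * m) S T ≠ 0 := left_ne_zero_of_mul hne
  have hF' : ∀ l ∈ Q' (A * m) S T, Ff (A * m) S T l ≠ 0 := by
    rcases nv_or (A * m) S T with h | h
    · exact h.1
    · exact absurd h.1 hne
  have hd2 : 2 ∈ (A * m).primeFactors → (2 ∣ S ↔ 2 ∣ T) := fun h2 =>
    Pool.Agent.N295.P15.dvd_iff' hST h2
  -- the signs agree
  have hsig : ∀ l ∈ (A * m).primeFactors, l ≠ 3 → l ≠ 7 → eS (A * m) S l = eT (A * m) T l := by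
    intro l hl l3 l5
    by_cases h2 : l = 2
    · subst h2
      by_cases hT2 : 2 ∣ T
      · have h6 := hL2
        unfold L2 at h6
        rw [if_pos hl, if_pos hT2] at h6
        have c1 := eT_sq (n := A * m) Nat.prime_two hT
        have c3 := eS_sq (n := A * m) Nat.prime_two hS
        rcases mul_self_eq_one_iff.1 c1 with h7 | h7 <;>
          rcases mul_self_eq_one_iff.1 c3 with h8 | h8 <;>
          rw [h7, h8] at h6 ⊢ <;> norm_num at h6
      · exact Pool.Agent.N833.P21.e2_eq ⟨Fn_two hF (pf_dvd hl)⟩ hST hT2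
    · exact eS_eq hFF hS hT hST hF' (Finset.mem_erase.2 ⟨h2, hl⟩) l3 l5
  -- the exchanged data
  have hTS : T + S = 1 * (A * m) := by omega
  have eFs : Fs (A * m) T S = Fs (A * m) S T := by
    rw [Fs_eq, Fs_eq, mul_comm T S]
  have eL2 : L2 (A * m) T S = L2 (A * m) S T := by
    unfold L2
    by_cases h2 : 2 ∈ (A * m).primeFactors
    · rw [if_pos h2, if_pos h2]
      have h3 := hd2 h2
      by_cases hT2 : 2 ∣ T
      · rw [if_pos (h3.2 hT2), if_pos hT2]
        have k := kq_sq (n := A * m) Nat.prime_two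
        have e1 : eT (A * m) S 2 = kq (A * m) 2 * eS (A * m) S 2 := by unfold eT eS; ring
        have e2 : eT (A * m) T 2 = kq (A * m) 2 * eS (A * m) T 2 := by unfold eT eS; ring
        rw [e1, e2]
        ring
      · rw [if_neg (fun h => hT2 (h3.1 h)), if_neg hT2]
    · rw [if_neg h2, if_neg h2]
      ring
  have m1 := main_A hA hm hcop (Or.inl rfl) hS hT hST (fun h => absurd h h3A) (fun h => absurd h h7A)
  have m2 := main_A hA hm hcop (Or.inl rfl) hT hS hTS (fun h => absurd h h3A) (fun h => absurd h h7A)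
  rw [eFs, eL2] at m2
  have k1 := mul_right_cancel₀ hne m1
  have k2 := mul_right_cancel₀ hne m2
  rw [← k1, ← k2]
  have e : ∏ l ∈ A.primeFactors, eT (A * m) S l =
      (∏ l ∈ A.primeFactors, kq (A * m) l) * ∏ l ∈ A.primeFactors, eT (A * m) T l := by
    rw [← Finset.prod_mul_distrib]
    refine Finset.prod_congr rfl fun l hl => ?_
    have e1 : eT (A * m) S l = kq (A * m) l * eS (A * m) S l := by unfold eT eS; ring
    rw [e1, hsig l (hsub hl)]
    · rintro rfl
      exact h3A (pf_dvd hl)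
    · rintro rfl
      exact h7A (pf_dvd hl)
  rw [e, hk, one_mul]

theorem L7_neg (n : ℕ) (b : ℤ) (D : ℕ) : L7 n (-b) D = L7 n b D := by
  have h : tb (-b) = tb b := by
    unfold tb
    have h1 : (-b) % 4 = 0 ↔ b % 4 = 0 := by omega
    have h2 : (-b) % 4 = 2 ↔ b % 4 = 2 := by omega
    simp only [h1, h2]
  unfold L7 dt
  rw [h]

/-- the summand is symmetric -/
theorem term_symm {A m : ℕ} (hA : A = 1 ∨ Fd A) (hm : Fn m) (hcop : Nat.Coprime A m)
    (h3 : (A * m) % 3 = 2) (h7 : I7 (A * m)) {S T : ℕ} (hS : 0 < S) (hT : 0 < T)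
    (hST : S + T = A * m) :
    sgnE 1 A (A * m) S * L7 (A * m) (2 * S - (A * m : ℕ)) (4 * T * S) =
      sgnE 1 A (A * m) T * L7 (A * m) (2 * T - (A * m : ℕ)) (4 * S * T) := by
  obtain ⟨hF, _⟩ := Fn_mul hA hm hcop
  have hFF := FF_of hF
  have hA0 : A ≠ 0 := by rintro rfl; exact hFF.n0 (by rw [zero_mul])
  obtain ⟨n3, P3⟩ := Ps3_split hFF h3
  obtain ⟨n7, P7⟩ := Ps7_inert hFF h7
  have hA3 : ¬ 3 ∣ A := fun h => n3 ((hFF.mem p3).2 (h.mul_right m))
  have hA7 : ¬ 7 ∣ A := fun h => n7 ((hFF.mem p7).2 (h.mul_right m))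
  have hST' : S + T = 1 * (A * m) := by omega
  have e1 : (2 * (S : ℤ) - (A * m : ℕ)) = -(2 * (T : ℤ) - (A * m : ℕ)) := by
    rw [← hST]
    push_cast
    ring
  rw [e1, L7_neg, show 4 * T * S = 4 * S * T by ring]
  by_cases h0 : L7 (A * m) (2 * T - (A * m : ℕ)) (4 * S * T) = 0
  · rw [h0, mul_zero, mul_zero]
  · congr 1
    refine sg_symm7 hA hm hcop hA3 hA7 hS.ne' hT.ne' hST' ?_
    rw [L7_val hF hS.ne' hT.ne' hST' h3] at h0
    have ho : Odd (S.factorization 7 + T.factorization 7) := by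
      by_contra h1
      rw [if_neg h1] at h0
      exact h0 rfl
    rw [if_pos ho] at h0
    have hM := right_ne_zero_of_mul h0
    have m2 := main_2 hF (Or.inl rfl) hS.ne' hT.ne' hST'
    have k3 : ∀ k : ℕ, (1 : ℤ) ^ k = 1 := fun k => one_pow k
    have d1 : dl (A * m) S * dl (A * m) T = -1 := by
      unfold dl
      rw [if_neg n3, if_neg n7, if_neg n3, if_neg n7, P3, P7, k3, k3, one_mul, one_mul, ← pow_add,
        ho.neg_one_pow]
    have d3 : hl (A * m) S T 3 = 1 := if_neg n3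
    have d7 : hl (A * m) S T 7 = 1 := if_neg n7
    rw [d1, d3, d7] at m2
    intro h1
    rw [h1] at m2
    apply hM
    linarith

/-! ### the lattice -/

theorem mem_vec7 {n : ℕ} {v : V3} : v ∈ vec7 (n : ℤ) ↔ ip7 v v = n :=
  Pool.Agent.N970.P21G.mem7

theorem cs7 (v w : V3) : ip7 v w ^ 2 ≤ ip7 v v * ip7 w w := by
  have e : ip7 v v * ip7 w w - ip7 v w ^ 2 =
      7 * (v 0 * (2 * w 1 + w 2) - w 0 * (2 * v 1 + v 2)) ^ 2 + 49 * (v 0 * w 2 - w 0 * v 2) ^ 2 +
        7 * ((2 * v 1 + v 2) * w 2 - (2 * w 1 + w 2) * v 2) ^ 2 := by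
    unfold ip7
    ring
  have h : 0 ≤ ip7 v v * ip7 w w - ip7 v w ^ 2 := by
    rw [e]
    positivity
  linarith

theorem ip7_zero {v : V3} (h : ip7 v v = 0) : v = 0 := by
  have e : ip7 v v = 7 * v 0 ^ 2 + (2 * v 1 + v 2) ^ 2 + 7 * v 2 ^ 2 := by
    unfold ip7
    ring
  rw [e] at h
  have h0 : v 0 = 0 := by nlinarith [sq_nonneg (v 0), sq_nonneg (2 * v 1 + v 2), sq_nonneg (v 2)]
  have h2 : v 2 = 0 := by nlinarith [sq_nonneg (v 0), sq_nonneg (2 * v 1 + v 2), sq_nonneg (v 2)]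
  have h1 : v 1 = 0 := by
    rw [h0, h2] at h
    nlinarith [sq_nonneg (v 1)]
  ext i
  fin_cases i
  · exact h0
  · exact h1
  · exact h2

theorem ip7_eq {n : ℕ} {v w : V3} (hv : ip7 v v = n) (hw : ip7 w w = n) :
    ip7 v w = n ↔ w = v := by
  constructor
  · intro h
    have e : ip7 (v - w) (v - w) = ip7 v v + ip7 w w - 2 * ip7 v w := by
      unfold ip7
      simp only [Pi.sub_apply]
      ring
    rw [hv, hw, h] at e
    have := ip7_zero (e.trans (by ring))
    exact (sub_eq_zero.1 this).symm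
  · rintro rfl
    exact hv

theorem ip7_neg (v w : V3) : ip7 v (-w) = -ip7 v w := by
  unfold ip7
  simp only [Pi.neg_apply]
  ring

theorem ip7_eq_neg {n : ℕ} {v w : V3} (hv : ip7 v v = n) (hw : ip7 w w = n) :
    ip7 v w = -n ↔ w = -v := by
  have hw' : ip7 (-w) (-w) = n := by
    rw [← hw]
    unfold ip7
    simp only [Pi.neg_apply]
    ring
  have h := ip7_eq hv hw'
  rw [ip7_neg] at h
  constructor
  · intro h1
    rw [← h.1 (by rw [h1, neg_neg]), neg_neg]
  · intro h1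
    rw [← h.2 (by rw [h1, neg_neg]), neg_neg]

theorem neg_mem7 {n : ℕ} {v : V3} (h : v ∈ vec7 (n : ℤ)) : -v ∈ vec7 (n : ℤ) := by
  rw [mem_vec7] at h ⊢
  rw [← h]
  unfold ip7
  simp only [Pi.neg_apply]
  ring

theorem ip7_par {v w : V3} {n : ℕ} (hv : ip7 v v = n) (hw : ip7 w w = n) :
    (2 : ℤ) ∣ ip7 v w - n := by
  have h1 : ∀ x : ℤ, (2 : ℤ) ∣ x * x - x := by
    intro x
    rcases Int.even_or_odd x with h | h
    · exact dvd_sub (h.two_dvd.mul_right _) h.two_dvd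
    · exact ((h.mul h).sub_odd h).two_dvd
  have hv0 : (2 : ℤ) ∣ v 0 - n := by
    rw [← hv]
    obtain ⟨k, hk⟩ := h1 (v 0)
    refine ⟨-(3 * (v 0 * v 0) + k + 2 * (v 1 * v 1) + 4 * (v 2 * v 2) + 2 * (v 1 * v 2)), ?_⟩
    unfold ip7
    linear_combination (-1) * hk
  have hw0 : (2 : ℤ) ∣ w 0 - n := by
    rw [← hw]
    obtain ⟨k, hk⟩ := h1 (w 0)
    refine ⟨-(3 * (w 0 * w 0) + k + 2 * (w 1 * w 1) + 4 * (w 2 * w 2) + 2 * (w 1 * w 2)), ?_⟩
    unfold ip7
    linear_combination (-1) * hk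
  obtain ⟨k, hk⟩ := hv0
  obtain ⟨l, hl⟩ := hw0
  obtain ⟨j, hj⟩ := h1 (n : ℤ)
  refine ⟨3 * (v 0 * w 0) + 2 * (v 1 * w 1) + 4 * (v 2 * w 2) + (v 1 * w 2 + v 2 * w 1) +
    k * w 0 + n * l + j, ?_⟩
  unfold ip7
  linear_combination (w 0) * hk + n * hl + hj

theorem c7_sum (n1 b n2 : ℤ) : (c7 n1 b n2 : ℤ) = ∑ v ∈ vec7 n1, ∑ w ∈ vec7 n2,
    if ip7 v w = b then 1 else 0 := by
  unfold c7
  rw [Finset.card_eq_sum_ones, Finset.sum_filter, Finset.sum_product]
  push_cast
  rfl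

/-- the sum over `T` as a sum over the pairs -/
theorem sum_T7 {n : ℕ} (f : ℤ → ℤ) :
    ∑ T ∈ (range n).filter (fun T => 0 < T), f T * (c7 n (2 * T - n) n : ℤ) =
      ∑ v ∈ vec7 n, ∑ w ∈ vec7 n, if ip7 v w ≠ n ∧ ip7 v w ≠ -n then f ((n + ip7 v w) / 2) else 0 := by
  have h1 : ∀ T ∈ (range n).filter (fun T => 0 < T), f T * (c7 n (2 * T - n) n : ℤ) =
      ∑ v ∈ vec7 n, ∑ w ∈ vec7 n, if ip7 v w = 2 * T - n then f T else 0 := by
    intro T _
    rw [c7_sum, Finset.mul_sum]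
    refine Finset.sum_congr rfl fun v _ => ?_
    rw [Finset.mul_sum]
    refine Finset.sum_congr rfl fun w _ => ?_
    split_ifs <;> simp
  rw [Finset.sum_congr rfl h1, Finset.sum_comm]
  refine Finset.sum_congr rfl fun v hv => ?_
  rw [Finset.sum_comm]
  refine Finset.sum_congr rfl fun w hw => ?_
  have hv' := mem_vec7.1 hv
  have hw' := mem_vec7.1 hw
  by_cases hr : ip7 v w ≠ n ∧ ip7 v w ≠ -n
  · rw [if_pos hr]
    have hcs := cs7 v w
    rw [hv', hw', ← sq] at hcs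
    have habs := abs_le_of_sq_le_sq' hcs (by positivity)
    have hp := ip7_par hv' hw'
    obtain ⟨hne1, hne2⟩ := hr
    obtain ⟨T, hT⟩ : ∃ T : ℕ, (T : ℤ) = (n + ip7 v w) / 2 := by
      refine ⟨((n + ip7 v w) / 2).toNat, ?_⟩
      rw [Int.toNat_of_nonneg]
      omega
    have h2 : ip7 v w = 2 * T - n := by
      rw [hT]
      omega
    rw [Finset.sum_eq_single T]
    · rw [if_pos h2, ← hT]
    · intro T' _ hne
      rw [if_neg]
      intro h3
      apply hne
      have : (T' : ℤ) = T := by linarith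
      exact_mod_cast this
    · intro h3
      exfalso
      apply h3
      have hTN : T < n := by omega
      rw [Finset.mem_filter, Finset.mem_range]
      exact ⟨hTN, by omega⟩
  · rw [if_neg hr]
    refine Finset.sum_eq_zero fun T hT => if_neg ?_
    intro h3
    rw [Finset.mem_filter, Finset.mem_range] at hT
    apply hr
    rw [h3]
    omega

/-- the complete sum -/
theorem pair_sum {n : ℕ} (hn : 0 < n) (f : ℤ → ℤ) (h0 : f 0 = 1) (h1 : f n = 1) :
    ∑ v ∈ vec7 n, ∑ w ∈ vec7 n, f ((n + ip7 v w) / 2) =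
      ∑ T ∈ (range n).filter (fun T => 0 < T), f T * (c7 n (2 * T - n) n : ℤ) +
        2 * (vec7 n).card := by
  rw [sum_T7]
  have e : ∀ v ∈ vec7 (n : ℤ), ∀ w ∈ vec7 (n : ℤ), f ((n + ip7 v w) / 2) =
      (if ip7 v w ≠ n ∧ ip7 v w ≠ -n then f ((n + ip7 v w) / 2) else 0) +
        ((if w = v then 1 else 0) + if w = -v then 1 else 0) := by
    intro v hv w hw
    have hv' := mem_vec7.1 hv
    have hw' := mem_vec7.1 hw
    have k1 := ip7_eq hv' hw'
    have k2 := ip7_eq_neg hv' hw'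
    by_cases c1 : ip7 v w = n
    · have c2 : ¬ ip7 v w = -n := by omega
      rw [if_neg (fun h => h.1 c1), if_pos (k1.1 c1), if_neg (fun h => c2 (k2.2 h)), c1,
        show ((n : ℤ) + n) / 2 = n by omega, h1]
      norm_num
    · by_cases c2 : ip7 v w = -n
      · rw [if_neg (fun h => h.2 c2), if_neg (fun h => c1 (k1.2 h)), if_pos (k2.1 c2), c2,
          show ((n : ℤ) + -n) / 2 = 0 by omega, h0]
        norm_num
      · rw [if_pos ⟨c1, c2⟩, if_neg (fun h => c1 (k1.2 h)), if_neg (fun h => c2 (k2.2 h))]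
        norm_num
  rw [Finset.sum_congr rfl fun v hv => Finset.sum_congr rfl fun w hw => e v hv w hw]
  simp only [Finset.sum_add_distrib]
  congr 1
  have e2 : ∑ v ∈ vec7 (n : ℤ), ∑ w ∈ vec7 (n : ℤ), (if w = v then (1 : ℤ) else 0) =
      (vec7 (n : ℤ)).card := by
    rw [Finset.card_eq_sum_ones]
    push_cast
    refine Finset.sum_congr rfl fun v hv => ?_
    rw [Finset.sum_ite_eq', if_pos hv]
  have e3 : ∑ v ∈ vec7 (n : ℤ), ∑ w ∈ vec7 (n : ℤ), (if w = -v then (1 : ℤ) else 0) =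
      (vec7 (n : ℤ)).card := by
    rw [Finset.card_eq_sum_ones]
    push_cast
    refine Finset.sum_congr rfl fun v hv => ?_
    rw [Finset.sum_ite_eq', if_pos (neg_mem7 hv)]
  rw [e2, e3]
  ring

/-! ### the ends -/

theorem sg2_top {n : ℕ} (hn : Ev n) : sg2 1 n n = 1 := by
  have hn0 : (n : ℤ) ≠ 0 := by
    obtain ⟨m, rfl, hs, _⟩ := hn
    have := hs.ne_zero
    exact_mod_cast (by omega : 4 * m ≠ 0)
  rw [sg2, if_neg hn0]
  obtain ⟨M, rfl, hs, h4⟩ := hn
  rcases h4 with h4 | h4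
  · have e1 : padicValInt 2 ((4 * M : ℕ) : ℤ) = 2 := by
      rw [padicValInt.of_nat, show 4 * M = 2 ^ 2 * M by ring]
      have : Fact (Nat.Prime 2) := ⟨Nat.prime_two⟩
      rw [padicValNat.mul (by norm_num) (by omega), padicValNat.prime_pow,
        padicValNat.eq_zero_of_not_dvd (by omega)]
    rw [e1]
    have e2 : (((4 * M : ℕ) : ℤ) / 2 ^ 2) = M := by push_cast; omega
    rw [e2]
    have e3 : c2 (4 * M) (M : ℤ) = 1 := by
      unfold c2
      rw [if_neg (by omega), if_pos (by omega), if_pos (by omega)]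
    have e4 : Pool.Agent.N969.P17G.t2 (4 * M) ^ 2 = 1 := by
      unfold Pool.Agent.N969.P17G.t2
      split_ifs <;> norm_num
    rw [e3, e4, mul_one]
  · obtain ⟨N, rfl⟩ : ∃ N, M = 2 * N := ⟨M / 2, by omega⟩
    have e1 : padicValInt 2 ((4 * (2 * N) : ℕ) : ℤ) = 3 := by
      rw [padicValInt.of_nat, show 4 * (2 * N) = 2 ^ 3 * N by ring]
      have : Fact (Nat.Prime 2) := ⟨Nat.prime_two⟩
      rw [padicValNat.mul (by norm_num) (by omega), padicValNat.prime_pow,
        padicValNat.eq_zero_of_not_dvd (by omega)]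
    rw [e1]
    have e2 : (((4 * (2 * N) : ℕ) : ℤ) / 2 ^ 3) = N := by push_cast; omega
    rw [e2]
    have e5 : 4 * (2 * N) / 8 = N := by omega
    unfold c2 Pool.Agent.N969.P17G.t2
    rw [e5, if_neg (by omega), if_neg (by omega), if_neg (by omega : ¬ 4 * (2 * N) % 8 = 4)]
    have h8 : N % 8 = 1 ∨ N % 8 = 3 ∨ N % 8 = 5 ∨ N % 8 = 7 := by omega
    rcases h8 with h8 | h8 | h8 | h8
    · rw [if_pos (by omega : 4 * (2 * N) % 32 = 8), if_pos (by omega), if_pos (by omega)]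
      norm_num
    · rw [if_neg (by omega : ¬ 4 * (2 * N) % 32 = 8), if_neg (by omega), if_neg (by omega)]
      norm_num
    · rw [if_pos (by omega : 4 * (2 * N) % 32 = 8), if_neg (by omega), if_neg (by omega)]
      norm_num
    · rw [if_neg (by omega : ¬ 4 * (2 * N) % 32 = 8), if_pos (by omega), if_pos (by omega)]
      norm_num

theorem end_zero {A m : ℕ} (hA : A = 1 ∨ Fd A) (hm : Fn m) (hcop : Nat.Coprime A m) :
    sgnE 1 A (A * m) 0 = 1 := by
  obtain ⟨hF, hk⟩ := Fn_mul hA hm hcop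
  rw [← hk]
  unfold sgnE
  refine Finset.prod_congr rfl fun p hp => ?_
  have hpp := Nat.prime_of_mem_primeFactors hp
  unfold kq
  by_cases h2 : p = 2
  · rw [if_pos h2, if_pos h2, sg2, if_pos rfl]
    norm_num
  · rw [if_neg h2, if_neg h2, sgp, if_pos (dvd_zero _), Int.zero_ediv, if_pos (dvd_zero _)]
    push_cast
    exact jacobiSym.at_neg_one (hpp.odd_of_ne_two h2)

theorem end_top {A m : ℕ} (hA : A = 1 ∨ Fd A) (hm : Fn m) (hcop : Nat.Coprime A m) :
    sgnE 1 A (A * m) (A * m : ℕ) = 1 := by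
  obtain ⟨hF, hk⟩ := Fn_mul hA hm hcop
  have hFF := FF_of hF
  have hn0 : A * m ≠ 0 := hFF.n0
  unfold sgnE
  refine Finset.prod_eq_one fun p hp => ?_
  have hpp := Nat.prime_of_mem_primeFactors hp
  have hpA := Nat.dvd_of_mem_primeFactors hp
  have hpn : p ∣ A * m := hpA.mul_right m
  by_cases h2 : p = 2
  · subst h2
    rw [if_pos rfl]
    exact sg2_top (Fn_two hF hpn)
  · rw [if_neg h2]
    have hfac := hFF.fac1 p (Finset.mem_erase.2 ⟨h2, Nat.mem_primeFactors.2 ⟨hpp, hpn, hn0⟩⟩)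
    obtain ⟨k, hk'⟩ := hpn
    have e0 : A * m / p = k := by rw [hk']; exact Nat.mul_div_cancel_left _ hpp.pos
    have hkn : ¬ p ∣ k := by
      rintro ⟨l, rfl⟩
      have h5 : p ^ 2 ∣ A * m := ⟨l, by rw [hk']; ring⟩
      have := (hpp.pow_dvd_iff_le_factorization hn0).1 h5
      omega
    have e1 : (((A * m : ℕ) : ℤ)) / p = k := by
      rw [← e0]
      push_cast
      rfl
    unfold sgp
    rw [if_pos (by exact_mod_cast (Dvd.intro k hk'.symm : p ∣ A * m)), e1, e0,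
      if_neg (by exact_mod_cast hkn), jacobiSym.mul_left, ← sq]
    refine jacobiSym.sq_one ?_
    rw [Int.gcd_natCast_natCast]
    exact ((hpp.coprime_iff_not_dvd).2 hkn).symm

/-! ### the sum over the cusps -/

theorem chM_seven {m : ℕ} (hm : Fn m) (h7 : I7 m) : chM m 7 = -1 := by
  rcases hm with h | h
  · rw [Pool.Agent.N971.PG.chM_odd h.1 h.2]
    have h5 := jacobiSym.quadratic_reciprocity_three_mod_four (a := 7) (b := m) (by norm_num) h.2
    have h6 : jacobiSym (m : ℤ) 7 = 1 := by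
      rw [jacobiSym.mod_left]
      unfold I7 at h7
      have : (m : ℤ) % ((7 : ℕ) : ℤ) = 1 ∨ (m : ℤ) % ((7 : ℕ) : ℤ) = 2 ∨
          (m : ℤ) % ((7 : ℕ) : ℤ) = 4 := by
        push_cast
        omega
      rcases this with h | h | h <;> rw [h] <;> decide +kernel
    rw [h6] at h5
    exact_mod_cast h5
  · rw [Pool.Agent.N971.PG.chM_even h]
    have h5 := Pool.Agent.N975.ChE.chE_prime h (p := 7) p7 (by norm_num)
    push_cast at h5
    rw [h5]
    rw [jacobiSym.mod_left]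
    obtain ⟨M, rfl, -⟩ := h
    unfold I7 at h7
    have : (-(((4 * M : ℕ) : ℤ) / 4)) % ((7 : ℕ) : ℤ) = 6 ∨
        (-(((4 * M : ℕ) : ℤ) / 4)) % ((7 : ℕ) : ℤ) = 5 ∨
        (-(((4 * M : ℕ) : ℤ) / 4)) % ((7 : ℕ) : ℤ) = 3 := by
      push_cast
      omega
    push_cast at this ⊢
    rcases this with h | h | h <;> rw [h] <;> decide +kernel

/-- the conjugate cusp -/
def cj (m u : ℕ) : ℕ := (-(((7 * u : ℕ) : ZMod m))⁻¹).val

theorem cj_spec {m u : ℕ} (hm : 1 < m) (hu : Nat.Coprime (7 * u) m) :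
    (m : ℤ) ∣ 7 * u * cj m u + 1 := by
  have : NeZero m := ⟨by omega⟩
  have h1 := ZMod.coe_mul_inv_eq_one (7 * u) hu
  rw [← ZMod.intCast_zmod_eq_zero_iff_dvd]
  unfold cj
  push_cast
  rw [ZMod.natCast_val, ZMod.cast_id', id]
  push_cast at h1
  linear_combination (-1 : ZMod m) * h1

theorem cj_mem {m u : ℕ} (hm : 1 < m) (h7 : Nat.Coprime 7 m) (hu : u ∈ un m) : cj m u ∈ un m := by
  have : NeZero m := ⟨by omega⟩
  unfold un at hu ⊢
  rw [Finset.mem_filter, Finset.mem_range] at hu ⊢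
  refine ⟨ZMod.val_lt _, ?_⟩
  obtain ⟨k, hk⟩ := cj_spec hm (Nat.Coprime.mul_left h7 hu.2)
  rw [← Nat.isCoprime_iff_coprime]
  exact ⟨-(7 * u), k, by linear_combination -hk⟩

theorem cj_cj {m u : ℕ} (hm : 1 < m) (h7 : Nat.Coprime 7 m) (hu : u ∈ un m) :
    cj m (cj m u) = u := by
  have : NeZero m := ⟨by omega⟩
  have h1 := cj_mem hm h7 hu
  unfold un at hu h1
  rw [Finset.mem_filter, Finset.mem_range] at hu h1
  have h2 := cj_spec hm (Nat.Coprime.mul_left h7 hu.2)
  have h3 := cj_spec hm (Nat.Coprime.mul_left h7 h1.2)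
  have h4 : (m : ℤ) ∣ ((7 * cj m u : ℕ) : ℤ) * ((cj m (cj m u) : ℤ) - u) := by
    have := dvd_sub h3 h2
    have e : 7 * ((cj m u : ℕ) : ℤ) * (cj m (cj m u) : ℕ) + 1 - (7 * u * (cj m u : ℕ) + 1) =
        ((7 * cj m u : ℕ) : ℤ) * ((cj m (cj m u) : ℤ) - u) := by
      push_cast
      ring
    rwa [e] at this
  have h5 : IsCoprime (m : ℤ) ((7 * cj m u : ℕ) : ℤ) :=
    (Nat.isCoprime_iff_coprime.2 (Nat.Coprime.mul_left h7 h1.2)).symm
  have h6 := h5.dvd_of_dvd_mul_left h4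
  have h7 : cj m (cj m u) < m := ZMod.val_lt _
  have h8 := Int.eq_zero_of_abs_lt_dvd h6 (by rw [abs_lt]; constructor <;> omega)
  omega

theorem low_sum {A m : ℕ} (hlow : S_LOW7) (hA : As A) (hm : Kn m) :
    ∑ u ∈ un m, chM m u * Fx w7 A u m = ∑ u ∈ un m, chM m u * bdE A u m := by
  obtain ⟨hmF, hm3, hm7⟩ := hm
  obtain ⟨hAF, hA3, hA7⟩ := hA
  have hm1 := Pool.Agent.N816.G1.Fn_one_lt hmF
  have hc7 : Nat.Coprime 7 m := by
    refine (Nat.Prime.coprime_iff_not_dvd p7).2 ?_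
    unfold I7 at hm7
    omega
  have h7A : ¬ 7 ∣ A := by
    have := jac7_one hA7
    omega
  obtain ⟨l, hM⟩ := Pool.Agent.N971.P15G.shM (m := m) hmF
  have hchr := Pool.Agent.N809.PG.chr_M hM
  have hneg := Pool.Agent.N809.PG.neg_M hM
  have h77 := chM_seven hmF hm7
  have key : ∀ u ∈ un m, chM m u * (2 * Fx w7 A u m) = chM m u * bdE A u m +
      chM m (cj m u) * bdE A (cj m u) m := by
    intro u hu
    have hu' := hu
    unfold un at hu'
    rw [Finset.mem_filter, Finset.mem_range] at hu'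
    have hs := cj_spec hm1 (Nat.Coprime.mul_left hc7 hu'.2)
    have h1 := hlow A (Fd_Ps hAF) h7A u (cj m u) m (by exact_mod_cast (by omega : 0 < m)) hs
    rw [h1, hA7, one_mul]
    have h2 : chM m (7 * u * cj m u) = chM m (-1) :=
      hchr.per _ _ (by rw [sub_neg_eq_add]; exact hs)
    rw [hchr.mul, hchr.mul, h77, hneg] at h2
    have h3 : chM m u * chM m u = 1 := by
      have h4 : chM m u * chM m (cj m u) = 1 := by linarith
      have h5 : chM m u = 1 ∨ chM m u = -1 := Int.isUnit_iff.1 (IsUnit.of_mul_eq_one _ h4)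
      rcases h5 with h | h <;> rw [h] <;> norm_num
    have h4 : chM m (cj m u) = chM m u := by
      linear_combination (-chM m u) * h2 - (chM m (cj m u)) * h3
    rw [h4]
    ring
  have h1 : 2 * ∑ u ∈ un m, chM m u * Fx w7 A u m = 2 * ∑ u ∈ un m, chM m u * bdE A u m := by
    rw [Finset.mul_sum]
    have e1 : ∑ u ∈ un m, 2 * (chM m u * Fx w7 A u m) = ∑ u ∈ un m, (chM m u * bdE A u m +
      chM m (cj m u) * bdE A (cj m u) m) :=
      Finset.sum_congr rfl fun u hu => by rw [← key u hu]; ring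
    rw [e1, Finset.sum_add_distrib]
    have e2 : ∑ u ∈ un m, chM m (cj m u) * bdE A (cj m u) m =
        ∑ u ∈ un m, chM m u * bdE A u m :=
      Finset.sum_nbij' (cj m) (cj m) (fun u hu => cj_mem hm1 hc7 hu)
        (fun u hu => cj_mem hm1 hc7 hu) (fun u hu => cj_cj hm1 hc7 hu)
        (fun u hu => cj_cj hm1 hc7 hu) (fun u _ => rfl)
    rw [e2]
    ring
  linarith

/-! ### the result -/

/-- **XN**, from the statement that there is no symbol of level `7` -/
theorem xn_of_low (hlow : S_LOW7) : S_XN := by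
  classical
  intro A m hA hm hcop
  have hlow' := low_sum hlow hA hm
  obtain ⟨hmF, hm3, hm7⟩ := hm
  obtain ⟨hAF, hA3, hA7⟩ := hA
  have hA' : A = 1 ∨ Fd A := Or.inr hAF
  obtain ⟨hF, -⟩ := Fn_mul hA' hmF hcop
  have h3 : (A * m) % 3 = 2 := by rw [Nat.mul_mod, hA3, hm3]
  have h7 : I7 (A * m) := I7_mul hA7 hm7
  have h7A : ¬ 7 ∣ A := by
    have := jac7_one hA7
    omega
  have hn0 : 0 < A * m := Nat.pos_of_ne_zero (FF_of hF).n0
  have h7n : ¬ 7 ∣ A * m := by unfold I7 at h7; omega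
  have hcnf := Pool.Agent.N816.Cn7.cnf7 (Fd_Ps hAF) (m := m) hmF hcop h7
  rw [← hlow', c1_7 hAF hmF hcop h7A] at hcnf
  set n := A * m with hn
  -- the summand
  obtain ⟨g, hg⟩ : ∃ g : ℕ → ℤ, g = fun T : ℕ => sgnE 1 A n T *
    L7 n (2 * T - (n : ℕ)) (4 * (n - T) * T) := ⟨_, rfl⟩
  have e1 : X7 A n = 4 * ∑ T ∈ (range n).filter (fun T => 0 < T), g T + 2 * (vec7 n).card := by
    have := pair_sum hn0 (fun T => sgnE 1 A n T) (end_zero hA' hmF hcop)
      (end_top hA' hmF hcop)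
    unfold X7
    rw [this, Finset.mul_sum]
    congr 1
    refine Finset.sum_congr rfl fun T hT => ?_
    rw [Finset.mem_filter, Finset.mem_range] at hT
    have hD0 : 0 < 4 * (n - T) * T := by
      have : 0 < n - T := by omega
      have := hT.2
      positivity
    have hDD : ((4 * (n - T) * T : ℕ) : ℤ) = (n : ℤ) * n - (2 * T - n) ^ 2 := by
      have e : ((n - T : ℕ) : ℤ) = n - T := by rw [Nat.cast_sub hT.1.le]
      push_cast [e]
      ring
    have hc : (c7 n (2 * T - n) n : ℤ) = 4 * L7 n (2 * T - (n : ℕ)) (4 * (n - T) * T) := by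
      rcases hF with hF | hF
      · have h := Pool.Agent.N970.RQ.t_PC7 n n (2 * T - n) (4 * (n - T) * T) hF.1 hF.2 h7n hD0 hDD
          (Pool.Agent.N816.Cn7.jac_inert h7)
        rw [h]
        unfold Pool.Agent.N969.RQ.lcp L7 dt
        rw [if_neg (show ¬ 2 ∣ n by omega)]
      · exact Pool.Agent.N970.P21G.t_PC7E n n (2 * T - n) (4 * (n - T) * T) hF h7
          (by obtain ⟨M, h, -⟩ := hF; exact ⟨M, h⟩) hD0 hDD
    rw [hc, hg]
    ring
  -- the symmetry
  have hsym : ∀ T : ℕ, 0 < T → T < n → g (n - T) = g T := by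
    intro T h0 h1
    have h2 := term_symm hA' hmF hcop h3 h7 (S := n - T) (T := T) (by omega) h0 (by omega)
    rw [hg]
    simp only
    rw [show n - (n - T) = T by omega]
    exact h2
  have hz : ∀ T : ℕ, 0 < T → T < n → ¬ 7 ∣ T → ¬ 7 ∣ n - T → g T = 0 := by
    intro T h0 h1 h2 h4
    rw [hg]
    simp only
    have : ¬ Odd ((4 * (n - T) * T).factorization 7) := by
      have h5 : ¬ 7 ∣ 4 * (n - T) * T := by
        rw [p7.dvd_mul, p7.dvd_mul]
        rintro ((h | h) | h)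
        · omega
        · exact h4 h
        · exact h2 h
      rw [Nat.factorization_eq_zero_of_not_dvd h5]
      norm_num
    unfold L7
    rw [if_neg this, mul_zero]
  have e2 : ∑ T ∈ (range n).filter (fun T => 0 < T), g T =
      2 * ∑ T ∈ (range n).filter (fun T => 0 < T ∧ 7 ∣ T), g T := by
    have s1 : ∑ T ∈ (range n).filter (fun T => 0 < T), g T =
        ∑ T ∈ (range n).filter (fun T => 0 < T ∧ 7 ∣ T), g T +
          ∑ T ∈ (range n).filter (fun T => 0 < T ∧ 7 ∣ n - T), g T := by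
      rw [Finset.sum_filter, Finset.sum_filter, Finset.sum_filter, ← Finset.sum_add_distrib]
      refine Finset.sum_congr rfl fun T hT => ?_
      rw [Finset.mem_range] at hT
      by_cases h0 : 0 < T
      · by_cases h5 : 7 ∣ T
        · have h6 : ¬ 7 ∣ n - T := by
            intro h6
            apply h7n
            have := dvd_add h6 h5
            rwa [Nat.sub_add_cancel hT.le] at this
          simp [h0, h5, h6]
        · by_cases h6 : 7 ∣ n - T
          · simp [h0, h5, h6]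
          · simp [h0, h5, h6, hz T h0 hT h5 h6]
      · simp [h0]
    have s2 : ∑ T ∈ (range n).filter (fun T => 0 < T ∧ 7 ∣ n - T), g T =
        ∑ T ∈ (range n).filter (fun T => 0 < T ∧ 7 ∣ T), g T := by
      refine Finset.sum_nbij' (fun T => n - T) (fun T => n - T) ?_ ?_ ?_ ?_ ?_
      · intro T hT
        rw [Finset.mem_filter, Finset.mem_range] at hT ⊢
        exact ⟨by omega, by omega, hT.2.2⟩
      · intro T hT
        rw [Finset.mem_filter, Finset.mem_range] at hT ⊢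
        refine ⟨by omega, by omega, ?_⟩
        rw [show n - (n - T) = T by omega]
        exact hT.2.2
      · intro T hT
        rw [Finset.mem_filter, Finset.mem_range] at hT
        show n - (n - T) = T
        omega
      · intro T hT
        rw [Finset.mem_filter, Finset.mem_range] at hT
        show n - (n - T) = T
        omega
      · intro T hT
        rw [Finset.mem_filter, Finset.mem_range] at hT
        exact (hsym T hT.2.1 hT.1).symm
    rw [s1, s2]
    ring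
  have e3 : ∑ T ∈ range n, Wd (fun _ => True) (7 ∣ ·) A m (n - T) T =
      -∑ T ∈ (range n).filter (fun T => 0 < T ∧ 7 ∣ T), g T := by
    rw [Finset.sum_filter, ← Finset.sum_neg_distrib]
    refine Finset.sum_congr rfl fun T hT => ?_
    rw [Finset.mem_range] at hT
    by_cases h0 : 0 < T
    · by_cases h5 : 7 ∣ T
      · rw [if_pos ⟨h0, h5⟩, c2_7 hA' hmF hcop h3 h7 h0 hT h5, hg]
      · rw [if_neg (fun h => h5 h.2), neg_zero]
        unfold Wd
        rw [Finset.filter_false_of_mem (s := T.divisors)]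
        · simp
        · intro a ha h6
          exact h5 (h6.trans (Nat.dvd_of_mem_divisors ha))
    · have : T = 0 := by omega
      subst this
      rw [if_neg (fun h => h0 h.1), neg_zero]
      unfold Wd
      simp
  rw [e1, e2]
  rw [e3] at hcnf
  linarith

/-- LOW at level `7` -/
theorem low7 : S_LOW7 := by
  intro A hA h7 x c M hM hd
  have h := Pool.Agent.N975.Ph.low_zero (A := A) (p := 7) (Ps_Fd hA) p7 (by norm_num) h7
    Pool.Agent.N975.Ph.no7 hM (by exact_mod_cast hd)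
  exact h

/-- **XN**: the unweighted signed pair sum vanishes -/
theorem t_XN : S_XN := xn_of_low low7

end

end Pool.Agent.N816.Xn
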